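import Mathlib

/-!
Graph splines: the module `spl K G` of families `(f_v)` with `x_u - x_v ∣ f_u - f_v` on edges.
-/

namespace Pool.Agent.Lib.MP_a2ed14_ag

open MvPolynomial

section sub

variable {V : Type*} [DecidableEq V] {K : Type*} [Field K]

/-- substitute `X b` for `X a` -/
noncomputable def sb (K : Type*) [Field K] (a b : V) : MvPolynomial V K →ₐ[K] MvPolynomial V K :=
  aeval (fun v => if v = a then X b else X v)

@[simp] lemma sb_X (a b v : V) :
    sb K a b (X v) = if v = a then X b else X v := by simp [sb]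

lemma dvd_sub_sb (a b : V) (g : MvPolynomial V K) : (X a - X b) ∣ g - sb K a b g := by
  induction g using MvPolynomial.induction_on with
  | C r => simp [sb]
  | add p q hp hq =>
    rw [map_add]
    have : p + q - (sb K a b p + sb K a b q) = (p - sb K a b p) + (q - sb K a b q) := by ring
    rw [this]; exact dvd_add hp hq
  | mul_X p v hp =>
    rw [map_mul]
    have : p * X v - sb K a b p * sb K a b (X v) =
      (p - sb K a b p) * X v + sb K a b p * (X v - sb K a b (X v)) := by ring
    rw [this]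
    refine dvd_add (Dvd.dvd.mul_right hp _) (Dvd.dvd.mul_left ?_ _)
    rw [sb_X]
    split_ifs with h
    · rw [h]
    · simp

lemma dvd_iff_sb (a b : V) (g : MvPolynomial V K) : (X a - X b) ∣ g ↔ sb K a b g = 0 := by
  constructor
  · rintro ⟨h, rfl⟩
    rw [map_mul, map_sub, sb_X, sb_X]
    by_cases hab : b = a <;> simp [hab]
  · intro h
    have := dvd_sub_sb (K := K) a b g
    rwa [h, sub_zero] at this

lemma X_sub_X_ne {a b : V} (h : a ≠ b) : (X a - X b : MvPolynomial V K) ≠ 0 := by
  rw [sub_ne_zero]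
  intro h2
  exact h (X_injective h2)

lemma prod_dvd {a : V} (T : Finset V) (ha : a ∉ T) {g : MvPolynomial V K}
    (h : ∀ s ∈ T, (X a - X s : MvPolynomial V K) ∣ g) :
    (∏ s ∈ T, (X a - X s : MvPolynomial V K)) ∣ g := by
  classical
  induction T using Finset.induction_on generalizing g with
  | empty => simp
  | insert i T hi ih =>
    rw [Finset.prod_insert hi]
    have h1 : (∏ s ∈ T, (X a - X s : MvPolynomial V K)) ∣ g :=
      ih (fun h' => ha (Finset.mem_insert_of_mem h')) (fun s hs => h s (Finset.mem_insert_of_mem hs))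
    obtain ⟨q, hq⟩ := h1
    have h2 := h i (Finset.mem_insert_self i T)
    rw [dvd_iff_sb, hq, map_mul, map_prod] at h2
    have h3 : (∏ s ∈ T, sb K a i (X a - X s : MvPolynomial V K)) ≠ 0 := by
      rw [Finset.prod_ne_zero_iff]
      intro s hs
      have hsa : s ≠ a := fun h' => ha (by rw [← h']; exact Finset.mem_insert_of_mem hs)
      rw [map_sub, sb_X, sb_X, if_pos rfl, if_neg hsa]
      apply X_sub_X_ne
      rintro rfl
      exact hi hs
    rcases mul_eq_zero.mp h2 with h4 | h4
    · exact (h3 h4).elim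
    · rw [← dvd_iff_sb] at h4
      obtain ⟨r, hr⟩ := h4
      refine ⟨r, ?_⟩
      rw [hq, hr]; ring

lemma sub_dvd_prod_sub {R ι : Type*} [CommRing R] (a b : R) (t : Finset ι) (f : ι → R) :
    (a - b) ∣ (∏ i ∈ t, (a - f i)) - ∏ i ∈ t, (b - f i) := by
  classical
  induction t using Finset.induction_on with
  | empty => simp
  | insert i t hi ih =>
    rw [Finset.prod_insert hi, Finset.prod_insert hi]
    have : (a - f i) * ∏ i ∈ t, (a - f i) - (b - f i) * ∏ i ∈ t, (b - f i) =
      (a - b) * ∏ i ∈ t, (a - f i) + (b - f i) * ((∏ i ∈ t, (a - f i)) - ∏ i ∈ t, (b - f i)) := by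
      ring
    rw [this]
    exact dvd_add (Dvd.intro _ rfl) (Dvd.dvd.mul_left ih _)

lemma hc_mul {n d : ℕ} (a : MvPolynomial V K) {g : MvPolynomial V K} (hg : g.IsHomogeneous d) :
    homogeneousComponent n (a * g) =
      if d ≤ n then homogeneousComponent (n - d) a * g else 0 := by
  conv_lhs => rw [← sum_homogeneousComponent a, Finset.sum_mul, map_sum]
  have h1 : ∀ m, homogeneousComponent n (homogeneousComponent m a * g) =
      if m + d = n then homogeneousComponent m a * g else 0 := by
    intro m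
    have : homogeneousComponent m a * g ∈ homogeneousSubmodule V K (m + d) := by
      rw [mem_homogeneousSubmodule]
      exact (homogeneousComponent_isHomogeneous m a).mul hg
    rw [homogeneousComponent_of_mem this]
    simp only [eq_comm]
  simp only [h1]
  split_ifs with h
  · rw [Finset.sum_ite]
    by_cases h2 : n - d ∈ Finset.range (a.totalDegree + 1)
    · rw [Finset.sum_eq_single_of_mem (n - d)]
      · simp
      · rw [Finset.mem_filter]; exact ⟨h2, by omega⟩
      · intro b hb hne
        rw [Finset.mem_filter] at hb; omega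
    · rw [homogeneousComponent_eq_zero, zero_mul]
      · simp only [Finset.sum_const_zero, add_zero]
        apply Finset.sum_eq_zero
        intro b hb
        rw [Finset.mem_filter] at hb
        exfalso; apply h2
        rw [show n - d = b by omega]; exact hb.1
      · rw [Finset.mem_range] at h2; omega
  · apply Finset.sum_eq_zero
    intro m _
    rw [if_neg (by omega)]

end sub

section spl

variable {V : Type*} [DecidableEq V] {K : Type*} [Field K]

/-- graph splines -/
def spl (K : Type*) [Field K] (G : SimpleGraph V) :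
    Submodule (MvPolynomial V K) (V → MvPolynomial V K) where
  carrier := {f | ∀ u v, G.Adj u v → (X u - X v) ∣ (f u - f v)}
  add_mem' := by
    intro f g hf hg u v huv
    have : (f + g) u - (f + g) v = (f u - f v) + (g u - g v) := by
      simp only [Pi.add_apply]; ring
    rw [this]; exact dvd_add (hf u v huv) (hg u v huv)
  zero_mem' := by intro u v _; simp
  smul_mem' := by
    intro c f hf u v huv
    have : (c • f) u - (c • f) v = c * (f u - f v) := by
      simp only [Pi.smul_apply, smul_eq_mul]; ring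
    rw [this]; exact Dvd.dvd.mul_left (hf u v huv) _

lemma mem_spl {G : SimpleGraph V} {f : V → MvPolynomial V K} :
    f ∈ spl K G ↔ ∀ u v, G.Adj u v → (X u - X v) ∣ (f u - f v) := Iff.rfl

/-- the spline attached to a separation -/
noncomputable def theta (K : Type*) [Field K] (S U : Finset V) : V → MvPolynomial V K :=
  fun v => if v ∈ U then ∏ s ∈ S, (X v - X s) else 0

/-- `U` is a union of components of `G - S` -/
def Pr (G : SimpleGraph V) (S U : Finset V) : Prop :=
  (∀ v ∈ U, v ∉ S) ∧ ∀ v ∈ U, ∀ w, G.Adj v w → (w ∈ U ∨ w ∈ S)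

lemma theta_mem {G : SimpleGraph V} {S U : Finset V} (h : Pr G S U) : theta K S U ∈ spl K G := by
  have key : ∀ u v, G.Adj u v → u ∈ U → v ∉ U →
      (X u - X v : MvPolynomial V K) ∣ ∏ s ∈ S, (X u - X s) := by
    intro u v huv hu hv
    rcases h.2 u hu v huv with h1 | h1
    · exact (hv h1).elim
    · exact Finset.dvd_prod_of_mem (fun s => (X u - X s : MvPolynomial V K)) h1
  intro u v huv
  unfold theta
  split_ifs with h1 h2 h2
  · exact sub_dvd_prod_sub _ _ _ _
  · rw [sub_zero]; exact key u v huv h1 h2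
  · rw [zero_sub, dvd_neg, ← neg_sub, neg_dvd]
    exact key v u huv.symm h2 h1
  · simp

lemma theta_hom (S U : Finset V) (v : V) : (theta K S U v).IsHomogeneous S.card := by
  unfold theta
  split_ifs
  · have := IsHomogeneous.prod S (fun s => (X v - X s : MvPolynomial V K)) (fun _ => 1)
      (fun s _ => (isHomogeneous_X K v).sub (isHomogeneous_X K s))
    simpa using this
  · exact isHomogeneous_zero _ _ _

lemma mem_spl_add {G : SimpleGraph V} {x y : V} {f : V → MvPolynomial V K} :
    f ∈ spl K (G ⊔ SimpleGraph.edge x y) ↔ f ∈ spl K G ∧ (X x - X y) ∣ (f x - f y) := by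
  by_cases hxy : x = y
  · subst hxy; simp
  have hadj : ∀ u v, (G ⊔ SimpleGraph.edge x y).Adj u v ↔
      (G.Adj u v ∨ (u = x ∧ v = y) ∨ (u = y ∧ v = x)) := by
    intro u v
    rw [SimpleGraph.sup_adj, SimpleGraph.edge_adj]
    constructor
    · rintro (h | ⟨⟨h1, h2⟩ | ⟨h1, h2⟩, h3⟩)
      · exact Or.inl h
      · exact Or.inr (Or.inl ⟨h1, h2⟩)
      · exact Or.inr (Or.inr ⟨h1, h2⟩)
    · rintro (h | ⟨h1, h2⟩ | ⟨h1, h2⟩)
      · exact Or.inl h
      · subst h1; subst h2; exact Or.inr ⟨by simp, hxy⟩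
      · subst h1; subst h2; exact Or.inr ⟨by simp, fun h => hxy h.symm⟩
  constructor
  · intro h
    refine ⟨fun u v huv => h u v ((hadj u v).mpr (Or.inl huv)), ?_⟩
    exact h x y ((hadj x y).mpr (Or.inr (Or.inl ⟨rfl, rfl⟩)))
  · rintro ⟨h1, h2⟩ u v huv
    rcases (hadj u v).mp huv with h | ⟨rfl, rfl⟩ | ⟨rfl, rfl⟩
    · exact h1 u v h
    · exact h2
    · rw [← neg_sub, neg_dvd, ← dvd_neg, neg_sub]; exact h2

/-- data of a two-pair, as used in the algebra: `S` = common neighbours, `A` = side of `x` -/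
structure Sep (G : SimpleGraph V) (x y : V) (S A : Finset V) : Prop where
  ne : x ≠ y
  nadj : ¬ G.Adj x y
  hS : ∀ s, s ∈ S ↔ (G.Adj x s ∧ G.Adj y s)
  xA : x ∈ A
  yA : y ∉ A
  pr : Pr G S A

variable {G : SimpleGraph V} {x y : V} {S A : Finset V}

lemma Sep.x_notMem (h : Sep G x y S A) : x ∉ S := h.pr.1 x h.xA

lemma Sep.y_notMem (h : Sep G x y S A) : y ∉ S := by
  intro hy
  exact ((h.hS y).mp hy).2.ne rfl

lemma Sep.theta_x (h : Sep G x y S A) : theta K S A x = ∏ s ∈ S, (X x - X s) := by
  simp [theta, h.xA]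

lemma Sep.theta_y (h : Sep G x y S A) : theta K S A y = 0 := by
  simp [theta, h.yA]

lemma Sep.sb_prod (h : Sep G x y S A) :
    sb K y x (∏ s ∈ S, (X x - X s : MvPolynomial V K)) = ∏ s ∈ S, (X x - X s) := by
  rw [map_prod]
  apply Finset.prod_congr rfl
  intro s hs
  have hsy : s ≠ y := by rintro rfl; exact h.y_notMem hs
  rw [map_sub, sb_X, sb_X, if_neg h.ne, if_neg hsy]

lemma Sep.prod_ne (h : Sep G x y S A) : (∏ s ∈ S, (X x - X s : MvPolynomial V K)) ≠ 0 := by
  rw [Finset.prod_ne_zero_iff]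
  intro s hs
  apply X_sub_X_ne
  rintro rfl
  exact h.x_notMem hs

lemma Sep.decomp (h : Sep G x y S A) {f : V → MvPolynomial V K} (hf : f ∈ spl K G) :
    ∃ q : MvPolynomial V K, f - q • theta K S A ∈ spl K (G ⊔ SimpleGraph.edge x y) := by
  have h1 : (∏ s ∈ S, (X x - X s : MvPolynomial V K)) ∣ sb K y x (f x - f y) := by
    apply prod_dvd _ h.x_notMem
    intro s hs
    obtain ⟨hxs, hys⟩ := (h.hS s).mp hs
    obtain ⟨p, hp⟩ := hf x s hxs
    obtain ⟨q, hq⟩ := hf y s hys
    have hsy : s ≠ y := hys.ne.symm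
    have : f x - f y = (X x - X s) * p - (X y - X s) * q := by
      rw [← hp, ← hq]; ring
    rw [this]
    refine ⟨sb K y x p - sb K y x q, ?_⟩
    simp only [map_sub, map_mul, sb_X, if_neg h.ne, if_neg hsy, if_true]
    ring
  obtain ⟨q, hq⟩ := h1
  refine ⟨q, ?_⟩
  rw [mem_spl_add]
  refine ⟨(spl K G).sub_mem hf ((spl K G).smul_mem q (theta_mem h.pr)), ?_⟩
  simp only [Pi.sub_apply, Pi.smul_apply, smul_eq_mul, h.theta_x, h.theta_y, mul_zero, sub_zero]
  have h2 : (X y - X x : MvPolynomial V K) ∣ (f x - f y) - sb K y x (f x - f y) :=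
    dvd_sub_sb _ _ _
  rw [hq] at h2
  rw [← neg_sub, neg_dvd]
  have h3 : f x - q * ∏ s ∈ S, (X x - X s) - f y = f x - f y - (∏ s ∈ S, (X x - X s)) * q := by
    ring
  rw [h3]; exact h2

lemma Sep.alpha_theta (h : Sep G x y S A) :
    (X x - X y : MvPolynomial V K) • theta K S A ∈ spl K (G ⊔ SimpleGraph.edge x y) := by
  rw [mem_spl_add]
  refine ⟨(spl K G).smul_mem _ (theta_mem h.pr), ?_⟩
  simp only [Pi.smul_apply, smul_eq_mul, h.theta_y, mul_zero, sub_zero]
  exact Dvd.intro _ rfl

lemma Sep.dvd_of_smul (h : Sep G x y S A) {q : MvPolynomial V K}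
    (hq : q • theta K S A ∈ spl K (G ⊔ SimpleGraph.edge x y)) : (X x - X y) ∣ q := by
  rw [mem_spl_add] at hq
  have h1 := hq.2
  simp only [Pi.smul_apply, smul_eq_mul, h.theta_y, mul_zero, sub_zero, h.theta_x] at h1
  rw [← neg_sub, neg_dvd, dvd_iff_sb, map_mul, h.sb_prod] at h1
  rcases mul_eq_zero.mp h1 with h2 | h2
  · rw [← neg_sub, neg_dvd, dvd_iff_sb]; exact h2
  · exact (h.prod_ne h2).elim

end spl

end Pool.Agent.Lib.MP_a2ed14_ag
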