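import Mathlib

/-!
Weakly chordal graphs: existence of two-pairs (Hayward), in a form convenient for us.
-/

namespace Pool.Agent.Lib.MP_a2ed14_ag

open Relation

variable {V : Type*}

/-- `p 0, …, p k` is a chordless path of `G`. -/
def IndPath (G : SimpleGraph V) (p : ℕ → V) (k : ℕ) : Prop :=
  (∀ i j, i ≤ k → j ≤ k → p i = p j → i = j) ∧
  ∀ i j, i < j → j ≤ k → (G.Adj (p i) (p j) ↔ j = i + 1)

/-- `c 0, …, c (n-1)` is a chordless cycle of `G`. -/
def IndCycle (G : SimpleGraph V) (c : ℕ → V) (n : ℕ) : Prop :=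
  (∀ i j, i < n → j < n → c i = c j → i = j) ∧
  ∀ i j, i < j → j < n → (G.Adj (c i) (c j) ↔ (j = i + 1 ∨ (i = 0 ∧ j + 1 = n)))

/-- no chordless cycle of length at least five -/
def NoHole (G : SimpleGraph V) : Prop := ∀ n, 5 ≤ n → ∀ c, ¬ IndCycle G c n

lemma IndCycle.embed {G : SimpleGraph V} {c : ℕ → V} {n : ℕ} (hn : 3 ≤ n)
    (h : IndCycle G c n) : Nonempty (SimpleGraph.cycleGraph n ↪g G) := by
  have key : ∀ i j : Fin n, (i : ℕ) < j →
      (G.Adj (c i) (c j) ↔ (SimpleGraph.cycleGraph n).Adj i j) := by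
    intro i j hij
    rw [h.2 i j hij j.2, SimpleGraph.cycleGraph_adj']
    have h1 : ((j - i : Fin n) : ℕ) = j - i := by
      rw [Fin.sub_val_of_le]; exact le_of_lt hij
    have h2 : ((i - j : Fin n) : ℕ) = n - (j - i) := by
      rw [Fin.val_sub]
      have hi := i.2
      have hj := j.2
      have : n - (j : ℕ) + i = n - (j - i) := by omega
      rw [this, Nat.mod_eq_of_lt (by omega)]
    rw [h1, h2]
    have hj := j.2
    omega
  refine ⟨⟨⟨fun i => c i, ?_⟩, ?_⟩⟩
  · intro i j hij
    exact Fin.ext (h.1 _ _ i.2 j.2 hij)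
  · intro i j
    show G.Adj (c i) (c j) ↔ _
    rcases lt_trichotomy (i : ℕ) j with hlt | heq | hgt
    · exact key i j hlt
    · have : i = j := Fin.ext heq
      subst this
      simp
    · rw [G.adj_comm, (SimpleGraph.cycleGraph n).adj_comm]
      exact key j i hgt

lemma IndCycle.of_embed {G : SimpleGraph V} {n : ℕ} (hn : 0 < n)
    (f : SimpleGraph.cycleGraph n ↪g G) :
    IndCycle G (fun i => f ⟨i % n, Nat.mod_lt _ hn⟩) n := by
  refine ⟨?_, ?_⟩
  · intro i j hi hj hij
    have := f.injective hij
    simp only [Fin.mk.injEq] at this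
    rwa [Nat.mod_eq_of_lt hi, Nat.mod_eq_of_lt hj] at this
  · intro i j hij hj
    have hi : i < n := lt_trans hij hj
    simp only [SimpleGraph.Embedding.map_adj_iff]
    rw [SimpleGraph.cycleGraph_adj']
    have e1 : (⟨i % n, Nat.mod_lt _ hn⟩ : Fin n) = ⟨i, hi⟩ := by
      ext; simp [Nat.mod_eq_of_lt hi]
    have e2 : (⟨j % n, Nat.mod_lt _ hn⟩ : Fin n) = ⟨j, hj⟩ := by
      ext; simp [Nat.mod_eq_of_lt hj]
    rw [e1, e2]
    have h1 : (((⟨j, hj⟩ : Fin n) - (⟨i, hi⟩ : Fin n) : Fin n) : ℕ) = j - i := by
      rw [Fin.sub_val_of_le]; exact le_of_lt hij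
    have h2 : (((⟨i, hi⟩ : Fin n) - (⟨j, hj⟩ : Fin n) : Fin n) : ℕ) = n - (j - i) := by
      rw [Fin.val_sub]
      have : n - j + i = n - (j - i) := by omega
      simp only
      rw [this, Nat.mod_eq_of_lt (by omega)]
    rw [h1, h2]
    omega

lemma noHole_iff {G : SimpleGraph V} :
    NoHole G ↔ ∀ n : ℕ, 5 ≤ n → IsEmpty (SimpleGraph.cycleGraph n ↪g G) := by
  constructor
  · intro h n hn
    refine ⟨fun f => h n hn _ (IndCycle.of_embed (by omega) f)⟩
  · intro h n hn c hc
    obtain ⟨f⟩ := hc.embed (by omega)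
    exact (h n hn).false f

lemma IndCycle.rotate {G : SimpleGraph V} {c : ℕ → V} {n : ℕ} (h : IndCycle G c n) (hn : 2 ≤ n)
    {r : ℕ} (hr : r < n) :
    IndCycle G (fun m => if m + r < n then c (m + r) else c (m + r - n)) n := by
  have adjc : ∀ i j, i < n → j < n → (G.Adj (c i) (c j) ↔
      (j = i + 1 ∨ i = j + 1 ∨ (i = 0 ∧ j + 1 = n) ∨ (j = 0 ∧ i + 1 = n))) := by
    intro i j hi hj
    rcases lt_trichotomy i j with hlt | heq | hgt
    · rw [h.2 i j hlt hj]; omega
    · subst heq
      simp only [SimpleGraph.irrefl, false_iff]; omega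
    · rw [G.adj_comm, h.2 j i hgt hi]; omega
  refine ⟨?_, ?_⟩
  · intro i j hi hj hij
    simp only at hij
    split_ifs at hij with h1 h2 h2
    · have := h.1 _ _ h1 h2 hij; omega
    · have := h.1 _ _ h1 (by omega) hij; omega
    · have := h.1 _ _ (by omega) h2 hij; omega
    · have := h.1 _ _ (by omega) (by omega) hij; omega
  · intro i j hij hj
    simp only
    split_ifs with h1 h2 h2
    · rw [adjc _ _ h1 h2]; omega
    · rw [adjc _ _ h1 (by omega)]; omega
    · omega
    · rw [adjc _ _ (by omega) (by omega)]; omega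

lemma IndPath.reverse {G : SimpleGraph V} {p : ℕ → V} {k : ℕ} (h : IndPath G p k) :
    IndPath G (fun m => p (k - m)) k := by
  refine ⟨?_, ?_⟩
  · intro i j hi hj hij
    have := h.1 (k - i) (k - j) (by omega) (by omega) hij
    omega
  · intro i j hij hj
    simp only
    rw [G.adj_comm, h.2 (k - j) (k - i) (by omega) (by omega)]
    omega

/-- a path from `a` to `b` with interior in `X` -/
def PathIn (G : SimpleGraph V) (X : Set V) (a b : V) (p : ℕ → V) (k : ℕ) : Prop :=
  p 0 = a ∧ p k = b ∧ (∀ i, i < k → G.Adj (p i) (p (i + 1))) ∧ ∀ i, 0 < i → i < k → p i ∈ X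

lemma shortest {G : SimpleGraph V} {X : Set V} {a b : V}
    (hex : ∃ k p, PathIn G X a b p k) : ∃ k p, PathIn G X a b p k ∧ IndPath G p k := by
  classical
  obtain ⟨p, hp⟩ := Nat.find_spec hex
  set k := Nat.find hex with hk
  have hmin : ∀ m, m < k → ∀ q, ¬ PathIn G X a b q m := by
    intro m hm q hq
    exact Nat.find_min hex hm ⟨q, hq⟩
  refine ⟨k, p, hp, ?_, ?_⟩
  · intro i j hi hj hij
    by_contra hne
    -- wlog i < j
    have main : ∀ i j, i < j → j ≤ k → p i = p j → False := by
      intro i j hlt hj hij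
      refine hmin (k - (j - i)) (by omega) (fun m => if m ≤ i then p m else p (m + (j - i))) ?_
      refine ⟨?_, ?_, ?_, ?_⟩
      · simp [hp.1]
      · by_cases h1 : k - (j - i) ≤ i
        · have h2 : k = j := by omega
          have h3 : k - (j - i) = i := by omega
          simp only [h3, le_refl, if_true]
          rw [hij, ← h2]; exact hp.2.1
        · simp only [h1, if_false]
          rw [show k - (j - i) + (j - i) = k by omega]; exact hp.2.1
      · intro m hm
        by_cases h1 : m + 1 ≤ i
        · simp only [h1, if_true, show m ≤ i by omega]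
          exact hp.2.2.1 m (by omega)
        · by_cases h2 : m ≤ i
          · have h3 : m = i := by omega
            subst h3
            simp only [le_refl, if_true, h1, if_false]
            rw [hij, show m + 1 + (j - m) = j + 1 by omega]
            exact hp.2.2.1 j (by omega)
          · simp only [h1, h2, if_false]
            rw [show m + 1 + (j - i) = m + (j - i) + 1 by omega]
            exact hp.2.2.1 _ (by omega)
      · intro m hm0 hm
        by_cases h1 : m ≤ i
        · simp only [h1, if_true]; exact hp.2.2.2 m hm0 (by omega)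
        · simp only [h1, if_false]; exact hp.2.2.2 _ (by omega) (by omega)
    rcases Nat.lt_or_gt_of_ne hne with h | h
    · exact main i j h hj hij
    · exact main j i h hi hij.symm
  · intro i j hij hj
    constructor
    · intro hadj
      by_contra hne
      refine hmin (k - (j - i - 1)) (by omega)
        (fun m => if m ≤ i then p m else p (m + (j - i - 1))) ?_
      refine ⟨?_, ?_, ?_, ?_⟩
      · simp [hp.1]
      · have h1 : ¬ (k - (j - i - 1) ≤ i) := by omega
        simp only [h1, if_false]
        rw [show k - (j - i - 1) + (j - i - 1) = k by omega]; exact hp.2.1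
      · intro m hm
        by_cases h1 : m + 1 ≤ i
        · simp only [h1, if_true, show m ≤ i by omega]
          exact hp.2.2.1 m (by omega)
        · by_cases h2 : m ≤ i
          · have h3 : m = i := by omega
            subst h3
            simp only [le_refl, if_true, h1, if_false]
            rw [show m + 1 + (j - m - 1) = j by omega]
            exact hadj
          · simp only [h1, h2, if_false]
            rw [show m + 1 + (j - i - 1) = m + (j - i - 1) + 1 by omega]
            exact hp.2.2.1 _ (by omega)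
      · intro m hm0 hm
        by_cases h1 : m ≤ i
        · simp only [h1, if_true]; exact hp.2.2.2 m hm0 (by omega)
        · simp only [h1, if_false]; exact hp.2.2.2 _ (by omega) (by omega)
    · intro h
      subst h
      exact hp.2.2.1 i (by omega)

/-- Two anticomplete sets, each joining the nonadjacent vertices `a`, `b`: in a graph without
holes of length at least five, `a` and `b` have a common neighbour in the second set. -/
lemma common_nbr {G : SimpleGraph V} (hG : NoHole G) {a b : V} (hab : a ≠ b)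
    (hnadj : ¬ G.Adj a b) {X Y : Set V} (hXY : ∀ u ∈ X, ∀ v ∈ Y, u ≠ v ∧ ¬ G.Adj u v)
    (haY : a ∉ Y) (hbY : b ∉ Y)
    (hX : ∃ k p, PathIn G X a b p k) (hY : ∃ k p, PathIn G Y a b p k) :
    ∃ y ∈ Y, G.Adj a y ∧ G.Adj b y := by
  obtain ⟨m, p, hp, ip⟩ := shortest hX
  obtain ⟨n, q, hq, iq⟩ := shortest hY
  obtain ⟨hp0, hpm, hpa, hpX⟩ := hp
  obtain ⟨hq0, hqn, hqa, hqY⟩ := hq
  have hm : 2 ≤ m := by
    rcases m with _ | _ | m
    · exact absurd (hp0.symm.trans hpm) hab
    · exact absurd (by have := hpa 0 (by omega); rwa [hp0, hpm] at this) hnadj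
    · omega
  have hn : 2 ≤ n := by
    rcases n with _ | _ | n
    · exact absurd (hq0.symm.trans hqn) hab
    · exact absurd (by have := hqa 0 (by omega); rwa [hq0, hqn] at this) hnadj
    · omega
  by_cases hn2 : n = 2
  · subst hn2
    refine ⟨q 1, hqY 1 (by omega) (by omega), ?_, ?_⟩
    · have := hqa 0 (by omega); rwa [hq0] at this
    · have := hqa 1 (by omega); rw [hqn] at this; exact this.symm
  exfalso
  refine hG (m + n) (by omega) (fun i => if i ≤ m then p i else q (m + n - i)) ⟨?_, ?_⟩
  · intro i j hi hj hij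
    simp only at hij
    have cross : ∀ i j, i ≤ m → m < j → j < m + n → p i = q (m + n - j) → False := by
      intro i j hi hj hjn hij
      have hy : q (m + n - j) ∈ Y := hqY _ (by omega) (by omega)
      rcases Nat.eq_zero_or_pos i with h0 | h0
      · subst h0; rw [hp0] at hij; exact haY (hij ▸ hy)
      · rcases Nat.eq_or_lt_of_le hi with h1 | h1
        · subst h1; rw [hpm] at hij; exact hbY (hij ▸ hy)
        · exact (hXY _ (hpX i h0 h1) _ hy).1 hij
    split_ifs at hij with h1 h2 h2
    · exact ip.1 _ _ h1 h2 hij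
    · exact (cross i j h1 (by omega) hj hij).elim
    · exact (cross j i h2 (by omega) hi hij.symm).elim
    · have := iq.1 _ _ (by omega) (by omega) hij; omega
  · intro i j hij hj
    simp only
    split_ifs with h1 h2 h2
    · rw [ip.2 i j hij h2]; omega
    · -- i ≤ m < j
      have hy : q (m + n - j) ∈ Y := hqY _ (by omega) (by omega)
      rcases Nat.eq_zero_or_pos i with h0 | h0
      · subst h0
        rw [hp0, ← hq0, iq.2 0 (m + n - j) (by omega) (by omega)]
        omega
      · rcases Nat.eq_or_lt_of_le h1 with h3 | h3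
        · subst h3
          rw [hpm, ← hqn, G.adj_comm, iq.2 (i + n - j) n (by omega) (by omega)]
          omega
        · constructor
          · intro h; exact ((hXY _ (hpX i h0 h3) _ hy).2 h).elim
          · intro h; omega
    · omega
    · rw [G.adj_comm, iq.2 (m + n - j) (m + n - i) (by omega) (by omega)]
      omega

/-- A chordless path together with an outside vertex seeing two far apart vertices of it and
nothing in between gives a long hole. -/
lemma no_fan {G : SimpleGraph V} (hG : NoHole G) {p : ℕ → V} {k : ℕ} (hp : IndPath G p k)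
    {w : V} (hw : ∀ i, i ≤ k → p i ≠ w) {r t : ℕ} (hrt : r + 3 ≤ t) (ht : t ≤ k)
    (h1 : G.Adj (p r) w) (h2 : G.Adj (p t) w)
    (h3 : ∀ m, r < m → m < t → ¬ G.Adj (p m) w) : False := by
  refine hG (t - r + 2) (by omega) (fun m => if m ≤ t - r then p (r + m) else w) ⟨?_, ?_⟩
  · intro i j hi hj hij
    simp only at hij
    split_ifs at hij with h4 h5 h5
    · have := hp.1 _ _ (by omega) (by omega) hij; omega
    · exact (hw _ (by omega) hij).elim
    · exact (hw _ (by omega) hij.symm).elim
    · omega
  · intro i j hij hj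
    simp only
    split_ifs with h4 h5 h5
    · rw [hp.2 _ _ (by omega) (by omega)]; omega
    · constructor
      · intro h
        by_cases hi0 : i = 0
        · right; omega
        · by_cases hi1 : i = t - r
          · left; omega
          · exact (h3 (r + i) (by omega) (by omega) h).elim
      · rintro (h | h)
        · have : r + i = t := by omega
          rw [this]; exact h2
        · have : r + i = r := by omega
          rw [this]; exact h1
    · omega
    · omega

/-- stepping inside `X` -/
def Stp (G : SimpleGraph V) (X : Set V) : V → V → Prop := fun u v => G.Adj u v ∧ v ∈ X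

/-- `X` is connected (possibly empty) -/
def ConnOn (G : SimpleGraph V) (X : Set V) : Prop :=
  ∀ a ∈ X, ∀ b ∈ X, ReflTransGen (Stp G X) a b

/-- the set reachable from `a` inside `X` -/
def reach (G : SimpleGraph V) (X : Set V) (a : V) : Set V := {w | ReflTransGen (Stp G X) a w}

lemma reach_self {G : SimpleGraph V} {X : Set V} {a : V} : a ∈ reach G X a :=
  ReflTransGen.refl

lemma reach_subset {G : SimpleGraph V} {X : Set V} {a : V} (ha : a ∈ X) : reach G X a ⊆ X := by
  intro w hw
  induction hw with
  | refl => exact ha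
  | tail _ h _ => exact h.2

lemma reach_closed {G : SimpleGraph V} {X : Set V} {a u v : V} (hu : u ∈ reach G X a)
    (hadj : G.Adj u v) (hv : v ∈ X) : v ∈ reach G X a :=
  ReflTransGen.tail hu ⟨hadj, hv⟩

lemma reach_conn {G : SimpleGraph V} {X : Set V} {a : V} : ConnOn G (reach G X a) := by
  have h1 : ∀ w, w ∈ reach G X a → ReflTransGen (Stp G (reach G X a)) a w := by
    intro w hw
    induction hw with
    | refl => exact ReflTransGen.refl
    | tail h1 h ih => exact ReflTransGen.tail ih ⟨h.1, ReflTransGen.tail h1 h⟩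
  have h2 : ∀ w, w ∈ reach G X a → ReflTransGen (Stp G (reach G X a)) w a := by
    intro w hw
    induction hw with
    | refl => exact ReflTransGen.refl
    | tail h1 h ih => exact ReflTransGen.head ⟨h.1.symm, h1⟩ ih
  intro u hu v hv
  exact (h2 u hu).trans (h1 v hv)

/-- from reachability to a path with all later vertices in `X` -/
lemma path_of_reach {G : SimpleGraph V} {X : Set V} {a b : V}
    (h : ReflTransGen (Stp G X) a b) :
    ∃ k, ∃ p : ℕ → V, p 0 = a ∧ p k = b ∧ (∀ i, i < k → G.Adj (p i) (p (i + 1))) ∧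
      ∀ i, 0 < i → i ≤ k → p i ∈ X := by
  induction h with
  | refl => exact ⟨0, fun _ => a, rfl, rfl, by omega, by omega⟩
  | @tail u v _ h ih =>
    obtain ⟨k, p, h0, hk, hadj, hX⟩ := ih
    refine ⟨k + 1, fun m => if m ≤ k then p m else v, by simp [h0], by simp, ?_, ?_⟩
    · intro i hi
      by_cases h1 : i + 1 ≤ k
      · simp only [h1, if_true, show i ≤ k by omega]; exact hadj i (by omega)
      · have : i = k := by omega
        subst this
        simp only [le_refl, if_true, h1, if_false, hk]
        exact h.1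
    · intro i hi0 hi
      by_cases h1 : i ≤ k
      · simp only [h1, if_true]; exact hX i hi0 h1
      · simp only [h1, if_false]; exact h.2

lemma path_via {G : SimpleGraph V} {X : Set V} (hX : ConnOn G X) {a b u v : V} (hu : u ∈ X)
    (hv : v ∈ X) (hau : G.Adj a u) (hbv : G.Adj b v) : ∃ k p, PathIn G X a b p k := by
  obtain ⟨k, p, h0, hk, hadj, hpX⟩ := path_of_reach (hX u hu v hv)
  refine ⟨k + 2, fun m => if m = 0 then a else if m ≤ k + 1 then p (m - 1) else b, ?_⟩
  refine ⟨by simp, by simp, ?_, ?_⟩
  · intro i hi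
    by_cases h1 : i = 0
    · subst h1; simp [h0, hau]
    · by_cases h2 : i = k + 1
      · subst h2
        simp [hk, hbv.symm]
      · simp only [h1, if_false, show i ≤ k + 1 by omega, if_true, show i + 1 ≠ 0 by omega,
          show i + 1 ≤ k + 1 by omega]
        have := hadj (i - 1) (by omega)
        rwa [show i - 1 + 1 = i + 1 - 1 by omega] at this
  · intro i hi0 hi
    simp only [show i ≠ 0 by omega, if_false, show i ≤ k + 1 by omega, if_true]
    by_cases h1 : i = 1
    · subst h1; simp only [Nat.sub_self, h0]; exact hu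
    · exact hpX _ (by omega) (by omega)

/-! ### handles and co-pairs -/

section handle

variable [DecidableEq V]

/-- pre-handle: `H` inside `W`, with witness set `J` -/
structure PreHandle (G : SimpleGraph V) (W H J : Finset V) : Prop where
  HW : H ⊆ W
  JW : J ⊆ W
  Jne : J.Nonempty
  dis : ∀ h ∈ H, ∀ j ∈ J, h ≠ j ∧ ¬ G.Adj h j
  connH : ConnOn G (H : Set V)
  edge : ∃ a ∈ H, ∃ b ∈ H, G.Adj a b
  connJ : ConnOn G (J : Set V)
  nb : ∀ v ∈ W, v ∉ H → (∃ h ∈ H, G.Adj v h) → ∃ j ∈ J, G.Adj v j

lemma exists_handle {G : SimpleGraph V} {W : Finset V} (h0 : ∃ H J, PreHandle G W H J) :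
    ∃ H J, PreHandle G W H J ∧
      ∀ v ∈ W, v ∉ H → (∃ h ∈ H, G.Adj v h) → ∀ a ∈ H, ∀ b ∈ H, G.Adj a b →
        (G.Adj v a ∨ G.Adj v b) := by
  classical
  have hex : ∃ n, ∃ H J, PreHandle G W H J ∧ H.card = n := by
    obtain ⟨H, J, h⟩ := h0
    exact ⟨_, H, J, h, rfl⟩
  obtain ⟨H, J, hP, hcard⟩ := Nat.find_spec hex
  refine ⟨H, J, hP, ?_⟩
  intro v hvW hvH hvn a ha b hb hab
  by_contra hcon
  push Not at hcon
  obtain ⟨hva, hvb⟩ := hcon
  set X : Finset V := H.filter (fun u => ¬ G.Adj v u) with hX
  have haX : a ∈ X := by simp [hX, ha, hva]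
  have hbX : b ∈ X := by simp [hX, hb, hvb]
  set H' : Finset V := X.filter (fun u => u ∈ reach G (X : Set V) a) with hH'
  have hH'eq : (H' : Set V) = reach G (X : Set V) a := by
    ext u
    simp only [hH', Finset.coe_filter, Set.mem_ofPred_eq]
    constructor
    · exact fun h => h.2
    · exact fun h => ⟨by simpa using reach_subset (by simpa using haX) h, h⟩
  have hH'X : H' ⊆ X := Finset.filter_subset _ _
  have hXH : X ⊆ H := Finset.filter_subset _ _
  have haH' : a ∈ H' := by
    rw [hH', Finset.mem_filter]; exact ⟨haX, reach_self⟩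
  have hclosed : ∀ u ∈ H', ∀ w ∈ X, G.Adj u w → w ∈ H' := by
    intro u hu w hw huw
    rw [hH', Finset.mem_filter] at hu ⊢
    exact ⟨hw, reach_closed hu.2 huw (by simpa using hw)⟩
  have hbH' : b ∈ H' := hclosed a haH' b hbX hab
  have hvH' : ∀ u ∈ H', ¬ G.Adj v u := by
    intro u hu
    have := hH'X hu
    rw [hX, Finset.mem_filter] at this
    exact this.2
  obtain ⟨j, hj, hvj⟩ := hP.nb v hvW hvH hvn
  have hpre : PreHandle G W H' (insert v J) := by
    refine ⟨hH'X.trans (hXH.trans hP.HW), ?_, ⟨v, by simp⟩, ?_, ?_, ⟨a, haH', b, hbH', hab⟩, ?_, ?_⟩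
    · intro u hu
      rcases Finset.mem_insert.mp hu with h | h
      · rw [h]; exact hvW
      · exact hP.JW h
    · intro h hh u hu
      rcases Finset.mem_insert.mp hu with h1 | h1
      · subst h1
        refine ⟨?_, fun h2 => hvH' h hh h2.symm⟩
        intro h2; subst h2; exact hvH (hXH (hH'X hh))
      · exact hP.dis h (hXH (hH'X hh)) u h1
    · rw [hH'eq]; exact reach_conn
    · -- connectivity of insert v J
      have mono : ∀ {x y}, ReflTransGen (Stp G (J : Set V)) x y →
          ReflTransGen (Stp G ((insert v J : Finset V) : Set V)) x y := by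
        intro x y hxy
        refine ReflTransGen.mono ?_ _ _ hxy
        intro p q hpq
        exact ⟨hpq.1, by simp [show q ∈ J from by simpa using hpq.2]⟩
      have e1 : ∀ u ∈ J, ReflTransGen (Stp G ((insert v J : Finset V) : Set V)) v u := by
        intro u hu
        refine ReflTransGen.head (b := j) ⟨hvj, by simp [hj]⟩ (mono (hP.connJ j (by simpa using hj) u
          (by simpa using hu)))
      have e2 : ∀ u ∈ J, ReflTransGen (Stp G ((insert v J : Finset V) : Set V)) u v := by
        intro u hu
        refine ReflTransGen.tail (b := j) (mono (hP.connJ u (by simpa using hu) j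
          (by simpa using hj))) ⟨hvj.symm, by simp⟩
      intro x hx y hy
      have hx' : x = v ∨ x ∈ J := by simpa using hx
      have hy' : y = v ∨ y ∈ J := by simpa using hy
      rcases hx' with hx' | hx' <;> rcases hy' with hy' | hy'
      · rw [hx', hy']
      · rw [hx']; exact e1 y hy'
      · rw [hy']; exact e2 x hx'
      · exact mono (hP.connJ x (by simpa using hx') y (by simpa using hy'))
    · intro u huW huH' ⟨h, hh, huh⟩
      by_cases huH : u ∈ H
      · by_cases huX : u ∈ X
        · exact (huH' (hclosed h hh u huX huh.symm)).elim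
        · have : G.Adj v u := by
            by_contra hcon
            exact huX (by simp [hX, huH, hcon])
          exact ⟨v, by simp, this.symm⟩
      · obtain ⟨j', hj', huj'⟩ := hP.nb u huW huH ⟨h, hXH (hH'X hh), huh⟩
        exact ⟨j', by simp [hj'], huj'⟩
  have hlt : H'.card < Nat.find hex := by
    rw [← hcard]
    apply Finset.card_lt_card
    refine ⟨hH'X.trans hXH, ?_⟩
    intro hsub
    obtain ⟨h, hh, hvh⟩ := hvn
    exact hvH' h (hsub hh) hvh
  exact Nat.find_min hex hlt ⟨H', insert v J, hpre, rfl⟩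

/-- `x y` is an edge of `G` inside `W` such that no chordless path of the complement inside `W`
of length at least three joins `x` to `y`. -/
def CoPair (G : SimpleGraph V) (W : Finset V) (x y : V) : Prop :=
  x ∈ W ∧ y ∈ W ∧ G.Adj x y ∧
    ∀ p k, 3 ≤ k → IndPath Gᶜ p k → (∀ i, i ≤ k → p i ∈ W) → p 0 = x → p k = y → False

lemma copair_lift {G : SimpleGraph V} (h1 : NoHole G) (h2 : NoHole Gᶜ) {W H J : Finset V}
    (hP : PreHandle G W H J)
    (hH : ∀ v ∈ W, v ∉ H → (∃ h ∈ H, G.Adj v h) → ∀ a ∈ H, ∀ b ∈ H, G.Adj a b →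
        (G.Adj v a ∨ G.Adj v b)) {x y : V} (hxy : CoPair G H x y) : CoPair G W x y := by
  classical
  obtain ⟨hx, hy, hadj, hno⟩ := hxy
  refine ⟨hP.HW hx, hP.HW hy, hadj, ?_⟩
  intro p k hk hp hpW hp0 hpk
  by_cases hall : ∀ i, i ≤ k → p i ∈ H
  · exact hno p k hk hp hall hp0 hpk
  push Not at hall
  have hex : ∃ i, i ≤ k ∧ p i ∉ H := hall
  obtain ⟨hik, hiH⟩ := Nat.find_spec hex
  set i := Nat.find hex with hi
  have hmin : ∀ m, m < i → p m ∈ H := by
    intro m hm
    by_contra hcon
    exact Nat.find_min hex hm ⟨by omega, hcon⟩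
  have hi0 : 0 < i := by
    rcases Nat.eq_zero_or_pos i with h | h
    · rw [h, hp0] at hiH; exact (hiH hx).elim
    · exact h
  have hik' : i < k := by
    rcases Nat.eq_or_lt_of_le hik with h | h
    · rw [h, hpk] at hiH; exact (hiH hy).elim
    · exact h
  -- adjacency in G of far apart path vertices
  have far : ∀ s t, s < t → t ≤ k → t ≠ s + 1 → G.Adj (p s) (p t) := by
    intro s t hst ht hne
    by_contra hcon
    have : Gᶜ.Adj (p s) (p t) := by
      rw [SimpleGraph.compl_adj]
      refine ⟨fun h => ?_, hcon⟩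
      have := hp.1 s t (by omega) ht h
      omega
    exact hne ((hp.2 s t hst ht).mp this)
  have near : ∀ s, s + 1 ≤ k → ¬ G.Adj (p s) (p (s + 1)) := by
    intro s hs
    have := (hp.2 s (s + 1) (by omega) hs).mpr rfl
    rw [SimpleGraph.compl_adj] at this
    exact this.2
  have nbH : ∀ m, 0 < m → m < k → ∃ h ∈ H, G.Adj (p m) h := by
    intro m hm0 hmk
    by_cases hm1 : m = 1
    · refine ⟨p k, by rw [hpk]; exact hy, far m k hmk le_rfl (by omega)⟩
    · refine ⟨p 0, by rw [hp0]; exact hx, (far 0 m hm0 (by omega) (by omega)).symm⟩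
  have hi1H : p (i + 1) ∉ H := by
    intro hcon
    have := hH (p i) (hpW i hik) hiH (nbH i hi0 hik') (p (i - 1)) (hmin _ (by omega)) (p (i + 1)) hcon
      (far (i - 1) (i + 1) (by omega) (by omega) (by omega))
    rcases this with h | h
    · have := near (i - 1) (by omega)
      rw [show i - 1 + 1 = i by omega] at this
      exact this h.symm
    · exact near i (by omega) h
  have hi1k : i + 1 < k := by
    rcases Nat.eq_or_lt_of_le (show i + 1 ≤ k by omega) with h | h
    · rw [h, hpk] at hi1H; exact (hi1H hy).elim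
    · exact h
  obtain ⟨ha, hha, haa⟩ := nbH i hi0 hik'
  obtain ⟨hb, hhb, hbb⟩ := nbH (i + 1) (by omega) hi1k
  obtain ⟨ja, hja, haj⟩ := hP.nb (p i) (hpW i hik) hiH ⟨ha, hha, haa⟩
  obtain ⟨jb, hjb, hbj⟩ := hP.nb (p (i + 1)) (hpW _ (by omega)) hi1H ⟨hb, hhb, hbb⟩
  have notJ : ∀ m, m ≤ k → p m ∉ J := by
    intro m hm hcon
    rcases Nat.eq_zero_or_pos m with h | h
    · subst h; exact (hP.dis (p 0) (by rw [hp0]; exact hx) _ hcon).1 rfl
    · rcases Nat.eq_or_lt_of_le hm with h' | h'
      · subst h'; exact (hP.dis (p m) (by rw [hpk]; exact hy) _ hcon).1 rfl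
      · obtain ⟨h3, hh3, hadj3⟩ := nbH m h h'
        exact (hP.dis h3 hh3 _ hcon).2 hadj3.symm
  obtain ⟨j, hj, hj1, hj2⟩ := common_nbr h1 (a := p i) (b := p (i + 1))
    (fun h => by have := hp.1 i (i + 1) (by omega) (by omega) h; omega)
    (near i (by omega)) (X := (H : Set V)) (Y := (J : Set V))
    (fun u hu v hv => hP.dis u (by simpa using hu) v (by simpa using hv))
    (by simpa using notJ i hik) (by simpa using notJ (i + 1) (by omega))
    (path_via hP.connH (by simpa using hha) (by simpa using hhb) haa hbb)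
    (path_via hP.connJ (by simpa using hja) (by simpa using hjb) haj hbj)
  have hj' : j ∈ J := by simpa using hj
  have cH : ∀ m, p m ∈ H → Gᶜ.Adj (p m) j := by
    intro m hm
    rw [SimpleGraph.compl_adj]
    exact hP.dis _ hm _ hj'
  have hex2 : ∃ t, i + 1 < t ∧ t ≤ k ∧ Gᶜ.Adj (p t) j :=
    ⟨k, hi1k, le_rfl, cH k (by rw [hpk]; exact hy)⟩
  obtain ⟨ht1, ht2, ht3⟩ := Nat.find_spec hex2
  set t := Nat.find hex2 with htdef
  refine no_fan h2 hp (w := j) (fun m hm h => notJ m hm (h ▸ hj')) (r := i - 1) (t := t)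
    (by omega) ht2 (cH _ (hmin _ (by omega))) ht3 ?_
  intro m hm1 hm2 hcon
  have hmi : m = i ∨ m = i + 1 ∨ i + 1 < m := by omega
  rcases hmi with h | h | h
  · rw [h, SimpleGraph.compl_adj] at hcon; exact hcon.2 hj1
  · rw [h, SimpleGraph.compl_adj] at hcon; exact hcon.2 hj2
  · exact Nat.find_min hex2 hm2 ⟨h, by omega, hcon⟩

lemma exists_copair {G : SimpleGraph V} (h1 : NoHole G) (h2 : NoHole Gᶜ) :
    ∀ (n : ℕ) (W : Finset V), W.card = n → (∃ a ∈ W, ∃ b ∈ W, G.Adj a b) →
      ∃ x y, CoPair G W x y := by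
  classical
  intro n
  induction n using Nat.strong_induction_on with
  | _ n ih =>
  intro W hW ⟨a, ha, b, hb, hab⟩
  by_cases hj : ∃ j ∈ W, ∃ a ∈ W, ∃ b ∈ W, G.Adj a b ∧ j ≠ a ∧ j ≠ b ∧ ¬ G.Adj j a ∧ ¬ G.Adj j b
  · obtain ⟨j, hj, a, ha, b, hb, hab, hja, hjb, hja', hjb'⟩ := hj
    set X : Finset V := W.filter (fun u => u ≠ j ∧ ¬ G.Adj j u) with hX
    have haX : a ∈ X := by simp [hX, ha, hja', hja.symm]
    have hbX : b ∈ X := by simp [hX, hb, hjb', hjb.symm]
    have hXW : X ⊆ W := Finset.filter_subset _ _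
    set H : Finset V := X.filter (fun u => u ∈ reach G (X : Set V) a) with hH
    have hHX : H ⊆ X := Finset.filter_subset _ _
    have hHeq : (H : Set V) = reach G (X : Set V) a := by
      ext u
      simp only [hH, Finset.coe_filter, Set.mem_ofPred_eq]
      constructor
      · exact fun h => h.2
      · exact fun h => ⟨by simpa using reach_subset (by simpa using haX) h, h⟩
    have haH : a ∈ H := by
      rw [hH, Finset.mem_filter]; exact ⟨haX, reach_self⟩
    have hclosed : ∀ u ∈ H, ∀ w ∈ X, G.Adj u w → w ∈ H := by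
      intro u hu w hw huw
      rw [hH, Finset.mem_filter] at hu ⊢
      exact ⟨hw, reach_closed hu.2 huw (by simpa using hw)⟩
    have hpre : PreHandle G W H {j} := by
      refine ⟨hHX.trans hXW, by simpa using hj, ⟨j, by simp⟩, ?_, ?_,
        ⟨a, haH, b, hclosed a haH b hbX hab, hab⟩, ?_, ?_⟩
      · intro h hh u hu
        have hu' : u = j := by simpa using hu
        subst hu'
        have := hHX hh
        rw [hX, Finset.mem_filter] at this
        exact ⟨this.2.1, fun h3 => this.2.2 h3.symm⟩
      · rw [hHeq]; exact reach_conn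
      · intro x hx y hy
        have hx' : x = j := by simpa using hx
        have hy' : y = j := by simpa using hy
        rw [hx', hy']
      · intro v hv hvH ⟨h, hh, hvh⟩
        refine ⟨j, by simp, ?_⟩
        by_contra hcon
        have hvj : v ≠ j := by
          intro h3; subst h3
          have := hHX hh
          rw [hX, Finset.mem_filter] at this
          exact this.2.2 hvh
        exact hvH (hclosed h hh v (by simp [hX, hv, hvj]; exact fun h3 => hcon h3.symm) hvh.symm)
    obtain ⟨H', J', hP', hh'⟩ := exists_handle ⟨H, {j}, hpre⟩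
    have hlt : H'.card < n := by
      rw [← hW]
      apply Finset.card_lt_card
      refine ⟨hP'.HW, fun hsub => ?_⟩
      obtain ⟨j', hj'⟩ := hP'.Jne
      exact (hP'.dis j' (hsub (hP'.JW hj')) j' hj').1 rfl
    obtain ⟨x, y, hxy⟩ := ih _ hlt H' rfl hP'.edge
    exact ⟨x, y, copair_lift h1 h2 hP' hh' hxy⟩
  · refine ⟨a, b, ha, hb, hab, ?_⟩
    intro p k hk hp hpW hp0 hpk
    push Not at hj
    have far : ∀ s t, s < t → t ≤ k → t ≠ s + 1 → G.Adj (p s) (p t) := by
      intro s t hst ht hne
      by_contra hcon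
      have : Gᶜ.Adj (p s) (p t) := by
        rw [SimpleGraph.compl_adj]
        refine ⟨fun h => ?_, hcon⟩
        have := hp.1 s t (by omega) ht h
        omega
      exact hne ((hp.2 s t hst ht).mp this)
    have near : ∀ s, s + 1 ≤ k → Gᶜ.Adj (p s) (p (s + 1)) := by
      intro s hs
      exact (hp.2 s (s + 1) (by omega) hs).mpr rfl
    have n0 := near 0 (by omega)
    have n1 := near 1 (by omega)
    rw [SimpleGraph.compl_adj] at n0 n1
    exact n1.2 (hj (p 1) (hpW 1 (by omega)) (p 0) (hpW 0 (by omega)) (p 2) (hpW 2 (by omega))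
      (far 0 2 (by omega) (by omega) (by omega)) n0.1.symm n1.1 (fun h => n0.2 h.symm))

end handle

/-! ### two-pairs -/

/-- weakly chordal, in terms of chordless cycles given as sequences -/
def WC (G : SimpleGraph V) : Prop := NoHole G ∧ NoHole Gᶜ

/-- nonadjacent vertices not joined by a chordless path of length at least three -/
def TwoPair (G : SimpleGraph V) (x y : V) : Prop :=
  x ≠ y ∧ ¬ G.Adj x y ∧ ∀ p k, 3 ≤ k → IndPath G p k → p 0 = x → p k = y → False

lemma TwoPair.symm {G : SimpleGraph V} {x y : V} (h : TwoPair G x y) : TwoPair G y x := by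
  refine ⟨h.1.symm, fun h' => h.2.1 h'.symm, ?_⟩
  intro p k hk hp hp0 hpk
  exact h.2.2 _ k hk hp.reverse (by simpa using hpk) (by simpa using hp0)

lemma exists_twoPair [Fintype V] {G : SimpleGraph V} (hG : WC G) (hne : G ≠ ⊤) :
    ∃ x y, TwoPair G x y := by
  classical
  have h2 : NoHole Gᶜᶜ := by rw [compl_compl]; exact hG.1
  have hex : ∃ a ∈ (Finset.univ : Finset V), ∃ b ∈ (Finset.univ : Finset V), Gᶜ.Adj a b := by
    by_contra hcon
    push Not at hcon
    apply hne
    ext a b
    rw [SimpleGraph.top_adj]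
    constructor
    · exact fun h => h.ne
    · intro h
      by_contra h3
      exact hcon a (by simp) b (by simp) (by rw [SimpleGraph.compl_adj]; exact ⟨h, h3⟩)
  obtain ⟨x, y, -, -, hadj, hno⟩ := exists_copair hG.2 h2 _ Finset.univ rfl hex
  rw [SimpleGraph.compl_adj] at hadj
  rw [compl_compl] at hno
  exact ⟨x, y, hadj.1, hadj.2, fun p k hk hp h0 hk' => hno p k hk hp (by simp) h0 hk'⟩

/-- The common neighbours of a two-pair separate it. -/
lemma TwoPair.separates {G : SimpleGraph V} {x y : V} (h : TwoPair G x y) :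
    ∃ A : Set V, x ∈ A ∧ y ∉ A ∧ (∀ v ∈ A, ¬ (G.Adj x v ∧ G.Adj y v)) ∧
      ∀ v ∈ A, ∀ w, G.Adj v w → (w ∈ A ∨ (G.Adj x w ∧ G.Adj y w)) := by
  classical
  set X : Set V := {w | ¬ (G.Adj x w ∧ G.Adj y w)} with hX
  have hxX : x ∈ X := by simp [hX]
  refine ⟨reach G X x, reach_self, ?_, ?_, ?_⟩
  · intro hy
    obtain ⟨k, p, hp0, hpk, hadj, hpX⟩ := path_of_reach hy
    obtain ⟨k, p, ⟨hp0, hpk, hadj, hpX⟩, hind⟩ := shortest (X := X) (a := x) (b := y)
      ⟨k, p, hp0, hpk, hadj, fun i h1 h2 => hpX i h1 h2.le⟩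
    rcases k with _ | _ | _ | k
    · exact h.1 (hp0.symm.trans hpk)
    · exact h.2.1 (by have := hadj 0 (by omega); rwa [hp0, hpk] at this)
    · have h1 := hadj 0 (by omega)
      have h2 := hadj 1 (by omega)
      rw [hp0] at h1
      have h3 : G.Adj (p 1) y := by rw [← hpk]; exact h2
      exact hpX 1 (by omega) (by omega) ⟨h1, h3.symm⟩
    · exact h.2.2 p _ (by omega) hind hp0 hpk
  · intro v hv
    exact reach_subset hxX hv
  · intro v hv w hvw
    by_cases hw : w ∈ X
    · exact Or.inl (reach_closed hv hvw hw)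
    · right
      simpa [hX] using hw

lemma indPath3 {G : SimpleGraph V} {a b c d : V} (hab : G.Adj a b) (hbc : G.Adj b c)
    (hcd : G.Adj c d) (hac : ¬ G.Adj a c) (had : ¬ G.Adj a d) (hbd : ¬ G.Adj b d)
    (hne : a ≠ c) (hne' : b ≠ d) (hne'' : a ≠ d) :
    IndPath G (fun m => if m = 0 then a else if m = 1 then b else if m = 2 then c else d) 3 := by
  refine ⟨?_, ?_⟩
  · intro i j hi hj
    have := hab.ne; have := hbc.ne; have := hcd.ne
    interval_cases i <;> interval_cases j <;> simp_all [eq_comm]
  · intro i j hij hj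
    interval_cases j <;> interval_cases i <;> simp_all

lemma add_adj {G : SimpleGraph V} {x y : V} (hxy : x ≠ y) (u v : V) :
    (G ⊔ SimpleGraph.edge x y).Adj u v ↔ (G.Adj u v ∨ (u = x ∧ v = y) ∨ (u = y ∧ v = x)) := by
  rw [SimpleGraph.sup_adj, SimpleGraph.edge_adj]
  constructor
  · rintro (h | ⟨⟨h1, h2⟩ | ⟨h1, h2⟩, h3⟩)
    · exact Or.inl h
    · exact Or.inr (Or.inl ⟨by simp_all, by simp_all⟩)
    · exact Or.inr (Or.inr ⟨by simp_all, by simp_all⟩)
  · rintro (h | ⟨h1, h2⟩ | ⟨h1, h2⟩)
    · exact Or.inl h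
    · subst h1; subst h2; exact Or.inr ⟨by simp, hxy⟩
    · subst h1; subst h2; exact Or.inr ⟨by simp, hxy.symm⟩

lemma noHole_add_aux {G : SimpleGraph V} {x y : V} (h : TwoPair G x y) {c : ℕ → V} {n : ℕ}
    (hn : 5 ≤ n) (hc : IndCycle (G ⊔ SimpleGraph.edge x y) c n) (h0 : c 0 = x)
    (h1 : c (n - 1) = y) : False := by
  refine h.2.2 c (n - 1) (by omega) ⟨?_, ?_⟩ h0 h1
  · intro i j hi hj hij
    exact hc.1 i j (by omega) (by omega) hij
  · intro i j hij hj
    have key := hc.2 i j hij (by omega)
    rw [add_adj h.1] at key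
    constructor
    · intro hadj
      rcases key.mp (Or.inl hadj) with h2 | h2
      · exact h2
      · exfalso
        have hj' : j = n - 1 := by omega
        rw [h2.1, hj', h0, h1] at hadj
        exact h.2.1 hadj
    · intro h2
      rcases key.mpr (Or.inl h2) with h3 | h3 | h3
      · exact h3
      · exfalso
        have e1 := hc.1 i 0 (by omega) (by omega) (h3.1.trans h0.symm)
        have e2 := hc.1 j (n - 1) (by omega) (by omega) (h3.2.trans h1.symm)
        omega
      · exfalso
        have e1 := hc.1 i (n - 1) (by omega) (by omega) (h3.1.trans h1.symm)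
        omega

lemma noHole_add {G : SimpleGraph V} {x y : V} (hG : NoHole G) (h : TwoPair G x y) :
    NoHole (G ⊔ SimpleGraph.edge x y) := by
  intro n hn c hc
  by_cases hboth : (∃ i, i < n ∧ c i = x) ∧ (∃ j, j < n ∧ c j = y)
  · obtain ⟨⟨i, hi, hix⟩, j, hj, hjy⟩ := hboth
    -- rotate so that x comes first
    have key : ∀ (x y : V) (c : ℕ → V), TwoPair G x y →
        IndCycle (G ⊔ SimpleGraph.edge x y) c n → c 0 = x → (∃ j, j < n ∧ c j = y) → False := by
      intro x y c h hc h0 ⟨j, hj, hjy⟩
      have hj0 : 0 < j := by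
        rcases Nat.eq_zero_or_pos j with h1 | h1
        · rw [h1, h0] at hjy; exact (h.1 hjy).elim
        · exact h1
      have := hc.2 0 j hj0 hj
      rw [add_adj h.1, h0, hjy] at this
      rcases this.mp (Or.inr (Or.inl ⟨rfl, rfl⟩)) with h1 | h1
      · have hr := hc.rotate (by omega) (r := 1) (by omega)
        rw [SimpleGraph.edge_comm] at hr
        refine noHole_add_aux h.symm hn hr ?_ ?_
        · have : 0 + 1 < n := by omega
          simp only [this, if_true]
          rw [show 0 + 1 = j by omega]; exact hjy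
        · have : ¬ (n - 1 + 1 < n) := by omega
          simp only [this, if_false]
          rw [show n - 1 + 1 - n = 0 by omega]; exact h0
      · exact noHole_add_aux h hn hc h0 (by rw [show n - 1 = j by omega]; exact hjy)
    have hr := hc.rotate (by omega) hi
    refine key x y _ h hr (by simp [hi, hix]) ?_
    by_cases hji : i ≤ j
    · refine ⟨j - i, by omega, ?_⟩
      simp only [show j - i + i < n by omega, if_true]
      rw [show j - i + i = j by omega]; exact hjy
    · refine ⟨n + j - i, by omega, ?_⟩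
      simp only [show ¬ (n + j - i + i < n) by omega, if_false]
      rw [show n + j - i + i - n = j by omega]; exact hjy
  · refine hG n hn c ⟨hc.1, ?_⟩
    intro i j hij hj
    rw [← hc.2 i j hij hj, add_adj h.1]
    constructor
    · exact fun h => Or.inl h
    · rintro (h1 | ⟨h1, h2⟩ | ⟨h1, h2⟩)
      · exact h1
      · exact (hboth ⟨⟨i, by omega, h1⟩, j, hj, h2⟩).elim
      · exact (hboth ⟨⟨j, hj, h2⟩, i, by omega, h1⟩).elim

lemma noHole_add_compl {G : SimpleGraph V} {x y : V} (hG : NoHole Gᶜ) (h : TwoPair G x y) :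
    NoHole (G ⊔ SimpleGraph.edge x y)ᶜ := by
  intro n hn c hc
  by_cases hboth : (∃ i, i < n ∧ c i = x) ∧ (∃ j, j < n ∧ c j = y)
  · obtain ⟨⟨i, hi, hix⟩, j, hj, hjy⟩ := hboth
    have key : ∀ (c : ℕ → V),
        IndCycle (G ⊔ SimpleGraph.edge x y)ᶜ c n → c 0 = x → (∃ j, j < n ∧ c j = y) → False := by
      intro c hc h0 ⟨d, hd, hdy⟩
      have hd0 : 0 < d := by
        rcases Nat.eq_zero_or_pos d with h1 | h1
        · rw [h1, h0] at hdy; exact (h.1 hdy).elim
        · exact h1
      have hadj : ∀ i j, i < j → j < n → (G.Adj (c i) (c j) ↔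
          (¬ (j = i + 1 ∨ (i = 0 ∧ j + 1 = n)) ∧ ¬ (i = 0 ∧ j = d))) := by
        intro i j hij hj
        have h1 := hc.2 i j hij hj
        rw [SimpleGraph.compl_adj, add_adj h.1] at h1
        have hne : c i ≠ c j := fun h2 => by
          have := hc.1 i j (by omega) hj h2; omega
        have h2 : (c i = x ∧ c j = y) ↔ (i = 0 ∧ j = d) := by
          constructor
          · rintro ⟨h3, h4⟩
            exact ⟨hc.1 i 0 (by omega) (by omega) (h3.trans h0.symm),
              hc.1 j d hj hd (h4.trans hdy.symm)⟩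
          · rintro ⟨h3, h4⟩
            subst h3; subst h4; exact ⟨h0, hdy⟩
        have h3 : ¬ (c i = y ∧ c j = x) := by
          rintro ⟨h4, h5⟩
          have := hc.1 j 0 hj (by omega) (h5.trans h0.symm)
          omega
        have h4 : ¬ G.Adj x y := h.2.1
        constructor
        · intro h5
          refine ⟨?_, ?_⟩
          · intro h6
            exact (h1.mpr h6).2 (Or.inl h5)
          · intro h6
            obtain ⟨h7, h8⟩ := h2.mpr h6
            rw [h7, h8] at h5
            exact h4 h5
        · rintro ⟨h5, h6⟩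
          by_contra h7
          apply h5
          apply h1.mp
          refine ⟨hne, ?_⟩
          rintro (h8 | h8 | h8)
          · exact h7 h8
          · exact h6 (h2.mp h8)
          · exact h3 h8
      have hd1 : d ≠ 1 ∧ d + 1 ≠ n := by
        have h1 := hc.2 0 d hd0 hd
        rw [SimpleGraph.compl_adj, add_adj h.1, h0, hdy] at h1
        constructor
        · intro h2
          exact (h1.mpr (Or.inl (by omega))).2 (Or.inr (Or.inl ⟨rfl, rfl⟩))
        · intro h2
          exact (h1.mpr (Or.inr ⟨rfl, h2⟩)).2 (Or.inr (Or.inl ⟨rfl, rfl⟩))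
      have hnec : ∀ i j, i < n → j < n → i ≠ j → c i ≠ c j :=
        fun i j hi hj hij h2 => hij (hc.1 i j hi hj h2)
      -- a chordless path c 0, c a, c b, c d
      have p3 : ∀ a b, a < n → b < n → a ≠ 0 → b ≠ 0 → a ≠ d → b ≠ d → a ≠ b →
          G.Adj (c 0) (c a) → G.Adj (c a) (c b) → G.Adj (c b) (c d) → ¬ G.Adj (c 0) (c b) →
          ¬ G.Adj (c a) (c d) → False := by
        intro a b ha hb ha0 hb0 had hbd hab e1 e2 e3 e4 e5
        refine h.2.2 _ 3 le_rfl (indPath3 e1 e2 e3 e4 ?_ e5 (hnec _ _ (by omega) hb (by omega))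
          (hnec _ _ ha hd had) (hnec _ _ (by omega) hd (by omega))) (by simp [h0]) (by simp [hdy])
        rw [h0, hdy]; exact h.2.1
      have hadj' : ∀ i j, i < n → j < n → i ≠ j → (G.Adj (c i) (c j) ↔
          (¬ (j = i + 1 ∨ i = j + 1 ∨ (i = 0 ∧ j + 1 = n) ∨ (j = 0 ∧ i + 1 = n)) ∧
            ¬ (i = 0 ∧ j = d) ∧ ¬ (j = 0 ∧ i = d))) := by
        intro i j hi hj hij
        rcases Nat.lt_or_gt_of_ne hij with h1 | h1
        · rw [hadj i j h1 hj]; omega
        · rw [G.adj_comm, hadj j i h1 hi]; omega
      by_cases hd3 : 3 ≤ d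
      · by_cases hdn : d + 3 ≤ n
        · -- generic case
          refine p3 (d + 1) 1 (by omega) (by omega) (by omega) (by omega) (by omega) (by omega)
            (by omega) ?_ ?_ ?_ ?_ ?_
          · rw [hadj' _ _ (by omega) (by omega) (by omega)]; omega
          · rw [hadj' _ _ (by omega) (by omega) (by omega)]; omega
          · rw [hadj' _ _ (by omega) (by omega) (by omega)]; omega
          · rw [hadj' _ _ (by omega) (by omega) (by omega)]; omega
          · rw [hadj' _ _ (by omega) (by omega) (by omega)]; omega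
        · -- d = n - 2
          by_cases hn5 : n = 5
          · have hd3' : d = 3 := by omega
            subst hn5; subst hd3'
            refine h.2.2 (fun m => if m = 0 then c 0 else if m = 1 then c 2 else if m = 2 then c 4
              else if m = 3 then c 1 else c 3) 4 (by omega) ⟨?_, ?_⟩ (by simp [h0]) (by simp [hdy])
            · intro i j hi hj
              interval_cases i <;> interval_cases j <;> simp <;>
                (intro h9; exact absurd (hc.1 _ _ (by omega) (by omega) h9) (by omega))
            · intro i j hij hj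
              interval_cases j <;> interval_cases i <;> simp <;>
                (rw [hadj' _ _ (by omega) (by omega) (by omega)]; omega)
          · refine p3 (n - 3) 1 (by omega) (by omega) (by omega) (by omega) (by omega) (by omega)
              (by omega) ?_ ?_ ?_ ?_ ?_
            · rw [hadj' _ _ (by omega) (by omega) (by omega)]; omega
            · rw [hadj' _ _ (by omega) (by omega) (by omega)]; omega
            · rw [hadj' _ _ (by omega) (by omega) (by omega)]; omega
            · rw [hadj' _ _ (by omega) (by omega) (by omega)]; omega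
            · rw [hadj' _ _ (by omega) (by omega) (by omega)]; omega
      · have hd2 : d = 2 := by omega
        by_cases hn5 : n = 5
        · subst hn5; subst hd2
          refine h.2.2 (fun m => if m = 0 then c 0 else if m = 1 then c 3 else if m = 2 then c 1
              else if m = 3 then c 4 else c 2) 4 (by omega) ⟨?_, ?_⟩ (by simp [h0]) (by simp [hdy])
          · intro i j hi hj
            interval_cases i <;> interval_cases j <;> simp <;>
              (intro h9; exact absurd (hc.1 _ _ (by omega) (by omega) h9) (by omega))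
          · intro i j hij hj
            interval_cases j <;> interval_cases i <;> simp <;>
              (rw [hadj' _ _ (by omega) (by omega) (by omega)]; omega)
        · refine p3 3 (n - 1) (by omega) (by omega) (by omega) (by omega) (by omega) (by omega)
              (by omega) ?_ ?_ ?_ ?_ ?_
          · rw [hadj' _ _ (by omega) (by omega) (by omega)]; omega
          · rw [hadj' _ _ (by omega) (by omega) (by omega)]; omega
          · rw [hadj' _ _ (by omega) (by omega) (by omega)]; omega
          · rw [hadj' _ _ (by omega) (by omega) (by omega)]; omega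
          · rw [hadj' _ _ (by omega) (by omega) (by omega)]; omega
    have hr := hc.rotate (by omega) hi
    refine key _ hr (by simp [hi, hix]) ?_
    by_cases hji : i ≤ j
    · refine ⟨j - i, by omega, ?_⟩
      simp only [show j - i + i < n by omega, if_true]
      rw [show j - i + i = j by omega]; exact hjy
    · refine ⟨n + j - i, by omega, ?_⟩
      simp only [show ¬ (n + j - i + i < n) by omega, if_false]
      rw [show n + j - i + i - n = j by omega]; exact hjy
  · refine hG n hn c ⟨hc.1, ?_⟩
    intro i j hij hj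
    rw [← hc.2 i j hij hj, SimpleGraph.compl_adj, SimpleGraph.compl_adj, add_adj h.1]
    constructor
    · rintro ⟨h1, h2⟩
      refine ⟨h1, ?_⟩
      rintro (h3 | ⟨h3, h4⟩ | ⟨h3, h4⟩)
      · exact h2 h3
      · exact (hboth ⟨⟨i, by omega, h3⟩, j, hj, h4⟩).elim
      · exact (hboth ⟨⟨j, hj, h4⟩, i, by omega, h3⟩).elim
    · rintro ⟨h1, h2⟩
      exact ⟨h1, fun h3 => h2 (Or.inl h3)⟩

lemma WC.add {G : SimpleGraph V} {x y : V} (hG : WC G) (h : TwoPair G x y) :
    WC (G ⊔ SimpleGraph.edge x y) :=
  ⟨noHole_add hG.1 h, noHole_add_compl hG.2 h⟩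

end Pool.Agent.Lib.MP_a2ed14_ag
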