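import Pool.Agent.Lib.MP_a2ed14_ag.Resol
import Pool.Agent.Lib.MP_a2ed14_ag.Graph

/-!
The complete graph, and the main induction for weakly chordal graphs.
-/

namespace Pool.Agent.Lib.MP_a2ed14_ag

open MvPolynomial

section base

variable {V : Type*} [Fintype V] [DecidableEq V] {K : Type*} [Field K]

/-- the first `i` vertices in the enumeration `e` -/
def seg {n : ℕ} (e : Fin n ≃ V) (i : Fin n) : Finset V :=
  (Finset.univ.filter (fun k : Fin n => k < i)).map e.toEmbedding

lemma mem_seg {n : ℕ} (e : Fin n ≃ V) (i k : Fin n) : e k ∈ seg e i ↔ k < i := by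
  simp [seg]

lemma card_seg {n : ℕ} (e : Fin n ≃ V) (i : Fin n) : (seg e i).card = i := by
  have : Finset.univ.filter (fun k : Fin n => k < i) = Finset.Iio i := by ext; simp
  rw [seg, Finset.card_map, this, Fin.card_Iio]

lemma Pr_compl (G : SimpleGraph V) (S : Finset V) : Pr G S Sᶜ := by
  refine ⟨fun v hv => by simpa using hv, fun v _ w _ => ?_⟩
  by_cases h : w ∈ S
  · exact Or.inr h
  · left; simpa using h

/-- the Newton basis of the splines on the complete graph -/
noncomputable def newton (K : Type*) [Field K] {n : ℕ} (e : Fin n ≃ V) (i : Fin n) :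
    V → MvPolynomial V K := theta K (seg e i) (seg e i)ᶜ

lemma newton_zero {n : ℕ} (e : Fin n ≃ V) {i k : Fin n} (h : k < i) :
    newton K e i (e k) = 0 := by
  have : e k ∉ (seg e i)ᶜ := by simp [mem_seg, h]
  simp only [newton, theta, if_neg this]

lemma newton_self {n : ℕ} (e : Fin n ≃ V) (i : Fin n) :
    newton K e i (e i) = ∏ s ∈ seg e i, (X (e i) - X s) := by
  have : e i ∈ (seg e i)ᶜ := by simp [mem_seg]
  simp only [newton, theta, if_pos this]

lemma newton_self_ne {n : ℕ} (e : Fin n ≃ V) (i : Fin n) : newton K e i (e i) ≠ 0 := by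
  rw [newton_self, Finset.prod_ne_zero_iff]
  intro s hs
  apply X_sub_X_ne
  rintro rfl
  rw [mem_seg] at hs
  exact lt_irrefl _ hs

lemma newton_span {n : ℕ} (e : Fin n ≃ V) :
    ∀ (m k : ℕ), m + k = n → ∀ f ∈ spl K (⊤ : SimpleGraph V),
      (∀ j : Fin n, (j : ℕ) < k → f (e j) = 0) →
      f ∈ Submodule.span (MvPolynomial V K) (Set.range (newton K e)) := by
  intro m
  induction m with
  | zero =>
    intro k hk f _ h0
    have : f = 0 := by
      funext v
      obtain ⟨j, rfl⟩ := e.surjective v
      exact h0 j (by have := j.2; omega)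
    rw [this]; exact Submodule.zero_mem _
  | succ m ih =>
    intro k hk f hf h0
    have hkn : k < n := by omega
    set i : Fin n := ⟨k, hkn⟩ with hi
    have h1 : (∏ s ∈ seg e i, (X (e i) - X s : MvPolynomial V K)) ∣ f (e i) := by
      apply prod_dvd
      · rw [mem_seg]; exact lt_irrefl _
      · intro s hs
        obtain ⟨j, rfl⟩ := e.surjective s
        rw [mem_seg] at hs
        have h2 := hf (e i) (e j) (by
          rw [SimpleGraph.top_adj]
          intro h3
          exact (ne_of_lt hs) (e.injective h3).symm)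
        rwa [h0 j hs, sub_zero] at h2
    obtain ⟨q, hq⟩ := h1
    have h2 : f = q • newton K e i + (f - q • newton K e i) := by abel
    rw [h2]
    apply Submodule.add_mem
    · exact Submodule.smul_mem _ _ (Submodule.subset_span ⟨i, rfl⟩)
    · apply ih (k + 1) (by omega)
      · exact Submodule.sub_mem _ hf (Submodule.smul_mem _ _ (theta_mem (Pr_compl _ _)))
      · intro j hj
        simp only [Pi.sub_apply, Pi.smul_apply, smul_eq_mul]
        rcases Nat.lt_or_ge (j : ℕ) k with h3 | h3
        · rw [h0 j h3, newton_zero e (show j < i from h3)]; simp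
        · have : j = i := Fin.ext (by simp only [hi]; omega)
          rw [this, newton_self, hq]; ring

lemma newton_indep {n : ℕ} (e : Fin n ≃ V) (c : Fin n → MvPolynomial V K)
    (h : ∑ i, c i • newton K e i = 0) : ∀ (m : ℕ) (i : Fin n), (i : ℕ) = m → c i = 0 := by
  intro m
  induction m using Nat.strong_induction_on with
  | _ m ih =>
  intro i hi
  have h1 := congrFun h (e i)
  simp only [Finset.sum_apply, Pi.smul_apply, smul_eq_mul, Pi.zero_apply] at h1
  rw [Finset.sum_eq_single_of_mem i (Finset.mem_univ i)] at h1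
  · rcases mul_eq_zero.mp h1 with h2 | h2
    · exact h2
    · exact (newton_self_ne e i h2).elim
  · intro j _ hj
    rcases lt_or_gt_of_ne hj with h2 | h2
    · rw [ih j (by have := Fin.lt_def.mp h2; omega) j rfl, zero_mul]
    · rw [newton_zero e h2, mul_zero]

/-- the span of the separation splines -/
noncomputable def tspan (K : Type*) [Field K] (G : SimpleGraph V) :
    Submodule (MvPolynomial V K) (V → MvPolynomial V K) :=
  Submodule.span _ {f | ∃ S U, Pr G S U ∧ f = theta K S U}

lemma base_case : HasRes (spl K (⊤ : SimpleGraph V))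
    (∑ k ∈ Finset.range (Fintype.card V), Polynomial.X ^ k) ∧
    spl K (⊤ : SimpleGraph V) ≤ tspan K ⊤ := by
  set n := Fintype.card V with hn
  let e : Fin n ≃ V := (Fintype.equivFin V).symm
  have hspan : Submodule.span (MvPolynomial V K) (Set.range (newton K e)) =
      spl K (⊤ : SimpleGraph V) := by
    apply le_antisymm
    · rw [Submodule.span_le]
      rintro _ ⟨i, rfl⟩
      exact theta_mem (Pr_compl _ _)
    · intro f hf
      exact newton_span e n 0 (by omega) f hf (by omega)
  constructor
  · refine ⟨n, 0, fun i => (i : ℕ), Fin.elim0, newton K e, Fin.elim0,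
      ⟨?_, fun r => r.elim0, hspan, fun r => r.elim0, ?_, fun _ _ r => r.elim0⟩, ?_⟩
    · intro i v
      have := theta_hom (K := K) (seg e i) (seg e i)ᶜ v
      rwa [card_seg] at this
    · intro c hc
      refine ⟨Fin.elim0, fun i => ?_⟩
      simp [newton_indep e c hc i i rfl]
    · simp only [gp, Finset.univ_eq_empty, Finset.sum_empty, sub_zero]
      rw [Finset.sum_range]
  · rw [← hspan, Submodule.span_le]
    rintro _ ⟨i, rfl⟩
    exact Submodule.subset_span ⟨_, _, Pr_compl _ _, rfl⟩

end base

section step

variable {V : Type*} [Fintype V] [DecidableEq V] {K : Type*} [Field K]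

lemma TwoPair.sep {G : SimpleGraph V} {x y : V} (h : TwoPair G x y) :
    ∃ S A : Finset V, Sep G x y S A := by
  classical
  obtain ⟨A, hxA, hyA, hA1, hA2⟩ := h.separates
  refine ⟨Finset.univ.filter (fun s => G.Adj x s ∧ G.Adj y s), A.toFinset, h.1, h.2.1, by simp,
    by simpa using hxA, by simpa using hyA, ?_, ?_⟩
  · intro v hv
    simpa using hA1 v (by simpa using hv)
  · intro v hv w hvw
    simpa using hA2 v (by simpa using hv) w hvw

lemma Sep.step {G : SimpleGraph V} {x y : V} {S A : Finset V} (h : Sep G x y S A)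
    {P : Polynomial ℤ} (h1 : HasRes (spl K (G ⊔ SimpleGraph.edge x y)) P)
    (h2 : spl K (G ⊔ SimpleGraph.edge x y) ≤ tspan K (G ⊔ SimpleGraph.edge x y)) :
    HasRes (spl K G) (P + (Polynomial.X ^ S.card - Polynomial.X ^ (S.card + 1))) ∧
      spl K G ≤ tspan K G := by
  have hle : spl K (G ⊔ SimpleGraph.edge x y) ≤ spl K G := fun f hf => (mem_spl_add.mp hf).1
  constructor
  · exact h1.step (θ := theta K S A) (α := X x - X y) (theta_hom S A)
      ((isHomogeneous_X K x).sub (isHomogeneous_X K y)) (X_sub_X_ne h.ne) hle (theta_mem h.pr)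
      (fun f hf => h.decomp hf) h.alpha_theta (fun q hq => h.dvd_of_smul hq)
  · intro f hf
    obtain ⟨q, hq⟩ := h.decomp hf
    have h3 : f = q • theta K S A + (f - q • theta K S A) := by abel
    rw [h3]
    apply Submodule.add_mem
    · exact Submodule.smul_mem _ _ (Submodule.subset_span ⟨_, _, h.pr, rfl⟩)
    · refine Submodule.span_mono ?_ (h2 hq)
      rintro _ ⟨T, U, hTU, rfl⟩
      refine ⟨T, U, ⟨hTU.1, fun v hv w hvw => hTU.2 v hv w ?_⟩, rfl⟩
      exact Or.inl hvw

/-- Main induction: any invariant `F` of graphs with the right recursion computes the Euler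
characteristic of the resolution. -/
theorem main_induction (F : SimpleGraph V → Polynomial ℤ)
    (hF0 : F ⊤ = ∑ k ∈ Finset.range (Fintype.card V), Polynomial.X ^ k)
    (hF : ∀ (G : SimpleGraph V) (x y : V) (S A : Finset V), Sep G x y S A →
      F G = F (G ⊔ SimpleGraph.edge x y) +
        (Polynomial.X ^ S.card - Polynomial.X ^ (S.card + 1)))
    (G : SimpleGraph V) (hG : WC G) : HasRes (spl K G) (F G) ∧ spl K G ≤ tspan K G := by
  classical
  have key : ∀ (m : ℕ) (G : SimpleGraph V), WC G →
      (Finset.univ.filter (fun p : V × V => ¬ G.Adj p.1 p.2)).card = m →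
      HasRes (spl K G) (F G) ∧ spl K G ≤ tspan K G := by
    intro m
    induction m using Nat.strong_induction_on with
    | _ m ih =>
    intro G hG hm
    by_cases htop : G = ⊤
    · subst htop
      rw [hF0]; exact base_case
    · obtain ⟨x, y, hxy⟩ := exists_twoPair hG htop
      obtain ⟨S, A, hsep⟩ := hxy.sep
      have hlt : (Finset.univ.filter
          (fun p : V × V => ¬ (G ⊔ SimpleGraph.edge x y).Adj p.1 p.2)).card < m := by
        rw [← hm]
        apply Finset.card_lt_card
        refine ⟨?_, ?_⟩
        · intro p hp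
          simp only [Finset.mem_filter, Finset.mem_univ, true_and] at hp ⊢
          exact fun h => hp (Or.inl h)
        · intro hsub
          have : (x, y) ∈ (Finset.univ.filter
              (fun p : V × V => ¬ (G ⊔ SimpleGraph.edge x y).Adj p.1 p.2)) := by
            apply hsub
            simp only [Finset.mem_filter, Finset.mem_univ, true_and]
            exact hxy.2.1
          simp only [Finset.mem_filter, Finset.mem_univ, true_and] at this
          apply this
          right
          rw [SimpleGraph.edge_adj]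
          exact ⟨Or.inl ⟨rfl, rfl⟩, hxy.1⟩
      obtain ⟨h1, h2⟩ := ih _ hlt _ (hG.add hxy) (by convert rfl)
      rw [hF G x y S A hsep]
      exact hsep.step h1 h2
  exact key _ G hG rfl

end step

end Pool.Agent.Lib.MP_a2ed14_ag
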