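import Pool.Agent.Lib.MP_a2ed14_ag.Defs
import Pool.Agent.Lib.MP_a2ed14_ag.Base

/-!
Components of `G - S`, their number, and the Euler characteristic polynomial.
-/

namespace Pool.Agent.Lib.MP_a2ed14_ag

open Relation

section conn

variable {V : Type*}

lemma ConnOn.of_connected {G : SimpleGraph V} {C : Set V} (h : (G.induce C).Connected) :
    ConnOn G C := by
  intro a ha b hb
  have h1 := (SimpleGraph.reachable_iff_reflTransGen (G := G.induce C) ⟨a, ha⟩ ⟨b, hb⟩).mp
    (h.preconnected ⟨a, ha⟩ ⟨b, hb⟩)
  have h2 : ∀ c : C, ReflTransGen (G.induce C).Adj ⟨a, ha⟩ c → ReflTransGen (Stp G C) a c := by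
    intro c hc
    induction hc with
    | refl => exact ReflTransGen.refl
    | tail _ h3 ih => exact ReflTransGen.tail ih ⟨h3, Subtype.property _⟩
  exact h2 _ h1

lemma connected_of_ConnOn {G : SimpleGraph V} {C : Set V} (h : ConnOn G C) (hne : C.Nonempty) :
    (G.induce C).Connected := by
  obtain ⟨v, hv⟩ := hne
  haveI : Nonempty C := ⟨⟨v, hv⟩⟩
  refine ⟨?_⟩
  rintro ⟨a, ha⟩ ⟨b, hb⟩
  rw [SimpleGraph.reachable_iff_reflTransGen]
  have h2 : ∀ c, ReflTransGen (Stp G C) a c → ∃ hc : c ∈ C,
      ReflTransGen (G.induce C).Adj ⟨a, ha⟩ ⟨c, hc⟩ := by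
    intro c hc
    induction hc with
    | refl => exact ⟨ha, ReflTransGen.refl⟩
    | tail _ h3 ih =>
      obtain ⟨_, h4⟩ := ih
      exact ⟨h3.2, ReflTransGen.tail h4 h3.1⟩
  exact (h2 b (h a ha b hb)).2

lemma isComp_iff {G : SimpleGraph V} {S C : Finset V} :
    IsComp G S C ↔ (C.Nonempty ∧ ConnOn G (C : Set V) ∧ Pr G S C) := by
  unfold IsComp Pr
  constructor
  · rintro ⟨h1, h2, h3⟩
    have hne : C.Nonempty := by
      obtain ⟨⟨v, hv⟩⟩ := h2.nonempty
      exact ⟨v, by simpa using hv⟩
    exact ⟨hne, ConnOn.of_connected h2, fun v hv => Finset.disjoint_left.mp h1 hv, h3⟩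
  · rintro ⟨h1, h2, h3, h4⟩
    exact ⟨Finset.disjoint_left.mpr fun v hv => h3 v hv,
      connected_of_ConnOn h2 (by simpa using h1), h4⟩

lemma IsComp.pr {G : SimpleGraph V} {S C : Finset V} (h : IsComp G S C) : Pr G S C :=
  (isComp_iff.mp h).2.2

lemma IsComp.conn {G : SimpleGraph V} {S C : Finset V} (h : IsComp G S C) :
    ConnOn G (C : Set V) := (isComp_iff.mp h).2.1

lemma IsComp.nonempty {G : SimpleGraph V} {S C : Finset V} (h : IsComp G S C) : C.Nonempty :=
  (isComp_iff.mp h).1

/-- a connected set meeting a union of components of `G - S` and missing `S` lies inside. -/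
lemma ConnOn.subset {G : SimpleGraph V} {C : Set V} (hC : ConnOn G C) {S U : Finset V}
    (hU : Pr G S U) (hCS : ∀ v ∈ C, v ∉ S) {a : V} (haC : a ∈ C) (haU : a ∈ U) :
    ∀ v ∈ C, v ∈ U := by
  intro v hv
  have h := hC a haC v hv
  induction h with
  | refl => exact haU
  | tail _ h3 ih =>
    rename_i b c h4
    have hb : b ∈ C := by
      rcases ReflTransGen.cases_tail h4 with h5 | ⟨d, _, h5⟩
      · rw [h5]; exact haC
      · exact h5.2
    rcases hU.2 b (ih hb) c h3.1 with h5 | h5
    · exact h5
    · exact (hCS c h3.2 h5).elim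

lemma IsComp.eq_of_mem {G : SimpleGraph V} {S C C' : Finset V} (h : IsComp G S C)
    (h' : IsComp G S C') {v : V} (hv : v ∈ C) (hv' : v ∈ C') : C = C' := by
  apply Finset.Subset.antisymm
  · intro w hw
    exact h.conn.subset h'.pr (fun u hu => h.pr.1 u (by simpa using hu)) (by simpa using hv) hv' w
      (by simpa using hw)
  · intro w hw
    exact h'.conn.subset h.pr (fun u hu => h'.pr.1 u (by simpa using hu)) (by simpa using hv') hv w
      (by simpa using hw)

variable [Fintype V]

lemma mem_comps {G : SimpleGraph V} {S C : Finset V} : C ∈ comps G S ↔ IsComp G S C := by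
  classical
  simp [comps]

lemma exists_comp {G : SimpleGraph V} {S : Finset V} {v : V} (hv : v ∉ S) :
    ∃ C, IsComp G S C ∧ v ∈ C := by
  classical
  set X : Set V := {w | w ∉ S} with hX
  have hvX : v ∈ X := hv
  refine ⟨(reach G X v).toFinset, ?_, by simpa using reach_self⟩
  rw [isComp_iff]
  refine ⟨⟨v, by simpa using reach_self⟩, ?_, ?_, ?_⟩
  · simpa using reach_conn
  · intro w hw
    exact reach_subset hvX (by simpa using hw)
  · intro w hw u hwu
    by_cases hu : u ∈ S
    · exact Or.inr hu
    · left
      simpa using reach_closed (by simpa using hw) hwu (show u ∈ X from hu)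

end conn

section count

variable {V : Type*} [Fintype V] [DecidableEq V]

/-- components avoiding both `x` and `y` are the same before and after adding the edge -/
lemma isComp_add_of_notMem {G : SimpleGraph V} {x y : V} (hxy : x ≠ y) {S C : Finset V}
    (hx : x ∉ C) (hy : y ∉ C) :
    IsComp (G ⊔ SimpleGraph.edge x y) S C ↔ IsComp G S C := by
  have hadj : ∀ u ∈ C, ∀ v, (G ⊔ SimpleGraph.edge x y).Adj u v ↔ G.Adj u v := by
    intro u hu v
    rw [add_adj hxy]
    constructor
    · rintro (h | ⟨rfl, _⟩ | ⟨rfl, _⟩)
      · exact h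
      · exact (hx hu).elim
      · exact (hy hu).elim
    · exact Or.inl
  have hconn : ConnOn (G ⊔ SimpleGraph.edge x y) (C : Set V) ↔ ConnOn G (C : Set V) := by
    constructor
    · intro h a ha b hb
      have h2 : ∀ c, ReflTransGen (Stp (G ⊔ SimpleGraph.edge x y) (C : Set V)) a c →
          c ∈ (C : Set V) ∧ ReflTransGen (Stp G (C : Set V)) a c := by
        intro c hc
        induction hc with
        | refl => exact ⟨ha, ReflTransGen.refl⟩
        | tail _ h3 ih =>
          exact ⟨h3.2, ReflTransGen.tail ih.2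
            ⟨(hadj _ (by simpa using ih.1) _).mp h3.1, h3.2⟩⟩
      exact (h2 b (h a ha b hb)).2
    · intro h a ha b hb
      refine ReflTransGen.mono ?_ _ _ (h a ha b hb)
      intro p q hpq
      exact ⟨Or.inl hpq.1, hpq.2⟩
  rw [isComp_iff, isComp_iff, hconn]
  refine and_congr Iff.rfl (and_congr Iff.rfl ?_)
  unfold Pr
  refine and_congr Iff.rfl ?_
  constructor
  · intro h v hv w hvw
    exact h v hv w ((hadj v hv w).mpr hvw)
  · intro h v hv w hvw
    exact h v hv w ((hadj v hv w).mp hvw)

lemma card_comps_eq_of_iff {G G' : SimpleGraph V} {S : Finset V}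
    (h : ∀ C, IsComp G S C ↔ IsComp G' S C) : (comps G S).card = (comps G' S).card := by
  congr 1
  ext C
  rw [mem_comps, mem_comps, h]

/-- if `x` lies in `S`, nothing changes -/
lemma isComp_add_of_mem {G : SimpleGraph V} {x y : V} (hxy : x ≠ y) {S : Finset V}
    (hS : x ∈ S ∨ y ∈ S) (C : Finset V) :
    IsComp G S C ↔ IsComp (G ⊔ SimpleGraph.edge x y) S C := by
  -- reduce to x ∈ S
  have main : ∀ x y : V, x ≠ y → x ∈ S →
      (IsComp G S C ↔ IsComp (G ⊔ SimpleGraph.edge x y) S C) := by
    intro x y hxy hxS
    have hadj : ∀ u v, u ∉ S → v ∉ S →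
        ((G ⊔ SimpleGraph.edge x y).Adj u v ↔ G.Adj u v) := by
      intro u v hu hv
      rw [add_adj hxy]
      constructor
      · rintro (h | ⟨rfl, _⟩ | ⟨_, rfl⟩)
        · exact h
        · exact (hu hxS).elim
        · exact (hv hxS).elim
      · exact Or.inl
    have gen : ∀ (H H' : SimpleGraph V), (∀ u v, u ∉ S → v ∉ S → (H'.Adj u v ↔ H.Adj u v)) →
        IsComp H S C → IsComp H' S C := by
      intro H H' hHH' h
      rw [isComp_iff] at h ⊢
      obtain ⟨h1, h2, h3⟩ := h
      refine ⟨h1, ?_, h3.1, ?_⟩
      · intro a ha b hb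
        have h4 : ∀ c, ReflTransGen (Stp H (C : Set V)) a c →
            c ∈ (C : Set V) ∧ ReflTransGen (Stp H' (C : Set V)) a c := by
          intro c hc
          induction hc with
          | refl => exact ⟨ha, ReflTransGen.refl⟩
          | tail _ h5 ih =>
            refine ⟨h5.2, ReflTransGen.tail ih.2 ⟨?_, h5.2⟩⟩
            exact (hHH' _ _ (h3.1 _ (by simpa using ih.1)) (h3.1 _ (by simpa using h5.2))).mpr h5.1
        exact (h4 b (h2 a ha b hb)).2
      · intro v hv w hvw
        by_cases hw : w ∈ S
        · exact Or.inr hw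
        · exact h3.2 v hv w ((hHH' v w (h3.1 v hv) hw).mp hvw)
    exact ⟨gen _ _ hadj, gen _ _ (fun u v hu hv => (hadj u v hu hv).symm)⟩
  rcases hS with h | h
  · exact main x y hxy h
  · rw [SimpleGraph.edge_comm]; exact main y x hxy.symm h

/-- if some common neighbour is outside `S`, nothing changes -/
lemma isComp_add_of_common {G : SimpleGraph V} {x y : V} (hxy : x ≠ y) {S : Finset V}
    (hx : x ∉ S) (hy : y ∉ S) {z : V} (hz : z ∉ S) (hxz : G.Adj x z) (hyz : G.Adj y z)
    (C : Finset V) : IsComp G S C ↔ IsComp (G ⊔ SimpleGraph.edge x y) S C := by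
  by_cases hC : x ∈ C ∨ y ∈ C
  · constructor
    · intro h
      have hzC : z ∈ C := by
        rcases hC with h1 | h1
        · rcases h.pr.2 x h1 z hxz with h2 | h2
          · exact h2
          · exact (hz h2).elim
        · rcases h.pr.2 y h1 z hyz with h2 | h2
          · exact h2
          · exact (hz h2).elim
      have hxC : x ∈ C := by
        rcases h.pr.2 z hzC x hxz.symm with h2 | h2
        · exact h2
        · exact (hx h2).elim
      have hyC : y ∈ C := by
        rcases h.pr.2 z hzC y hyz.symm with h2 | h2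
        · exact h2
        · exact (hy h2).elim
      rw [isComp_iff]
      refine ⟨h.nonempty, ?_, h.pr.1, ?_⟩
      · intro a ha b hb
        refine ReflTransGen.mono ?_ _ _ (h.conn a ha b hb)
        intro p q hpq
        exact ⟨Or.inl hpq.1, hpq.2⟩
      · intro v hv w hvw
        rw [add_adj hxy] at hvw
        rcases hvw with h1 | ⟨_, rfl⟩ | ⟨_, rfl⟩
        · exact h.pr.2 v hv w h1
        · exact Or.inl hyC
        · exact Or.inl hxC
    · intro h
      have hxz' : (G ⊔ SimpleGraph.edge x y).Adj x z := Or.inl hxz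
      have hyz' : (G ⊔ SimpleGraph.edge x y).Adj y z := Or.inl hyz
      have hzC : z ∈ C := by
        rcases hC with h1 | h1
        · rcases h.pr.2 x h1 z hxz' with h2 | h2
          · exact h2
          · exact (hz h2).elim
        · rcases h.pr.2 y h1 z hyz' with h2 | h2
          · exact h2
          · exact (hz h2).elim
      rw [isComp_iff]
      refine ⟨h.nonempty, ?_, h.pr.1, ?_⟩
      · intro a ha b hb
        have h4 : ∀ c, ReflTransGen (Stp (G ⊔ SimpleGraph.edge x y) (C : Set V)) a c →
            ReflTransGen (Stp G (C : Set V)) a c := by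
          intro c hc
          induction hc with
          | refl => exact ReflTransGen.refl
          | tail _ h5 ih =>
            have h6 := h5.1
            rw [add_adj hxy] at h6
            rcases h6 with h7 | ⟨h7, h8⟩ | ⟨h7, h8⟩
            · exact ReflTransGen.tail ih ⟨h7, h5.2⟩
            · rw [h7] at ih
              rw [h8]
              exact ReflTransGen.tail (ReflTransGen.tail ih ⟨hxz, by simpa using hzC⟩)
                ⟨hyz.symm, by rw [← h8]; exact h5.2⟩
            · rw [h7] at ih
              rw [h8]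
              exact ReflTransGen.tail (ReflTransGen.tail ih ⟨hyz, by simpa using hzC⟩)
                ⟨hxz.symm, by rw [← h8]; exact h5.2⟩
        exact h4 b (h.conn a ha b hb)
      · intro v hv w hvw
        exact h.pr.2 v hv w (Or.inl hvw)
  · push Not at hC
    exact (isComp_add_of_notMem hxy hC.1 hC.2).symm

/-- number of components before and after adding the edge of a two-pair -/
lemma Sep.card_comps {G : SimpleGraph V} {x y : V} {S A : Finset V} (h : Sep G x y S A)
    (T : Finset V) : (comps G T).card =
      (comps (G ⊔ SimpleGraph.edge x y) T).card + (if S ⊆ T ∧ x ∉ T ∧ y ∉ T then 1 else 0) := by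
  by_cases hcase : S ⊆ T ∧ x ∉ T ∧ y ∉ T
  · rw [if_pos hcase]
    obtain ⟨hST, hxT, hyT⟩ := hcase
    obtain ⟨Cx, hCx, hxCx⟩ := exists_comp (G := G) hxT
    obtain ⟨Cy, hCy, hyCy⟩ := exists_comp (G := G) hyT
    obtain ⟨B, hB, hxB⟩ := exists_comp (G := G ⊔ SimpleGraph.edge x y) hxT
    have hyB : y ∈ B := by
      rcases hB.pr.2 x hxB y ((add_adj h.ne x y).mpr (Or.inr (Or.inl ⟨rfl, rfl⟩))) with h1 | h1
      · exact h1
      · exact (hyT h1).elim
    have hCxy : Cx ≠ Cy := by
      rintro rfl
      -- A \ T is a union of components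
      have hA : Pr G T (A \ T) := by
        refine ⟨fun v hv => (Finset.mem_sdiff.mp hv).2, ?_⟩
        intro v hv w hvw
        by_cases hw : w ∈ T
        · exact Or.inr hw
        · left
          rw [Finset.mem_sdiff]
          refine ⟨?_, hw⟩
          rcases h.pr.2 v (Finset.mem_sdiff.mp hv).1 w hvw with h1 | h1
          · exact h1
          · exact (hw (hST h1)).elim
      have := hCx.conn.subset hA (fun v hv => hCx.pr.1 v (by simpa using hv))
        (by simpa using hxCx) (Finset.mem_sdiff.mpr ⟨h.xA, hxT⟩) y (by simpa using hyCy)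
      exact h.yA (Finset.mem_sdiff.mp this).1
    have hyCx : y ∉ Cx := fun h1 => hCxy (hCx.eq_of_mem hCy h1 hyCy)
    have hxCy : x ∉ Cy := fun h1 => hCxy (hCx.eq_of_mem hCy hxCx h1)
    set N : Finset (Finset V) := (comps G T).filter (fun C => x ∉ C ∧ y ∉ C) with hN
    have e1 : comps G T = insert Cx (insert Cy N) := by
      ext C
      simp only [Finset.mem_insert, hN, Finset.mem_filter, mem_comps]
      constructor
      · intro hC
        by_cases hx : x ∈ C
        · exact Or.inl (hC.eq_of_mem hCx hx hxCx)
        · by_cases hy : y ∈ C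
          · exact Or.inr (Or.inl (hC.eq_of_mem hCy hy hyCy))
          · exact Or.inr (Or.inr ⟨hC, hx, hy⟩)
      · rintro (rfl | rfl | h1)
        · exact hCx
        · exact hCy
        · exact h1.1
    have e2 : comps (G ⊔ SimpleGraph.edge x y) T = insert B N := by
      ext C
      simp only [Finset.mem_insert, hN, Finset.mem_filter, mem_comps]
      constructor
      · intro hC
        by_cases hx : x ∈ C
        · exact Or.inl (hC.eq_of_mem hB hx hxB)
        · by_cases hy : y ∈ C
          · exact Or.inl (hC.eq_of_mem hB hy hyB)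
          · exact Or.inr ⟨(isComp_add_of_notMem h.ne hx hy).mp hC, hx, hy⟩
      · rintro (rfl | h1)
        · exact hB
        · exact (isComp_add_of_notMem h.ne h1.2.1 h1.2.2).mpr h1.1
    rw [e1, e2, Finset.card_insert_of_notMem, Finset.card_insert_of_notMem,
      Finset.card_insert_of_notMem]
    · simp only [hN, Finset.mem_filter]; exact fun h1 => h1.2.1 hxB
    · simp only [hN, Finset.mem_filter]; exact fun h1 => h1.2.2 hyCy
    · rw [Finset.mem_insert]
      rintro (h1 | h1)
      · exact hCxy h1
      · simp only [hN, Finset.mem_filter] at h1; exact h1.2.1 hxCx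
  · rw [if_neg hcase, add_zero]
    apply card_comps_eq_of_iff
    by_cases hxT : x ∈ T
    · exact isComp_add_of_mem h.ne (Or.inl hxT)
    · by_cases hyT : y ∈ T
      · exact isComp_add_of_mem h.ne (Or.inr hyT)
      · have : ¬ S ⊆ T := fun h1 => hcase ⟨h1, hxT, hyT⟩
        rw [Finset.not_subset] at this
        obtain ⟨z, hzS, hzT⟩ := this
        obtain ⟨h1, h2⟩ := (h.hS z).mp hzS
        exact isComp_add_of_common h.ne hxT hyT hzT h1 h2

open Polynomial in
/-- the Euler characteristic polynomial -/
noncomputable def eulerP (G : SimpleGraph V) : ℤ[X] :=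
  ∑ S ∈ (Finset.univ : Finset (Finset V)).erase Finset.univ,
    ((comps G S).card : ℤ[X]) * X ^ S.card * (1 - X) ^ (Fintype.card V - 1 - S.card)

open Polynomial in
lemma eulerP_step {G : SimpleGraph V} {x y : V} {S A : Finset V} (h : Sep G x y S A) :
    eulerP G = eulerP (G ⊔ SimpleGraph.edge x y) + (X ^ S.card - X ^ (S.card + 1)) := by
  unfold eulerP
  have e1 : ∀ T : Finset V, ((comps G T).card : ℤ[X]) =
      ((comps (G ⊔ SimpleGraph.edge x y) T).card : ℤ[X]) +
        (if S ⊆ T ∧ x ∉ T ∧ y ∉ T then 1 else 0) := by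
    intro T
    rw [h.card_comps T]
    push_cast
    rfl
  simp only [e1, add_mul, Finset.sum_add_distrib]
  congr 1
  simp only [ite_mul, one_mul, zero_mul]
  rw [← Finset.sum_filter]
  set R : Finset V := ((Finset.univ.erase x).erase y) \ S with hR
  have hcardR : R.card + S.card + 2 = Fintype.card V := by
    have h1 : S ⊆ (Finset.univ.erase x).erase y := by
      intro s hs
      rw [Finset.mem_erase, Finset.mem_erase]
      refine ⟨?_, ?_, Finset.mem_univ _⟩
      · rintro rfl; exact h.y_notMem hs
      · rintro rfl; exact h.x_notMem hs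
    have h2 : R.card = ((Finset.univ.erase x).erase y).card - S.card := by
      rw [hR, Finset.card_sdiff_of_subset h1]
    have h3 : ((Finset.univ.erase x).erase y).card = Fintype.card V - 2 := by
      rw [Finset.card_erase_of_mem, Finset.card_erase_of_mem (Finset.mem_univ _), Finset.card_univ]
      · omega
      · rw [Finset.mem_erase]; exact ⟨h.ne.symm, Finset.mem_univ _⟩
    have h4 := Finset.card_le_card h1
    have h5 : 2 ≤ Fintype.card V := by
      have : ({x, y} : Finset V).card ≤ (Finset.univ : Finset V).card :=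
        Finset.card_le_card (Finset.subset_univ _)
      rwa [Finset.card_pair h.ne, Finset.card_univ] at this
    omega
  have e2 : ∑ T ∈ ((Finset.univ : Finset (Finset V)).erase Finset.univ).filter
      (fun T => S ⊆ T ∧ x ∉ T ∧ y ∉ T),
        (X : ℤ[X]) ^ T.card * (1 - X) ^ (Fintype.card V - 1 - T.card) =
      ∑ U ∈ R.powerset, (X ^ S.card * (1 - X)) * ((X : ℤ[X]) ^ U.card * (1 - X) ^ (R.card - U.card)) := by
    refine Finset.sum_nbij' (fun T => T \ S) (fun U => S ∪ U) ?_ ?_ ?_ ?_ ?_
    · intro T hT
      simp only [Finset.mem_filter, Finset.mem_erase, Finset.mem_univ, and_true] at hT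
      obtain ⟨_, _, hxT, hyT⟩ := hT
      rw [Finset.mem_powerset, hR]
      intro v hv
      rw [Finset.mem_sdiff] at hv ⊢
      rw [Finset.mem_erase, Finset.mem_erase]
      refine ⟨⟨?_, ?_, Finset.mem_univ _⟩, hv.2⟩
      · rintro rfl; exact hyT hv.1
      · rintro rfl; exact hxT hv.1
    · intro U hU
      rw [Finset.mem_powerset, hR] at hU
      have hxU : x ∉ S ∪ U := by
        rw [Finset.mem_union]
        rintro (h1 | h1)
        · exact h.x_notMem h1
        · have := hU h1
          simp at this
      have hyU : y ∉ S ∪ U := by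
        rw [Finset.mem_union]
        rintro (h1 | h1)
        · exact h.y_notMem h1
        · have := hU h1
          simp at this
      simp only [Finset.mem_filter, Finset.mem_erase, Finset.mem_univ, and_true]
      refine ⟨?_, Finset.subset_union_left, hxU, hyU⟩
      intro h1
      rw [h1] at hxU
      exact hxU (Finset.mem_univ _)
    · intro T hT
      simp only [Finset.mem_filter, Finset.mem_erase, Finset.mem_univ, and_true] at hT
      exact Finset.union_sdiff_of_subset hT.2.1
    · intro U hU
      rw [Finset.mem_powerset, hR] at hU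
      apply Finset.union_sdiff_cancel_left
      rw [Finset.disjoint_left]
      intro v hv hvU
      exact (Finset.mem_sdiff.mp (hU hvU)).2 hv
    · intro T hT
      simp only [Finset.mem_filter, Finset.mem_erase, Finset.mem_univ, and_true] at hT
      have h1 : (T \ S).card = T.card - S.card := Finset.card_sdiff_of_subset hT.2.1
      have h2 : S.card ≤ T.card := Finset.card_le_card hT.2.1
      have h3 : T.card + 2 ≤ Fintype.card V := by
        have h4 : T ⊆ (Finset.univ.erase x).erase y := by
          intro v hv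
          rw [Finset.mem_erase, Finset.mem_erase]
          refine ⟨?_, ?_, Finset.mem_univ _⟩
          · rintro rfl; exact hT.2.2.2 hv
          · rintro rfl; exact hT.2.2.1 hv
        have h5 := Finset.card_le_card h4
        rw [Finset.card_erase_of_mem, Finset.card_erase_of_mem (Finset.mem_univ _),
          Finset.card_univ] at h5
        · omega
        · rw [Finset.mem_erase]; exact ⟨h.ne.symm, Finset.mem_univ _⟩
      rw [h1]
      have h6 : (X : ℤ[X]) ^ T.card = X ^ S.card * X ^ (T.card - S.card) := by
        rw [← pow_add]; congr 1; omega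
      have h7 : Fintype.card V - 1 - T.card = 1 + (R.card - (T.card - S.card)) := by omega
      rw [h7, h6, pow_add, pow_one]
      ring
  rw [e2, ← Finset.mul_sum, Finset.sum_pow_mul_eq_add_pow]
  rw [show (X : ℤ[X]) + (1 - X) = 1 by ring, one_pow]
  ring

/-- the components of a complete graph minus `S` -/
lemma comps_top {S : Finset V} (hS : S ≠ Finset.univ) :
    comps (⊤ : SimpleGraph V) S = {Sᶜ} := by
  ext C
  rw [mem_comps, Finset.mem_singleton]
  constructor
  · intro hC
    obtain ⟨v, hv⟩ := hC.nonempty
    ext w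
    rw [Finset.mem_compl]
    constructor
    · exact hC.pr.1 w
    · intro hw
      by_cases hwv : v = w
      · rw [← hwv]; exact hv
      · rcases hC.pr.2 v hv w ((SimpleGraph.top_adj v w).mpr hwv) with h1 | h1
        · exact h1
        · exact (hw h1).elim
  · rintro rfl
    rw [isComp_iff]
    refine ⟨?_, ?_, Pr_compl _ _⟩
    · rw [Finset.nonempty_iff_ne_empty, Ne, Finset.compl_eq_empty_iff]; exact hS
    · intro a ha b hb
      by_cases hab : a = b
      · rw [hab]
      · exact ReflTransGen.single ⟨(SimpleGraph.top_adj a b).mpr hab, hb⟩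

open Polynomial in
lemma eulerP_top : eulerP (⊤ : SimpleGraph V) =
    ∑ k ∈ Finset.range (Fintype.card V), (X : ℤ[X]) ^ k := by
  have hne : (1 - X : ℤ[X]) ≠ 0 := by
    intro h
    have := congrArg (Polynomial.eval 0) h
    simp at this
  apply mul_left_cancel₀ hne
  have e1 : (1 - X : ℤ[X]) * ∑ k ∈ Finset.range (Fintype.card V), (X : ℤ[X]) ^ k =
      1 - X ^ (Fintype.card V) := by
    rw [mul_comm]; exact geom_sum_mul_neg X _
  rw [e1]
  have e2 : (1 - X : ℤ[X]) * eulerP (⊤ : SimpleGraph V) =
      ∑ S ∈ (Finset.univ : Finset (Finset V)).erase Finset.univ,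
        (X : ℤ[X]) ^ S.card * (1 - X) ^ ((Finset.univ : Finset V).card - S.card) := by
    unfold eulerP
    rw [Finset.mul_sum]
    apply Finset.sum_congr rfl
    intro S hS
    have hS' : S ≠ Finset.univ := Finset.ne_of_mem_erase hS
    have hlt : S.card < Fintype.card V := by
      rw [← Finset.card_univ]
      exact Finset.card_lt_card (Finset.ssubset_univ_iff.mpr hS')
    rw [comps_top hS', Finset.card_singleton, Finset.card_univ,
      show Fintype.card V - S.card = (Fintype.card V - 1 - S.card) + 1 by omega, pow_succ]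
    push_cast
    ring
  have e3 := Finset.sum_pow_mul_eq_add_pow (X : ℤ[X]) (1 - X) (Finset.univ : Finset V)
  rw [show (X : ℤ[X]) + (1 - X) = 1 by ring, one_pow, Finset.powerset_univ,
    ← Finset.add_sum_erase _ _ (Finset.mem_univ (Finset.univ : Finset V))] at e3
  rw [e2]
  rw [Nat.sub_self, pow_zero, mul_one, Finset.card_univ] at e3
  rw [Finset.card_univ]
  linear_combination e3

end count

end Pool.Agent.Lib.MP_a2ed14_ag
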