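import Mathlib

/-!
Definitions used in the statement of the main theorem.
-/

namespace Pool.Agent.Lib.MP_a2ed14_ag

open MvPolynomial

/-- A graph is weakly chordal if neither it nor its complement has an induced cycle on five or
more vertices. -/
def WeaklyChordal {V : Type*} (G : SimpleGraph V) : Prop :=
  ∀ n : ℕ, 5 ≤ n →
    IsEmpty (SimpleGraph.cycleGraph n ↪g G) ∧ IsEmpty (SimpleGraph.cycleGraph n ↪g Gᶜ)

/-- The derivation module `D(A(G))` of the graphic arrangement of `G` over `K`: the derivations
`θ` of `S = K[x_v : v ∈ V]` with `θ (x_i - x_j) ∈ (x_i - x_j) S` for every edge `ij`. -/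
def derivationModule (K : Type*) [Field K] {V : Type*} (G : SimpleGraph V) :
    Submodule (MvPolynomial V K) (Derivation K (MvPolynomial V K) (MvPolynomial V K)) where
  carrier := {θ | ∀ i j, G.Adj i j → (X i - X j) ∣ θ (X i - X j)}
  add_mem' := by
    intro θ η hθ hη i j hij
    rw [Derivation.add_apply]
    exact dvd_add (hθ i j hij) (hη i j hij)
  zero_mem' := by intro i j _; simp
  smul_mem' := by
    intro c θ hθ i j hij
    rw [Derivation.smul_apply, smul_eq_mul]
    exact Dvd.dvd.mul_left (hθ i j hij) c

/-- A minimal graded free resolution of length at most one of a module `M` of derivations of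
`S = K[x_v : v ∈ V]`, graded by the polynomial degree of the coefficients:
`0 → ⨁_r S(-d₁ r) → ⨁_i S(-d₀ i) → M → 0`, with maps `δ` and `ε`. -/
structure IsMinimalGradedResolution {K V : Type*} [Field K]
    (M : Submodule (MvPolynomial V K) (Derivation K (MvPolynomial V K) (MvPolynomial V K)))
    {n₀ n₁ : ℕ} (d₀ : Fin n₀ → ℕ) (d₁ : Fin n₁ → ℕ)
    (ε : (Fin n₀ → MvPolynomial V K) →ₗ[MvPolynomial V K]
      Derivation K (MvPolynomial V K) (MvPolynomial V K))
    (δ : (Fin n₁ → MvPolynomial V K) →ₗ[MvPolynomial V K] (Fin n₀ → MvPolynomial V K)) :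
    Prop where
  /-- the `i`-th generator is a homogeneous derivation of degree `d₀ i` -/
  ε_homogeneous : ∀ i v, (ε (Pi.single i 1) (X v)).IsHomogeneous (d₀ i)
  /-- the entries of `δ` are homogeneous of degree `d₁ r - d₀ i` (zero if this is negative) -/
  δ_homogeneous : ∀ r i, δ (Pi.single r 1) i = 0 ∨
    (d₀ i ≤ d₁ r ∧ (δ (Pi.single r 1) i).IsHomogeneous (d₁ r - d₀ i))
  /-- minimality: the entries of `δ` lie in the maximal ideal generated by the variables -/
  minimal : ∀ r i, constantCoeff (δ (Pi.single r 1) i) = 0
  δ_injective : Function.Injective δ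
  exact_middle : LinearMap.range δ = LinearMap.ker ε
  range_eq : LinearMap.range ε = M

/-- `C` is the vertex set of a connected component of `G - S`. -/
def IsComp {V : Type*} (G : SimpleGraph V) (S C : Finset V) : Prop :=
  Disjoint C S ∧ (G.induce (C : Set V)).Connected ∧
    ∀ v ∈ C, ∀ w, G.Adj v w → w ∈ C ∨ w ∈ S

open Classical in
/-- The vertex sets of the connected components of `G - S`. -/
noncomputable def comps {V : Type*} [Fintype V] (G : SimpleGraph V) (S : Finset V) :
    Finset (Finset V) :=
  Finset.univ.filter (fun C => IsComp G S C)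

/-- The space of `K`-linear havens of order `j + 1` of `G`: the functions `φ` that assign an
element of `K` to every vertex set `C` such that `C` is a connected component of `G - S` for
some `S` with at most `j` vertices (and vanish on all other sets), such that
the sum of `φ` over the components of `G - S` is the same for all `S` with at most `j` vertices. -/
def havens (K : Type*) [Field K] {V : Type*} [Fintype V] (G : SimpleGraph V) (j : ℕ) :
    Submodule K (Finset V → K) where
  carrier := {φ | (∀ C, (∀ S : Finset V, S.card ≤ j → ¬ IsComp G S C) → φ C = 0) ∧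
    ∃ c : K, ∀ S : Finset V, S.card ≤ j → ∑ C ∈ comps G S, φ C = c}
  add_mem' := by
    rintro φ ψ ⟨h1, c, h2⟩ ⟨h3, d, h4⟩
    refine ⟨fun C hC => by simp [h1 C hC, h3 C hC], c + d, fun S hS => ?_⟩
    simp only [Pi.add_apply, Finset.sum_add_distrib, h2 S hS, h4 S hS]
  zero_mem' := ⟨fun _ _ => rfl, 0, fun _ _ => by simp⟩
  smul_mem' := by
    rintro a φ ⟨h1, c, h2⟩
    refine ⟨fun C hC => by simp [h1 C hC], a * c, fun S hS => ?_⟩
    simp only [Pi.smul_apply, smul_eq_mul, ← Finset.mul_sum, h2 S hS]

end Pool.Agent.Lib.MP_a2ed14_ag
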