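import Pool.Agent.Lib.MP_a2ed14_ag.Haven2

/-!
Transfer to derivations and final assembly.
-/

namespace Pool.Agent.Lib.MP_a2ed14_ag

lemma WC_of_weaklyChordal {V : Type*} {G : SimpleGraph V} (h : WeaklyChordal G) : WC G :=
  ⟨noHole_iff.mpr fun n hn => (h n hn).1, noHole_iff.mpr fun n hn => (h n hn).2⟩

section deriv

open MvPolynomial

variable {K V : Type*} [Field K] [DecidableEq V]

lemma mem_derivationModule {G : SimpleGraph V}
    {θ : Derivation K (MvPolynomial V K) (MvPolynomial V K)} :
    θ ∈ derivationModule K G ↔ (fun v => θ (X v)) ∈ spl K G := by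
  constructor
  · intro h u v huv
    have := h u v huv
    rwa [map_sub] at this
  · intro h u v huv
    rw [map_sub]
    exact h u v huv

lemma Res.toDeriv {G : SimpleGraph V} {n₀ n₁ : ℕ} {d₀ : Fin n₀ → ℕ} {d₁ : Fin n₁ → ℕ}
    {g : Fin n₀ → V → MvPolynomial V K} {A : Fin n₁ → Fin n₀ → MvPolynomial V K}
    (h : Res (spl K G) d₀ d₁ g A) :
    IsMinimalGradedResolution (derivationModule K G) d₀ d₁
      (Fintype.linearCombination (MvPolynomial V K) (fun i => mkDerivation K (g i)))
      (Fintype.linearCombination (MvPolynomial V K) A) := by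
  have hX : ∀ (c : Fin n₀ → MvPolynomial V K) (v : V),
      (Fintype.linearCombination (MvPolynomial V K) (fun i => mkDerivation K (g i)) c) (X v) =
        (∑ i, c i • g i) v := by
    intro c v
    rw [Fintype.linearCombination_apply, Finset.sum_apply]
    have : ∀ (t : Finset (Fin n₀)),
        (∑ i ∈ t, c i • mkDerivation K (g i)) (X v) = ∑ i ∈ t, (c i • g i) v := by
      intro t
      induction t using Finset.induction_on with
      | empty => simp
      | insert i t hi ih =>
        rw [Finset.sum_insert hi, Finset.sum_insert hi, Derivation.add_apply, ih,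
          Derivation.smul_apply, mkDerivation_X]
        rfl
    exact this _
  have hzero : ∀ c : Fin n₀ → MvPolynomial V K,
      Fintype.linearCombination (MvPolynomial V K) (fun i => mkDerivation K (g i)) c = 0 ↔
        ∑ i, c i • g i = 0 := by
    intro c
    constructor
    · intro h0
      funext v
      rw [← hX, h0]; rfl
    · intro h0
      apply derivation_ext
      intro v
      rw [hX, h0]; rfl
  refine ⟨?_, ?_, ?_, ?_, ?_, ?_⟩
  · intro i v
    rw [Fintype.linearCombination_apply_single, one_smul, mkDerivation_X]
    exact h.hg i v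
  · intro r i
    rw [Fintype.linearCombination_apply_single, one_smul]
    rcases h.hA r i with h1 | h1
    · exact Or.inl h1
    · exact Or.inr ⟨h1.1.le, h1.2⟩
  · intro r i
    rw [Fintype.linearCombination_apply_single, one_smul]
    rcases h.hA r i with h1 | h1
    · rw [h1, map_zero]
    · rw [constantCoeff_eq]
      apply h1.2.coeff_eq_zero
      simp; omega
  · rw [injective_iff_map_eq_zero]
    intro e he
    funext r
    apply h.inj e _ r
    intro i
    have := congrFun he i
    rw [Fintype.linearCombination_apply, Finset.sum_apply] at this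
    simpa using this
  · apply le_antisymm
    · rintro _ ⟨e, rfl⟩
      rw [LinearMap.mem_ker, hzero]
      have : ∀ i, Fintype.linearCombination (MvPolynomial V K) A e i = ∑ r, e r * A r i := by
        intro i
        rw [Fintype.linearCombination_apply, Finset.sum_apply]
        rfl
      simp only [this, Finset.sum_smul]
      rw [Finset.sum_comm]
      apply Finset.sum_eq_zero
      intro r _
      have h2 := h.rel r
      simp only [mul_smul, ← Finset.smul_sum, h2, smul_zero]
    · intro c hc
      rw [LinearMap.mem_ker, hzero] at hc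
      obtain ⟨e, he⟩ := h.exact c hc
      refine ⟨e, ?_⟩
      funext i
      rw [Fintype.linearCombination_apply, Finset.sum_apply, he i]
      rfl
  · apply le_antisymm
    · rintro _ ⟨c, rfl⟩
      rw [mem_derivationModule]
      have : (fun v => (Fintype.linearCombination (MvPolynomial V K)
          (fun i => mkDerivation K (g i)) c) (X v)) = ∑ i, c i • g i := by
        funext v; exact hX c v
      rw [this, ← h.gen]
      exact Submodule.sum_mem _ fun i _ =>
        Submodule.smul_mem _ _ (Submodule.subset_span ⟨i, rfl⟩)
    · intro θ hθ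
      rw [mem_derivationModule, ← h.gen] at hθ
      obtain ⟨c, hc⟩ := (Submodule.mem_span_range_iff_exists_fun _).mp hθ
      refine ⟨c, ?_⟩
      apply derivation_ext
      intro v
      rw [hX, hc]

end deriv

section coeffs

open Polynomial in
lemma coeff_one_sub_X_pow (m k : ℕ) :
    ((1 - X : ℤ[X]) ^ m).coeff k = (-1) ^ k * (m.choose k : ℤ) := by
  induction m generalizing k with
  | zero =>
    rcases k with _ | k
    · simp
    · simp [Polynomial.coeff_one]
  | succ m ih =>
    rw [pow_succ, mul_sub, mul_one, Polynomial.coeff_sub, ih]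
    rcases k with _ | k
    · simp
    · rw [Polynomial.coeff_mul_X, ih, Nat.choose_succ_succ]
      push_cast
      ring

open Polynomial in
lemma coeff_gp {n : ℕ} (d : Fin n → ℕ) (j : ℕ) :
    (gp d).coeff j = (Fintype.card {i // d i = j} : ℤ) := by
  unfold gp
  rw [Polynomial.finset_sum_coeff]
  simp only [Polynomial.coeff_X_pow]
  rw [Finset.sum_ite, Finset.sum_const_zero, add_zero, Finset.sum_const, Fintype.card_subtype]
  simp [eq_comm]

variable {V : Type*} [Fintype V] [DecidableEq V]

open Polynomial in
lemma coeff_eulerP (G : SimpleGraph V) (j : ℕ) : (eulerP G).coeff j =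
    ∑ S ∈ (Finset.univ : Finset (Finset V)).filter (fun S => S.card ≤ j),
      (-1 : ℤ) ^ (j - S.card) * ((Fintype.card V - 1 - S.card).choose (j - S.card)) *
        (comps G S).card := by
  unfold eulerP
  rw [Polynomial.finset_sum_coeff]
  have h1 : ∀ S : Finset V, (((comps G S).card : ℤ[X]) * X ^ S.card *
      (1 - X) ^ (Fintype.card V - 1 - S.card)).coeff j =
      if S.card ≤ j then (-1 : ℤ) ^ (j - S.card) *
        ((Fintype.card V - 1 - S.card).choose (j - S.card)) * (comps G S).card else 0 := by
    intro S
    rw [mul_assoc, ← Polynomial.C_eq_natCast, Polynomial.coeff_C_mul, Polynomial.coeff_X_pow_mul']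
    split_ifs with h
    · rw [coeff_one_sub_X_pow]
      ring
    · simp
  rw [Finset.sum_congr rfl (fun S _ => h1 S), ← Finset.sum_filter]
  apply Finset.sum_subset
  · intro S hS
    rw [Finset.mem_filter] at hS ⊢
    exact ⟨Finset.mem_univ _, hS.2⟩
  · intro S hS hS'
    rw [Finset.mem_filter] at hS hS'
    have : S = Finset.univ := by
      by_contra hne
      exact hS' ⟨Finset.mem_erase.mpr ⟨hne, Finset.mem_univ _⟩, hS.2⟩
    have h2 : comps G S = ∅ := by
      rw [Finset.eq_empty_iff_forall_notMem]
      intro C hC
      rw [mem_comps] at hC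
      obtain ⟨v, hv⟩ := hC.nonempty
      exact hC.pr.1 v hv (by rw [this]; exact Finset.mem_univ _)
    rw [h2]; simp

end coeffs

end Pool.Agent.Lib.MP_a2ed14_ag
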