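import Pool.Agent.Lib.MP_a2ed14_ag.Comp

/-!
The dimension of the space of `K`-linear havens is the number of generators.
-/

namespace Pool.Agent.Lib.MP_a2ed14_ag

open MvPolynomial Relation

section eval

variable {V : Type*} [DecidableEq V] {K : Type*} [Field K]

/-- evaluation at the indicator function of the complement of `R` -/
noncomputable def ev (K : Type*) [Field K] (R : Finset V) : MvPolynomial V K →+* K :=
  eval (fun v => if v ∈ R then 0 else 1)

lemma ev_X (R : Finset V) (v : V) : ev K R (X v) = if v ∈ R then 0 else 1 := by simp [ev]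

/-- alternating sum of evaluations over the subsets of `S` -/
noncomputable def kap (S : Finset V) (p : MvPolynomial V K) : K :=
  ∑ R ∈ S.powerset, (-1) ^ (S.card + R.card) * ev K R p

lemma kap_add (S : Finset V) (p q : MvPolynomial V K) : kap S (p + q) = kap S p + kap S q := by
  simp only [kap, map_add, mul_add, Finset.sum_add_distrib]

lemma kap_sum {ι : Type*} (S : Finset V) (t : Finset ι) (p : ι → MvPolynomial V K) :
    kap S (∑ i ∈ t, p i) = ∑ i ∈ t, kap S (p i) := by
  classical
  induction t using Finset.induction_on with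
  | empty => simp [kap]
  | insert i t hi ih => rw [Finset.sum_insert hi, Finset.sum_insert hi, kap_add, ih]

lemma kap_C_mul (S : Finset V) (a : K) (p : MvPolynomial V K) :
    kap S (C a * p) = a * kap S p := by
  simp only [kap, map_mul, Finset.mul_sum]
  apply Finset.sum_congr rfl
  intro R _
  simp only [ev, eval_C]
  ring

lemma kap_X_mul_of_notMem {S : Finset V} {u : V} (hu : u ∉ S) (p : MvPolynomial V K) :
    kap S (X u * p) = kap S p := by
  unfold kap
  apply Finset.sum_congr rfl
  intro R hR
  rw [map_mul, ev_X, if_neg (fun h => hu (Finset.mem_powerset.mp hR h)), one_mul]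

lemma kap_insert {S : Finset V} {u : V} (hu : u ∉ S) (p : MvPolynomial V K) :
    kap (insert u S) p = - kap S p +
      ∑ R ∈ S.powerset, (-1) ^ (S.card + R.card) * ev K (insert u R) p := by
  unfold kap
  rw [Finset.sum_powerset_insert hu, Finset.card_insert_of_notMem hu, ← Finset.sum_neg_distrib]
  congr 1
  · apply Finset.sum_congr rfl
    intro R _
    rw [show S.card + 1 + R.card = (S.card + R.card) + 1 by ring, pow_succ]
    ring
  · apply Finset.sum_congr rfl
    intro R hR
    rw [Finset.card_insert_of_notMem (fun h => hu (Finset.mem_powerset.mp hR h)),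
      show S.card + 1 + (R.card + 1) = (S.card + R.card) + 2 by ring, pow_add]
    ring

lemma kap_X_mul_insert {S : Finset V} {u : V} (hu : u ∉ S) (p : MvPolynomial V K) :
    kap (insert u S) (X u * p) = - kap S p := by
  rw [kap_insert hu, kap_X_mul_of_notMem hu]
  have : ∑ R ∈ S.powerset, (-1 : K) ^ (S.card + R.card) * ev K (insert u R) (X u * p) = 0 := by
    apply Finset.sum_eq_zero
    intro R _
    rw [map_mul, ev_X, if_pos (Finset.mem_insert_self u R)]
    ring
  rw [this, add_zero]

lemma kap_monomial {S : Finset V} {m : V →₀ ℕ} (c : K) (h : m.degree < S.card) :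
    kap S (monomial m c) = 0 := by
  have h1 : m.support.card ≤ m.degree := by
    rw [Finsupp.degree_apply, Finset.card_eq_sum_ones]
    apply Finset.sum_le_sum
    intro i hi
    have := Finsupp.mem_support_iff.mp hi
    omega
  obtain ⟨s, hs, hsm⟩ : ∃ s ∈ S, s ∉ m.support := by
    by_contra hcon
    push Not at hcon
    have := Finset.card_le_card (show S ⊆ m.support from hcon)
    omega
  obtain ⟨S', hS', rfl⟩ : ∃ S', s ∉ S' ∧ insert s S' = S :=
    ⟨S.erase s, Finset.notMem_erase s S, Finset.insert_erase hs⟩
  rw [kap_insert hS', kap, neg_add_eq_zero]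
  apply Finset.sum_congr rfl
  intro R _
  congr 1
  simp only [ev, eval_monomial]
  congr 1
  apply Finsupp.prod_congr
  intro v hv
  have hvs : v ≠ s := by rintro rfl; exact hsm hv
  simp only [Finset.mem_insert, hvs, false_or]

lemma kap_of_homogeneous {S : Finset V} {p : MvPolynomial V K} {d : ℕ} (hp : p.IsHomogeneous d)
    (h : d < S.card) : kap S p = 0 := by
  rw [p.as_sum, kap_sum]
  apply Finset.sum_eq_zero
  intro m hm
  apply kap_monomial
  have : m.degree = d := by
    by_contra hne
    exact (mem_support_iff.mp hm) (hp.coeff_eq_zero hne)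
  rw [this]; exact h

lemma kap_prod {S T : Finset V} {v : V} (hv : v ∉ S) (hcard : S.card ≤ T.card) :
    kap S (∏ t ∈ T, (X v - X t : MvPolynomial V K)) = if S = T then 1 else 0 := by
  unfold kap
  have e1 : ∀ R ∈ S.powerset, ev K R (∏ t ∈ T, (X v - X t : MvPolynomial V K)) =
      if T ⊆ R then 1 else 0 := by
    intro R hR
    have hvR : v ∉ R := fun h => hv (Finset.mem_powerset.mp hR h)
    rw [map_prod]
    simp only [map_sub, ev_X, if_neg hvR]
    split_ifs with h
    · apply Finset.prod_eq_one
      intro t ht
      rw [if_pos (h ht), sub_zero]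
    · rw [Finset.not_subset] at h
      obtain ⟨t, ht, htR⟩ := h
      apply Finset.prod_eq_zero ht
      rw [if_neg htR, sub_self]
  split_ifs with hST
  · subst hST
    rw [Finset.sum_eq_single_of_mem S (Finset.mem_powerset_self S)]
    · rw [e1 S (Finset.mem_powerset_self S), if_pos (Finset.Subset.refl _), mul_one]
      exact Even.neg_one_pow ⟨S.card, rfl⟩
    · intro R hR hne
      rw [e1 R hR, if_neg, mul_zero]
      intro h
      exact hne (Finset.Subset.antisymm (Finset.mem_powerset.mp hR) h)
  · apply Finset.sum_eq_zero
    intro R hR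
    rw [e1 R hR, if_neg, mul_zero]
    intro h
    apply hST
    have hRS := Finset.mem_powerset.mp hR
    exact (Finset.eq_of_subset_of_card_le (h.trans hRS) hcard).symm

lemma kap_congr {G : SimpleGraph V} {f : V → MvPolynomial V K} (hf : f ∈ spl K G) {S : Finset V}
    {u v : V} (hu : u ∉ S) (hv : v ∉ S) (huv : G.Adj u v) : kap S (f u) = kap S (f v) := by
  unfold kap
  apply Finset.sum_congr rfl
  intro R hR
  congr 1
  obtain ⟨q, hq⟩ := hf u v huv
  have hR' := Finset.mem_powerset.mp hR
  have : ev K R (f u - f v) = 0 := by
    rw [hq, map_mul, map_sub, ev_X, ev_X, if_neg (fun h => hu (hR' h)),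
      if_neg (fun h => hv (hR' h)), sub_self, zero_mul]
  rw [map_sub, sub_eq_zero] at this
  exact this

end eval

section locconst

variable {V : Type*} [Fintype V] [DecidableEq V] {K : Type*} [Field K]

/-- value of a locally constant function on a component -/
noncomputable def val (F : V → K) (C : Finset V) : K :=
  if h : C.Nonempty then F h.choose else 0

lemma val_eq {G : SimpleGraph V} {F : V → K} {T C : Finset V}
    (hF : ∀ a b, G.Adj a b → a ∉ T → b ∉ T → F a = F b) (hC : ConnOn G (C : Set V))
    (hCT : ∀ v ∈ C, v ∉ T) {a : V} (ha : a ∈ C) : val F C = F a := by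
  have key : ∀ b ∈ C, F b = F a := by
    intro b hb
    have h := hC a (by simpa using ha) b (by simpa using hb)
    have h2 : ∀ c, ReflTransGen (Stp G (C : Set V)) a c → c ∈ C ∧ F c = F a := by
      intro c hc
      induction hc with
      | refl => exact ⟨ha, rfl⟩
      | tail _ h3 ih =>
        rename_i b' c' _
        have hc : c' ∈ C := by simpa using h3.2
        refine ⟨hc, ?_⟩
        rw [← ih.2]
        exact (hF _ _ h3.1 (hCT _ ih.1) (hCT _ hc)).symm
    exact (h2 b h).2
  have hne : C.Nonempty := ⟨a, ha⟩
  rw [val, dif_pos hne]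
  exact key _ hne.choose_spec

/-- components of `G - S` not containing `u` are components of `G - (S ∪ {u})` -/
lemma IsComp.insert {G : SimpleGraph V} {S C : Finset V} (h : IsComp G S C) {u : V}
    (hu : u ∉ C) : IsComp G (insert u S) C := by
  rw [isComp_iff]
  refine ⟨h.nonempty, h.conn, ?_, ?_⟩
  · intro v hv hvS
    rcases Finset.mem_insert.mp hvS with h1 | h1
    · rw [h1] at hv; exact hu hv
    · exact h.pr.1 v hv h1
  · intro v hv w hvw
    rcases h.pr.2 v hv w hvw with h1 | h1
    · exact Or.inl h1
    · exact Or.inr (Finset.mem_insert_of_mem h1)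

lemma sum_insert_comps {G : SimpleGraph V} {j : ℕ} {φ : Finset V → K} (hφ : φ ∈ havens K G j)
    {F : V → K} {T : Finset V} {u : V} (hu : u ∉ T) (hT : T.card + 1 ≤ j)
    (hF : ∀ a b, G.Adj a b → a ∉ T → b ∉ T → F a = F b) :
    ∑ C ∈ comps G (insert u T), φ C * val F C = ∑ B ∈ comps G T, φ B * val F B := by
  obtain ⟨_, c, hc⟩ := hφ
  obtain ⟨B, hB, huB⟩ := exists_comp (G := G) hu
  set N : Finset (Finset V) := (comps G T).filter (fun C => u ∉ C) with hN
  set M : Finset (Finset V) := (comps G (insert u T)).filter (fun C => C ⊆ B) with hM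
  have e1 : comps G T = insert B N := by
    ext C
    simp only [Finset.mem_insert, hN, Finset.mem_filter, mem_comps]
    constructor
    · intro hC
      by_cases h : u ∈ C
      · exact Or.inl (hC.eq_of_mem hB h huB)
      · exact Or.inr ⟨hC, h⟩
    · rintro (rfl | h)
      · exact hB
      · exact h.1
  have hBN : B ∉ N := by simp [hN, huB]
  have hdisj : Disjoint N M := by
    rw [Finset.disjoint_left]
    intro C h1 h2
    simp only [hN, Finset.mem_filter, mem_comps] at h1
    simp only [hM, Finset.mem_filter] at h2
    obtain ⟨a, ha⟩ := h1.1.nonempty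
    have := h1.1.eq_of_mem hB ha (h2.2 ha)
    exact h1.2 (this ▸ huB)
  have e2 : comps G (insert u T) = N ∪ M := by
    ext C
    simp only [Finset.mem_union, hN, hM, Finset.mem_filter, mem_comps]
    constructor
    · intro hC
      obtain ⟨a, ha⟩ := hC.nonempty
      have haT : a ∉ T := fun h => hC.pr.1 a ha (Finset.mem_insert_of_mem h)
      have huC : u ∉ C := fun h => hC.pr.1 u h (Finset.mem_insert_self _ _)
      obtain ⟨B', hB', haB'⟩ := exists_comp (G := G) haT
      by_cases h : u ∈ B'
      · right
        refine ⟨hC, ?_⟩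
        have : B' = B := hB'.eq_of_mem hB h huB
        rw [← this]
        intro v hv
        exact hC.conn.subset hB'.pr
          (fun w hw h' => hC.pr.1 w (by simpa using hw) (Finset.mem_insert_of_mem h'))
          (by simpa using ha) haB' v (by simpa using hv)
      · left
        have : C = B' := hC.eq_of_mem (hB'.insert h) ha haB'
        rw [this]
        exact ⟨hB', h⟩
    · rintro (h | h)
      · exact h.1.insert h.2
      · exact h.1
  have hcT := hc T (by omega)
  have hcT' := hc (insert u T) (by rw [Finset.card_insert_of_notMem hu]; omega)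
  rw [e1, Finset.sum_insert hBN] at hcT
  rw [e2, Finset.sum_union hdisj] at hcT'
  have hφB : ∑ C ∈ M, φ C = φ B := by
    have := hcT.trans hcT'.symm
    rw [add_comm] at this
    exact (add_left_cancel this).symm
  have hvalM : ∀ C ∈ M, φ C * val F C = φ C * val F B := by
    intro C hC
    simp only [hM, Finset.mem_filter, mem_comps] at hC
    obtain ⟨a, ha⟩ := hC.1.nonempty
    rw [val_eq hF hC.1.conn (fun v hv h => hC.1.pr.1 v hv (Finset.mem_insert_of_mem h)) ha,
      val_eq hF hB.conn hB.pr.1 (hC.2 ha)]
  rw [e1, e2, Finset.sum_union hdisj, Finset.sum_insert hBN, Finset.sum_congr rfl hvalM,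
    ← Finset.sum_mul, hφB, add_comm]

/-- the functional on splines attached to a haven -/
noncomputable def Phi (G : SimpleGraph V) (j : ℕ) (φ : Finset V → K)
    (f : V → MvPolynomial V K) : K :=
  ∑ S ∈ (Finset.univ : Finset (Finset V)).filter (fun S => S.card ≤ j),
    ∑ C ∈ comps G S, φ C * val (fun v => kap S (f v)) C

lemma Phi_X_smul {G : SimpleGraph V} {j : ℕ} {φ : Finset V → K} (hφ : φ ∈ havens K G j)
    {f : V → MvPolynomial V K} (hf : f ∈ spl K G) {d : ℕ} (hd : d + 1 = j)
    (hhom : ∀ v, (f v).IsHomogeneous d) (u : V) :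
    Phi G j φ ((X u : MvPolynomial V K) • f) = 0 := by
  unfold Phi
  rw [← Finset.sum_filter_add_sum_filter_not _ (fun S : Finset V => u ∈ S)]
  -- terms with u ∈ S
  have e1 : ∑ S ∈ ((Finset.univ : Finset (Finset V)).filter (fun S => S.card ≤ j)).filter
      (fun S => u ∈ S), ∑ C ∈ comps G S,
        φ C * val (fun v => kap S (((X u : MvPolynomial V K) • f) v)) C =
      ∑ T ∈ ((Finset.univ : Finset (Finset V)).filter (fun T => T.card + 1 ≤ j)).filter
        (fun T => u ∉ T), - ∑ B ∈ comps G T, φ B * val (fun v => kap T (f v)) B := by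
    refine Finset.sum_nbij' (fun S => S.erase u) (fun T => insert u T) ?_ ?_ ?_ ?_ ?_
    · intro S hS
      simp only [Finset.mem_filter, Finset.mem_univ, true_and] at hS ⊢
      refine ⟨?_, Finset.notMem_erase u S⟩
      rw [Finset.card_erase_of_mem hS.2]
      have := Finset.card_pos.mpr ⟨u, hS.2⟩
      omega
    · intro T hT
      simp only [Finset.mem_filter, Finset.mem_univ, true_and] at hT ⊢
      refine ⟨?_, Finset.mem_insert_self u T⟩
      rw [Finset.card_insert_of_notMem hT.2]; exact hT.1
    · intro S hS
      simp only [Finset.mem_filter, Finset.mem_univ, true_and] at hS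
      exact Finset.insert_erase hS.2
    · intro T hT
      simp only [Finset.mem_filter, Finset.mem_univ, true_and] at hT
      exact Finset.erase_insert hT.2
    · intro S hS
      simp only [Finset.mem_filter, Finset.mem_univ, true_and] at hS
      set T := S.erase u with hT
      have huT : u ∉ T := Finset.notMem_erase u S
      have hST : S = insert u T := (Finset.insert_erase hS.2).symm
      have hcard : T.card + 1 ≤ j := by
        have := hS.1
        rw [hST, Finset.card_insert_of_notMem huT] at this
        exact this
      rw [← sum_insert_comps hφ huT hcard (fun a b hab ha hb => kap_congr hf ha hb hab), hST,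
        ← Finset.sum_neg_distrib]
      apply Finset.sum_congr rfl
      intro C _
      have : (fun v => kap (insert u T) (((X u : MvPolynomial V K) • f) v)) =
          fun v => - kap T (f v) := by
        funext v
        rw [Pi.smul_apply, smul_eq_mul, kap_X_mul_insert huT]
      rw [this]
      unfold val
      split_ifs
      · ring
      · ring
  have e2 : ∑ S ∈ ((Finset.univ : Finset (Finset V)).filter (fun S => S.card ≤ j)).filter
      (fun S => ¬ u ∈ S), ∑ C ∈ comps G S,
        φ C * val (fun v => kap S (((X u : MvPolynomial V K) • f) v)) C =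
      ∑ T ∈ ((Finset.univ : Finset (Finset V)).filter (fun T => T.card + 1 ≤ j)).filter
        (fun T => u ∉ T), ∑ B ∈ comps G T, φ B * val (fun v => kap T (f v)) B := by
    symm
    apply Finset.sum_subset_zero_on_sdiff
    · intro T hT
      simp only [Finset.mem_filter, Finset.mem_univ, true_and] at hT ⊢
      exact ⟨by omega, hT.2⟩
    · intro S hS
      simp only [Finset.mem_sdiff, Finset.mem_filter, Finset.mem_univ, true_and, not_and,
        not_not] at hS
      have hcard : d < S.card := by
        by_contra hcon
        exact hS.1.2 (hS.2 (by omega))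
      apply Finset.sum_eq_zero
      intro C _
      have : (fun v => kap S (((X u : MvPolynomial V K) • f) v)) = fun _ => 0 := by
        funext v
        rw [Pi.smul_apply, smul_eq_mul, kap_X_mul_of_notMem hS.1.2]
        exact kap_of_homogeneous (hhom v) hcard
      rw [this]
      unfold val
      split_ifs <;> simp
    · intro T hT
      simp only [Finset.mem_filter, Finset.mem_univ, true_and] at hT
      apply Finset.sum_congr rfl
      intro C _
      have : (fun v => kap T (((X u : MvPolynomial V K) • f) v)) = fun v => kap T (f v) := by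
        funext v
        rw [Pi.smul_apply, smul_eq_mul, kap_X_mul_of_notMem hT.2]
      rw [this]
  rw [e1, e2, ← Finset.sum_add_distrib]
  apply Finset.sum_eq_zero
  intro T _
  ring

lemma val_add (F F' : V → K) (C : Finset V) :
    val (fun v => F v + F' v) C = val F C + val F' C := by
  unfold val; split_ifs <;> simp

lemma val_mul (a : K) (F : V → K) (C : Finset V) :
    val (fun v => a * F v) C = a * val F C := by
  unfold val; split_ifs <;> simp

lemma Phi_add (G : SimpleGraph V) (j : ℕ) (φ : Finset V → K) (f g : V → MvPolynomial V K) :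
    Phi G j φ (f + g) = Phi G j φ f + Phi G j φ g := by
  unfold Phi
  rw [← Finset.sum_add_distrib]
  apply Finset.sum_congr rfl
  intro S _
  rw [← Finset.sum_add_distrib]
  apply Finset.sum_congr rfl
  intro C _
  have : (fun v => kap S ((f + g) v)) = fun v => kap S (f v) + kap S (g v) := by
    funext v; rw [Pi.add_apply, kap_add]
  rw [this, val_add, mul_add]

lemma Phi_C_smul (G : SimpleGraph V) (j : ℕ) (φ : Finset V → K) (a : K)
    (f : V → MvPolynomial V K) :
    Phi G j φ ((C a : MvPolynomial V K) • f) = a * Phi G j φ f := by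
  unfold Phi
  rw [Finset.mul_sum]
  apply Finset.sum_congr rfl
  intro S _
  rw [Finset.mul_sum]
  apply Finset.sum_congr rfl
  intro D _
  have : (fun v => kap S (((C a : MvPolynomial V K) • f) v)) = fun v => a * kap S (f v) := by
    funext v; rw [Pi.smul_apply, smul_eq_mul, kap_C_mul]
  rw [this, val_mul]; ring

lemma Phi_zero (G : SimpleGraph V) (j : ℕ) (φ : Finset V → K) :
    Phi G j φ (0 : V → MvPolynomial V K) = 0 := by
  have := Phi_C_smul G j φ (0 : K) (0 : V → MvPolynomial V K)
  rwa [zero_mul, smul_zero] at this

lemma Phi_sum (G : SimpleGraph V) (j : ℕ) (φ : Finset V → K) {ι : Type*} (t : Finset ι)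
    (f : ι → V → MvPolynomial V K) :
    Phi G j φ (∑ i ∈ t, f i) = ∑ i ∈ t, Phi G j φ (f i) := by
  classical
  induction t using Finset.induction_on with
  | empty => simp [Phi_zero]
  | insert i t hi ih => rw [Finset.sum_insert hi, Finset.sum_insert hi, Phi_add, ih]

lemma Phi_smul {G : SimpleGraph V} {j : ℕ} {φ : Finset V → K} (hφ : φ ∈ havens K G j)
    {f : V → MvPolynomial V K} (hf : f ∈ spl K G) {d m : ℕ} (hd : m + d = j)
    (hhom : ∀ v, (f v).IsHomogeneous d) {c : MvPolynomial V K} (hc : c.IsHomogeneous m) :
    Phi G j φ (c • f) = constantCoeff c * Phi G j φ f := by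
  rcases Nat.eq_zero_or_pos m with hm | hm
  · subst hm
    have hC : c = C (coeff 0 c) :=
      totalDegree_eq_zero_iff_eq_C.mp (Nat.le_zero.mp hc.totalDegree_le)
    rw [hC, Phi_C_smul]
    simp
  · have h0 : constantCoeff c = 0 := by
      rw [constantCoeff_eq]
      apply hc.coeff_eq_zero
      simp; omega
    rw [h0, zero_mul, c.as_sum, Finset.sum_smul, Phi_sum]
    apply Finset.sum_eq_zero
    intro e he
    have hdeg : e.degree = m := by
      by_contra hne
      exact (mem_support_iff.mp he) (hc.coeff_eq_zero hne)
    have hne : e ≠ 0 := by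
      rintro rfl
      simp at hdeg; omega
    obtain ⟨u, hu⟩ := Finsupp.support_nonempty_iff.mpr hne
    have hle : Finsupp.single u 1 ≤ e := by
      rw [Finsupp.single_le_iff]
      have := Finsupp.mem_support_iff.mp hu
      omega
    have h3 : e = (e - Finsupp.single u 1) + Finsupp.single u 1 := (tsub_add_cancel_of_le hle).symm
    have h1 : monomial e (coeff e c) = X u * monomial (e - Finsupp.single u 1) (coeff e c) := by
      rw [X, monomial_mul, one_mul, add_comm, ← h3]
    have h2 : (e - Finsupp.single u 1).degree + 1 = m := by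
      rw [← hdeg]
      conv_rhs => rw [h3]
      rw [map_add, Finsupp.degree_single]
    rw [h1, mul_smul]
    refine Phi_X_smul hφ (Submodule.smul_mem _ _ hf) (d := (m - 1) + d) (by omega) ?_ u
    intro v
    rw [Pi.smul_apply, smul_eq_mul]
    refine (isHomogeneous_monomial _ ?_).mul (hhom v)
    omega

lemma Phi_theta {G : SimpleGraph V} {j : ℕ} {φ : Finset V → K} {T B : Finset V}
    (hT : T.card = j) (hB : IsComp G T B) :
    Phi G j φ (theta K T B) = φ B := by
  unfold Phi
  rw [Finset.sum_eq_single_of_mem T (by simp [hT])]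
  · rw [Finset.sum_eq_single_of_mem B (mem_comps.mpr hB)]
    · rw [val, dif_pos hB.nonempty]
      have h1 := hB.nonempty.choose_spec
      simp only [theta, if_pos h1]
      rw [kap_prod (hB.pr.1 _ h1) le_rfl, if_pos rfl, mul_one]
    · intro C hC hne
      rw [mem_comps] at hC
      rw [val, dif_pos hC.nonempty]
      have h1 := hC.nonempty.choose_spec
      have h2 : hC.nonempty.choose ∉ B := fun h => hne (hC.eq_of_mem hB h1 h)
      simp only [theta, if_neg h2]
      have : kap T (0 : MvPolynomial V K) = 0 := by simp [kap]
      rw [this, mul_zero]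
  · intro S hS hne
    simp only [Finset.mem_filter, Finset.mem_univ, true_and] at hS
    apply Finset.sum_eq_zero
    intro C hC
    rw [mem_comps] at hC
    rw [val, dif_pos hC.nonempty]
    have h1 := hC.nonempty.choose_spec
    have h3 := hC.pr.1 _ h1
    simp only [theta]
    split_ifs with h2
    · rw [kap_prod h3 (by omega), if_neg hne, mul_zero]
    · simp [kap]

end locconst

end Pool.Agent.Lib.MP_a2ed14_ag
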