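import Pool.Agent.Lib.MP_a2ed14_ag.Haven

/-!
The dimension of the space of `K`-linear havens is the number of generators: conclusion.
-/

namespace Pool.Agent.Lib.MP_a2ed14_ag

open MvPolynomial Relation

section upper

variable {V : Type*} [Fintype V] [DecidableEq V] {K : Type*} [Field K]

lemma haven_zero {G : SimpleGraph V} {j : ℕ} {φ : Finset V → K} (hφ : φ ∈ havens K G j)
    (h0 : ∀ T B : Finset V, T.card = j → IsComp G T B → φ B = 0) : φ = 0 := by
  obtain ⟨h1, c, hc⟩ := hφ
  have key : ∀ (m : ℕ) (S : Finset V), S.card + m = j → ∀ C, IsComp G S C → φ C = 0 := by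
    intro m
    induction m with
    | zero => intro S hS C hC; exact h0 S C (by omega) hC
    | succ m ih =>
      intro S hS C hC
      obtain ⟨a, ha⟩ := hC.nonempty
      have haS : a ∉ S := hC.pr.1 a ha
      have hcard : (insert a S).card + m = j := by
        rw [Finset.card_insert_of_notMem haS]; omega
      have e1 := hc (insert a S) (by omega)
      rw [Finset.sum_eq_zero (fun C' hC' => ih (insert a S) hcard C' (mem_comps.mp hC'))] at e1
      have e2 := hc S (by omega)
      rw [Finset.sum_eq_single_of_mem C (mem_comps.mpr hC)] at e2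
      · rw [e2, e1]
      · intro B hB hne
        have hB' := mem_comps.mp hB
        have haB : a ∉ B := fun h => hne (hB'.eq_of_mem hC h ha)
        exact ih (insert a S) hcard B (hB'.insert haB)
  funext C
  by_cases h : ∃ S : Finset V, S.card ≤ j ∧ IsComp G S C
  · obtain ⟨S, hS, hC⟩ := h
    exact key (j - S.card) S (by omega) C hC
  · push Not at h
    exact h1 C h

lemma Res.haven_inj {G : SimpleGraph V} {n₀ n₁ : ℕ} {d₀ : Fin n₀ → ℕ} {d₁ : Fin n₁ → ℕ}
    {g : Fin n₀ → V → MvPolynomial V K} {A : Fin n₁ → Fin n₀ → MvPolynomial V K}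
    (h : Res (spl K G) d₀ d₁ g A) {j : ℕ} {φ : Finset V → K} (hφ : φ ∈ havens K G j)
    (h0 : ∀ i, d₀ i = j → Phi G j φ (g i) = 0) : φ = 0 := by
  apply haven_zero hφ
  intro T B hT hB
  rw [← Phi_theta (K := K) (φ := φ) hT hB]
  obtain ⟨c, hc, hc'⟩ := homog_coeff h.hg (f := theta K T B)
    (by rw [h.gen]; exact theta_mem hB.pr) (n := j) (by rw [← hT]; exact theta_hom T B)
  rw [← hc, Phi_sum]
  apply Finset.sum_eq_zero
  intro i _
  rcases hc' i with h1 | h1
  · rw [h1, zero_smul, Phi_zero]
  · have hgi : g i ∈ spl K G := by rw [← h.gen]; exact Submodule.subset_span ⟨i, rfl⟩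
    rw [Phi_smul hφ hgi (d := d₀ i) (m := j - d₀ i) (by omega) (h.hg i) h1.2]
    by_cases h2 : d₀ i = j
    · rw [h0 i h2, mul_zero]
    · have : constantCoeff (c i) = 0 := by
        rw [constantCoeff_eq]
        apply h1.2.coeff_eq_zero
        simp; omega
      rw [this, zero_mul]

/-- upper bound: the haven space has dimension at most the number of generators -/
lemma Res.finrank_le {G : SimpleGraph V} {n₀ n₁ : ℕ} {d₀ : Fin n₀ → ℕ} {d₁ : Fin n₁ → ℕ}
    {g : Fin n₀ → V → MvPolynomial V K} {A : Fin n₁ → Fin n₀ → MvPolynomial V K}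
    (h : Res (spl K G) d₀ d₁ g A) (j : ℕ) :
    Module.finrank K (havens K G j) ≤ Fintype.card {i // d₀ i = j} := by
  let L : havens K G j →ₗ[K] ({i // d₀ i = j} → K) :=
    { toFun := fun φ i => Phi G j (φ : Finset V → K) (g i)
      map_add' := by
        intro φ ψ
        funext i
        simp only [Phi, Submodule.coe_add, Pi.add_apply, add_mul, Finset.sum_add_distrib]
      map_smul' := by
        intro a φ
        funext i
        simp only [Phi, Submodule.coe_smul, Pi.smul_apply, smul_eq_mul, RingHom.id_apply,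
          Finset.mul_sum, mul_assoc] }
  have hinj : Function.Injective L := by
    rw [injective_iff_map_eq_zero]
    intro φ hφ
    apply Subtype.ext
    exact h.haven_inj φ.2 (fun i hi => congrFun hφ ⟨i, hi⟩)
  have := LinearMap.finrank_le_finrank_of_injective hinj
  simpa using this

end upper

section lower

variable {V : Type*} [Fintype V] [DecidableEq V] {K : Type*} [Field K]

variable {G : SimpleGraph V} {n₀ n₁ : ℕ} {d₀ : Fin n₀ → ℕ} {d₁ : Fin n₁ → ℕ}
    {g : Fin n₀ → V → MvPolynomial V K} {A : Fin n₁ → Fin n₀ → MvPolynomial V K}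

open Classical in
/-- chosen coefficients -/
noncomputable def coef (g : Fin n₀ → V → MvPolynomial V K) (f : V → MvPolynomial V K) :
    Fin n₀ → MvPolynomial V K :=
  if h : ∃ c : Fin n₀ → MvPolynomial V K, ∑ i, c i • g i = f then h.choose else 0

/-- the functional attached to a vector of constants -/
noncomputable def Psi (g : Fin n₀ → V → MvPolynomial V K) (a : Fin n₀ → K)
    (f : V → MvPolynomial V K) : K := ∑ i, a i * constantCoeff (coef g f i)

lemma Res.Psi_eq (h : Res (spl K G) d₀ d₁ g A) (a : Fin n₀ → K)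
    (c : Fin n₀ → MvPolynomial V K) :
    Psi g a (∑ i, c i • g i) = ∑ i, a i * constantCoeff (c i) := by
  have hex : ∃ c' : Fin n₀ → MvPolynomial V K, ∑ i, c' i • g i = ∑ i, c i • g i := ⟨c, rfl⟩
  unfold Psi
  apply Finset.sum_congr rfl
  intro i _
  congr 1
  have h1 : ∑ i, (coef g (∑ i, c i • g i) i - c i) • g i = 0 := by
    simp only [sub_smul, Finset.sum_sub_distrib]
    rw [sub_eq_zero]
    unfold coef
    rw [dif_pos hex]
    exact hex.choose_spec
  obtain ⟨e, he⟩ := h.exact _ h1
  have h2 : constantCoeff (coef g (∑ i, c i • g i) i - c i) = 0 := by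
    rw [he i, map_sum]
    apply Finset.sum_eq_zero
    intro r _
    rw [map_mul]
    have : constantCoeff (A r i) = 0 := by
      rcases h.hA r i with h3 | h3
      · rw [h3, map_zero]
      · rw [constantCoeff_eq]
        apply h3.2.coeff_eq_zero
        simp; omega
    rw [this, mul_zero]
  rw [map_sub, sub_eq_zero] at h2
  exact h2

lemma Res.exists_coef (h : Res (spl K G) d₀ d₁ g A) {f : V → MvPolynomial V K}
    (hf : f ∈ spl K G) : ∃ c : Fin n₀ → MvPolynomial V K, ∑ i, c i • g i = f := by
  rw [← h.gen] at hf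
  exact (Submodule.mem_span_range_iff_exists_fun _).mp hf

lemma Res.Psi_add (h : Res (spl K G) d₀ d₁ g A) (a : Fin n₀ → K) {f f' : V → MvPolynomial V K}
    (hf : f ∈ spl K G) (hf' : f' ∈ spl K G) :
    Psi g a (f + f') = Psi g a f + Psi g a f' := by
  obtain ⟨c, rfl⟩ := h.exists_coef hf
  obtain ⟨c', rfl⟩ := h.exists_coef hf'
  have : ∑ i, c i • g i + ∑ i, c' i • g i = ∑ i, (c i + c' i) • g i := by
    rw [← Finset.sum_add_distrib]
    apply Finset.sum_congr rfl
    intro i _
    rw [add_smul]
  rw [this, h.Psi_eq, h.Psi_eq, h.Psi_eq, ← Finset.sum_add_distrib]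
  apply Finset.sum_congr rfl
  intro i _
  rw [map_add, mul_add]

lemma Res.Psi_smul (h : Res (spl K G) d₀ d₁ g A) (a : Fin n₀ → K) {f : V → MvPolynomial V K}
    (hf : f ∈ spl K G) (q : MvPolynomial V K) :
    Psi g a (q • f) = constantCoeff q * Psi g a f := by
  obtain ⟨c, rfl⟩ := h.exists_coef hf
  have : q • ∑ i, c i • g i = ∑ i, (q * c i) • g i := by
    rw [Finset.smul_sum]
    apply Finset.sum_congr rfl
    intro i _
    rw [smul_smul]
  rw [this, h.Psi_eq, h.Psi_eq, Finset.mul_sum]
  apply Finset.sum_congr rfl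
  intro i _
  rw [map_mul]; ring

lemma Res.Psi_gen (h : Res (spl K G) d₀ d₁ g A) (a : Fin n₀ → K) (i : Fin n₀) :
    Psi g a (g i) = a i := by
  have : g i = ∑ k, (Pi.single i (1 : MvPolynomial V K) : Fin n₀ → MvPolynomial V K) k • g k := by
    rw [Finset.sum_eq_single_of_mem i (Finset.mem_univ i)]
    · simp
    · intro k _ hk
      rw [Pi.single_eq_of_ne hk, zero_smul]
  rw [this, h.Psi_eq, Finset.sum_eq_single_of_mem i (Finset.mem_univ i)]
  · simp
  · intro k _ hk
    rw [Pi.single_eq_of_ne hk]; simp

lemma Res.Psi_sum (h : Res (spl K G) d₀ d₁ g A) (a : Fin n₀ → K) {ι : Type*} (t : Finset ι)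
    {f : ι → V → MvPolynomial V K} (hf : ∀ i ∈ t, f i ∈ spl K G) :
    Psi g a (∑ i ∈ t, f i) = ∑ i ∈ t, Psi g a (f i) := by
  classical
  induction t using Finset.induction_on with
  | empty =>
    rw [Finset.sum_empty, Finset.sum_empty]
    have := h.Psi_smul a (Submodule.zero_mem (spl K G)) 0
    rwa [smul_zero, map_zero, zero_mul] at this
  | insert i t hi ih =>
    rw [Finset.sum_insert hi, Finset.sum_insert hi,
      h.Psi_add a (hf i (Finset.mem_insert_self _ _))
        (Submodule.sum_mem _ (fun k hk => hf k (Finset.mem_insert_of_mem hk))),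
      ih (fun k hk => hf k (Finset.mem_insert_of_mem hk))]

/-- multiplication by the `m`-th power of the tautological element -/
noncomputable def zp (m : ℕ) (f : V → MvPolynomial V K) : V → MvPolynomial V K :=
  fun v => X v ^ m * f v

lemma zp_mem {f : V → MvPolynomial V K} (hf : f ∈ spl K G) (m : ℕ) : zp m f ∈ spl K G := by
  intro u v huv
  have : zp m f u - zp m f v = X u ^ m * (f u - f v) + (X u ^ m - X v ^ m) * f v := by
    unfold zp; ring
  rw [this]
  exact dvd_add (Dvd.dvd.mul_left (hf u v huv) _)
    (Dvd.dvd.mul_right (sub_dvd_pow_sub_pow _ _ _) _)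

lemma Pr.insert_erase {S U : Finset V} (h : Pr G S U) (u : V) :
    Pr G (insert u S) (U.erase u) := by
  refine ⟨?_, ?_⟩
  · intro v hv hvS
    rw [Finset.mem_erase] at hv
    rcases Finset.mem_insert.mp hvS with h1 | h1
    · exact hv.1 h1
    · exact h.1 v hv.2 h1
  · intro v hv w hvw
    rw [Finset.mem_erase] at hv
    by_cases hw : w = u
    · right; rw [hw]; exact Finset.mem_insert_self _ _
    · rcases h.2 v hv.2 w hvw with h1 | h1
      · left; rw [Finset.mem_erase]; exact ⟨hw, h1⟩
      · right; exact Finset.mem_insert_of_mem h1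

lemma zp_theta_insert {S U : Finset V} {u : V} (hu : u ∉ S) (m : ℕ) :
    zp m (theta K (insert u S) (U.erase u)) =
      zp (m + 1) (theta K S U) - (X u : MvPolynomial V K) • zp m (theta K S U) := by
  funext v
  simp only [zp, theta, Pi.sub_apply, Pi.smul_apply, smul_eq_mul, Finset.mem_erase]
  by_cases hvU : v ∈ U
  · by_cases hvu : v = u
    · subst hvu
      simp only [ne_eq, not_true_eq_false, false_and, if_false, if_pos hvU]
      ring
    · simp only [ne_eq, hvu, not_false_eq_true, hvU, and_self, if_true]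
      rw [Finset.prod_insert hu]; ring
  · simp [hvU]

lemma Res.Psi_step (h : Res (spl K G) d₀ d₁ g A) (a : Fin n₀ → K) {S U : Finset V}
    (hSU : Pr G S U) {u : V} (hu : u ∉ S) (m : ℕ) :
    Psi g a (zp m (theta K (insert u S) (U.erase u))) = Psi g a (zp (m + 1) (theta K S U)) := by
  rw [zp_theta_insert hu, sub_eq_add_neg, ← neg_smul, h.Psi_add a (zp_mem (theta_mem hSU) _)
    (Submodule.smul_mem _ _ (zp_mem (theta_mem hSU) _)), h.Psi_smul a (zp_mem (theta_mem hSU) _)]
  simp

lemma Res.Psi_many (h : Res (spl K G) d₀ d₁ g A) (a : Fin n₀ → K) {j : ℕ} {S U : Finset V}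
    (hSU : Pr G S U) (R : Finset V) (hR : Disjoint R S) (hcard : S.card + R.card ≤ j) :
    Psi g a (zp (j - (S ∪ R).card) (theta K (S ∪ R) (U \ R))) =
      Psi g a (zp (j - S.card) (theta K S U)) ∧ Pr G (S ∪ R) (U \ R) := by
  induction R using Finset.induction_on with
  | empty => simp [hSU]
  | insert u R hu ih =>
    rw [Finset.card_insert_of_notMem hu] at hcard
    have hR' : Disjoint R S := Finset.disjoint_of_subset_left (Finset.subset_insert u R) hR
    obtain ⟨ih1, ih2⟩ := ih hR' (by omega)
    have huS : u ∉ S := Finset.disjoint_left.mp hR (Finset.mem_insert_self u R)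
    have huSR : u ∉ S ∪ R := by
      rw [Finset.mem_union]; rintro (h1 | h1)
      · exact huS h1
      · exact hu h1
    have hc1 : (S ∪ R).card = S.card + R.card := Finset.card_union_of_disjoint hR'.symm
    have e1 : S ∪ insert u R = insert u (S ∪ R) := by
      ext v; simp only [Finset.mem_union, Finset.mem_insert]; tauto
    have e2 : U \ insert u R = (U \ R).erase u := by
      ext v; simp only [Finset.mem_sdiff, Finset.mem_insert, Finset.mem_erase]; tauto
    rw [e1, e2]
    refine ⟨?_, ih2.insert_erase u⟩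
    rw [h.Psi_step a ih2 huSR, ← ih1, Finset.card_insert_of_notMem huSR]
    congr 2
    omega

/-- the haven attached to a vector of constants -/
noncomputable def nbr (G : SimpleGraph V) (C : Finset V) : Finset V := by
  classical
  exact Finset.univ.filter (fun v => v ∉ C ∧ ∃ u ∈ C, G.Adj u v)

open Classical in
noncomputable def hav (G : SimpleGraph V) (g : Fin n₀ → V → MvPolynomial V K) (j : ℕ)
    (a : Fin n₀ → K) (C : Finset V) : K :=
  if ∃ S : Finset V, S.card ≤ j ∧ IsComp G S C then
    Psi g a (zp (j - (nbr G C).card) (theta K (nbr G C) C)) else 0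

lemma nbr_subset {S C : Finset V} (h : IsComp G S C) : nbr G C ⊆ S := by
  intro v hv
  simp only [nbr, Finset.mem_filter, Finset.mem_univ, true_and] at hv
  obtain ⟨hvC, u, hu, huv⟩ := hv
  rcases h.pr.2 u hu v huv with h1 | h1
  · exact (hvC h1).elim
  · exact h1

lemma nbr_pr (C : Finset V) : Pr G (nbr G C) C := by
  refine ⟨?_, ?_⟩
  · intro v hv hv'
    simp only [nbr, Finset.mem_filter, Finset.mem_univ, true_and] at hv'
    exact hv'.1 hv
  · intro v hv w hvw
    by_cases hw : w ∈ C
    · exact Or.inl hw
    · right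
      simp only [nbr, Finset.mem_filter, Finset.mem_univ, true_and]
      exact ⟨hw, v, hv, hvw⟩

lemma Res.hav_eq (h : Res (spl K G) d₀ d₁ g A) (a : Fin n₀ → K) {j : ℕ} {S C : Finset V}
    (hS : S.card ≤ j) (hC : IsComp G S C) :
    hav G g j a C = Psi g a (zp (j - S.card) (theta K S C)) := by
  unfold hav
  rw [if_pos ⟨S, hS, hC⟩]
  have hsub := nbr_subset hC
  have h1 := (h.Psi_many a (j := j) (nbr_pr (G := G) C) (S \ nbr G C)
    Finset.sdiff_disjoint (by
      rw [Finset.card_sdiff_of_subset hsub]
      have := Finset.card_le_card hsub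
      omega)).1
  rw [Finset.union_sdiff_of_subset hsub] at h1
  have h2 : C \ (S \ nbr G C) = C := by
    rw [Finset.sdiff_eq_self_iff_disjoint]
    rw [Finset.disjoint_left]
    intro v hv hv'
    exact hC.pr.1 v hv (Finset.mem_sdiff.mp hv').1
  rw [h2] at h1
  exact h1.symm

lemma theta_sum_comps {S U : Finset V} (hSU : Pr G S U) :
    theta K S U = ∑ C ∈ (comps G S).filter (fun C => C ⊆ U), theta K S C := by
  funext v
  rw [Finset.sum_apply]
  by_cases hv : v ∈ U
  · obtain ⟨B, hB, hvB⟩ := exists_comp (G := G) (hSU.1 v hv)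
    have hBU : B ⊆ U := by
      intro w hw
      exact hB.conn.subset hSU (fun u hu => hB.pr.1 u (by simpa using hu)) (by simpa using hvB) hv w
        (by simpa using hw)
    rw [Finset.sum_eq_single_of_mem B (by rw [Finset.mem_filter, mem_comps]; exact ⟨hB, hBU⟩)]
    · simp only [theta, if_pos hv, if_pos hvB]
    · intro C hC hne
      rw [Finset.mem_filter, mem_comps] at hC
      have : v ∉ C := fun h' => hne (hC.1.eq_of_mem hB h' hvB)
      simp only [theta, if_neg this]
  · rw [Finset.sum_eq_zero]
    · simp only [theta, if_neg hv]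
    · intro C hC
      rw [Finset.mem_filter] at hC
      simp only [theta, if_neg (fun h' => hv (hC.2 h'))]

lemma zp_sum {ι : Type*} (t : Finset ι) (m : ℕ) (f : ι → V → MvPolynomial V K) :
    zp m (∑ i ∈ t, f i) = ∑ i ∈ t, zp m (f i) := by
  funext v
  simp only [zp, Finset.sum_apply, Finset.mul_sum]

lemma Res.hav_mem (h : Res (spl K G) d₀ d₁ g A) (a : Fin n₀ → K) (j : ℕ) :
    hav G g j a ∈ havens K G j := by
  refine ⟨?_, Psi g a (zp j (theta K ∅ Finset.univ)), ?_⟩
  · intro C hC
    unfold hav
    rw [if_neg]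
    push Not
    exact hC
  · intro S hS
    rw [Finset.sum_congr rfl (fun C hC => h.hav_eq a hS (mem_comps.mp hC)),
      ← h.Psi_sum a _ (fun C hC => zp_mem (theta_mem (mem_comps.mp hC).pr) _), ← zp_sum]
    have h1 : ∑ C ∈ comps G S, theta K S C = theta K S Sᶜ := by
      rw [theta_sum_comps (Pr_compl G S), Finset.filter_true_of_mem]
      intro C hC v hv
      rw [Finset.mem_compl]
      exact (mem_comps.mp hC).pr.1 v hv
    rw [h1]
    have hpr : Pr G ∅ Finset.univ := ⟨by simp, by simp⟩
    have h2 := (h.Psi_many a (j := j) hpr S (by simp) (by simpa using hS)).1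
    rw [Finset.empty_union, Finset.card_empty, Nat.sub_zero] at h2
    rw [← h2]
    congr 2

lemma Res.hav_inj (h : Res (spl K G) d₀ d₁ g A) (hgen : spl K G ≤ tspan K G) {j : ℕ}
    {a : Fin n₀ → K} (ha : ∀ i, d₀ i ≠ j → a i = 0) (h0 : hav G g j a = 0) : a = 0 := by
  -- Psi vanishes on all theta
  have h1 : ∀ S U : Finset V, Pr G S U → Psi g a (theta K S U) = 0 := by
    intro S U hSU
    by_cases hS : S.card = j
    · rw [theta_sum_comps hSU, h.Psi_sum a]
      · apply Finset.sum_eq_zero
        intro C hC
        rw [Finset.mem_filter, mem_comps] at hC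
        have h2 := h.hav_eq a (le_of_eq hS) hC.1
        rw [h0, hS, Nat.sub_self] at h2
        have : zp 0 (theta K S C) = theta K S C := by
          funext v; simp [zp]
        rw [this] at h2
        exact h2.symm
      · intro C hC
        rw [Finset.mem_filter, mem_comps] at hC
        exact theta_mem hC.1.pr
    · obtain ⟨c, hc, hc'⟩ := homog_coeff h.hg (f := theta K S U)
        (by rw [h.gen]; exact theta_mem hSU) (theta_hom S U)
      rw [← hc, h.Psi_eq]
      apply Finset.sum_eq_zero
      intro i _
      by_cases hi : d₀ i = j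
      · rcases hc' i with h3 | h3
        · rw [h3]; simp
        · have : constantCoeff (c i) = 0 := by
            rw [constantCoeff_eq]
            apply h3.2.coeff_eq_zero
            simp; omega
          rw [this, mul_zero]
      · rw [ha i hi, zero_mul]
  have h2 : ∀ f ∈ spl K G, Psi g a f = 0 := by
    intro f hf
    have hf' := hgen hf
    unfold tspan at hf'
    have h3 : f ∈ spl K G ∧ Psi g a f = 0 := by
      refine Submodule.span_induction (p := fun f _ => f ∈ spl K G ∧ Psi g a f = 0)
        ?_ ?_ ?_ ?_ hf'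
      · rintro _ ⟨S, U, hSU, rfl⟩
        exact ⟨theta_mem hSU, h1 S U hSU⟩
      · refine ⟨Submodule.zero_mem _, ?_⟩
        have := h.Psi_smul a (Submodule.zero_mem (spl K G)) 0
        rwa [smul_zero, map_zero, zero_mul] at this
      · rintro x y _ _ ⟨hx1, hx2⟩ ⟨hy1, hy2⟩
        refine ⟨Submodule.add_mem _ hx1 hy1, ?_⟩
        rw [h.Psi_add a hx1 hy1, hx2, hy2, add_zero]
      · rintro q x _ ⟨hx1, hx2⟩
        refine ⟨Submodule.smul_mem _ _ hx1, ?_⟩
        rw [h.Psi_smul a hx1, hx2, mul_zero]
    exact h3.2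
  funext i
  rw [← h.Psi_gen a i, Pi.zero_apply]
  apply h2
  rw [← h.gen]; exact Submodule.subset_span ⟨i, rfl⟩

lemma Res.le_finrank (h : Res (spl K G) d₀ d₁ g A) (hgen : spl K G ≤ tspan K G) (j : ℕ) :
    Fintype.card {i // d₀ i = j} ≤ Module.finrank K (havens K G j) := by
  classical
  let ext : ({i // d₀ i = j} → K) → Fin n₀ → K := fun b i => if hi : d₀ i = j then b ⟨i, hi⟩ else 0
  let L : ({i // d₀ i = j} → K) →ₗ[K] havens K G j :=
    { toFun := fun b => ⟨hav G g j (ext b), h.hav_mem _ j⟩
      map_add' := by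
        intro b b'
        apply Subtype.ext
        funext C
        simp only [Submodule.coe_add, Pi.add_apply]
        unfold hav
        split_ifs with hC
        · unfold Psi
          rw [← Finset.sum_add_distrib]
          apply Finset.sum_congr rfl
          intro i _
          simp only [ext]
          split_ifs
          · rw [Pi.add_apply, add_mul]
          · ring
        · simp
      map_smul' := by
        intro r b
        apply Subtype.ext
        funext C
        simp only [Submodule.coe_smul, Pi.smul_apply, smul_eq_mul, RingHom.id_apply]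
        unfold hav
        split_ifs with hC
        · unfold Psi
          rw [Finset.mul_sum]
          apply Finset.sum_congr rfl
          intro i _
          simp only [ext]
          split_ifs
          · rw [Pi.smul_apply, smul_eq_mul, mul_assoc]
          · ring
        · simp }
  have hinj : Function.Injective L := by
    rw [injective_iff_map_eq_zero]
    intro b hb
    have h1 : hav G g j (ext b) = 0 := congrArg Subtype.val hb
    have h2 := h.hav_inj hgen (a := ext b) (fun i hi => by simp only [ext]; rw [dif_neg hi]) h1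
    funext i
    have h3 := congrFun h2 i.1
    simp only [ext] at h3
    rw [dif_pos i.2] at h3
    exact h3
  have := LinearMap.finrank_le_finrank_of_injective hinj
  simpa using this

theorem Res.card_eq (h : Res (spl K G) d₀ d₁ g A) (hgen : spl K G ≤ tspan K G) (j : ℕ) :
    Fintype.card {i // d₀ i = j} = Module.finrank K (havens K G j) :=
  le_antisymm (h.le_finrank hgen j) (h.finrank_le j)

end lower

end Pool.Agent.Lib.MP_a2ed14_ag
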