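import Pool.Agent.Lib.MP_a2ed14_ag.Alg

/-!
Minimal graded free resolutions of length at most one and the induction step.
-/

namespace Pool.Agent.Lib.MP_a2ed14_ag

open MvPolynomial

variable {V : Type*} {K : Type*} [Field K]

/-- concrete minimal graded free resolution of length one: generators `g`, relations `A` -/
structure Res (D : Submodule (MvPolynomial V K) (V → MvPolynomial V K)) {ι₀ ι₁ : Type}
    [Fintype ι₀] [Fintype ι₁] (d₀ : ι₀ → ℕ) (d₁ : ι₁ → ℕ) (g : ι₀ → V → MvPolynomial V K)
    (A : ι₁ → ι₀ → MvPolynomial V K) : Prop where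
  hg : ∀ i v, (g i v).IsHomogeneous (d₀ i)
  hA : ∀ r i, A r i = 0 ∨ (d₀ i < d₁ r ∧ (A r i).IsHomogeneous (d₁ r - d₀ i))
  gen : Submodule.span (MvPolynomial V K) (Set.range g) = D
  rel : ∀ r, ∑ i, A r i • g i = 0
  exact : ∀ c : ι₀ → MvPolynomial V K, ∑ i, c i • g i = 0 →
    ∃ e : ι₁ → MvPolynomial V K, ∀ i, c i = ∑ r, e r * A r i
  inj : ∀ e : ι₁ → MvPolynomial V K, (∀ i, ∑ r, e r * A r i = 0) → ∀ r, e r = 0

lemma homog_coeff {ι₀ : Type} [Fintype ι₀] {d₀ : ι₀ → ℕ} {g : ι₀ → V → MvPolynomial V K}
    (hg : ∀ i v, (g i v).IsHomogeneous (d₀ i)) {f : V → MvPolynomial V K}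
    (hf : f ∈ Submodule.span (MvPolynomial V K) (Set.range g)) {n : ℕ}
    (hn : ∀ v, (f v).IsHomogeneous n) :
    ∃ c : ι₀ → MvPolynomial V K, ∑ i, c i • g i = f ∧
      ∀ i, c i = 0 ∨ (d₀ i ≤ n ∧ (c i).IsHomogeneous (n - d₀ i)) := by
  classical
  obtain ⟨a, ha⟩ := (Submodule.mem_span_range_iff_exists_fun _).mp hf
  refine ⟨fun i => if d₀ i ≤ n then homogeneousComponent (n - d₀ i) (a i) else 0, ?_, ?_⟩
  · funext v
    have h1 : homogeneousComponent n (f v) = f v := by
      rw [homogeneousComponent_of_mem ((mem_homogeneousSubmodule n _).mpr (hn v)), if_pos rfl]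
    rw [← h1, ← ha]
    simp only [Finset.sum_apply, Pi.smul_apply, smul_eq_mul, map_sum]
    apply Finset.sum_congr rfl
    intro i _
    rw [hc_mul _ (hg i v)]
    split_ifs
    · rfl
    · simp
  · intro i
    simp only
    split_ifs with h
    · exact Or.inr ⟨h, homogeneousComponent_isHomogeneous _ _⟩
    · exact Or.inl rfl

open Polynomial in
/-- generating polynomial of a list of degrees -/
noncomputable def gp {ι : Type} [Fintype ι] (d : ι → ℕ) : ℤ[X] := ∑ i, (Polynomial.X : ℤ[X]) ^ d i

/-- existence of a resolution with prescribed Euler characteristic -/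
def HasRes (D : Submodule (MvPolynomial V K) (V → MvPolynomial V K)) (P : Polynomial ℤ) : Prop :=
  ∃ (n₀ n₁ : ℕ) (d₀ : Fin n₀ → ℕ) (d₁ : Fin n₁ → ℕ)
    (g : Fin n₀ → V → MvPolynomial V K) (A : Fin n₁ → Fin n₀ → MvPolynomial V K),
    Res D d₀ d₁ g A ∧ gp d₀ - gp d₁ = P

variable {D D' : Submodule (MvPolynomial V K) (V → MvPolynomial V K)}

/-- first case of the induction step: a new generator and a new relation -/
lemma Res.step1 {n₀ n₁ : ℕ} {d₀ : Fin n₀ → ℕ} {d₁ : Fin n₁ → ℕ}
    {g : Fin n₀ → V → MvPolynomial V K} {A : Fin n₁ → Fin n₀ → MvPolynomial V K}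
    (h : Res D' d₀ d₁ g A) {θ : V → MvPolynomial V K} {s : ℕ} {α : MvPolynomial V K}
    (hθ : ∀ v, (θ v).IsHomogeneous s) (hα : α.IsHomogeneous 1) (hα0 : α ≠ 0)
    (hD : D' ≤ D) (hθD : θ ∈ D) (hdec : ∀ f ∈ D, ∃ q : MvPolynomial V K, f - q • θ ∈ D')
    (hdvd : ∀ q : MvPolynomial V K, q • θ ∈ D' → α ∣ q)
    {c : Fin n₀ → MvPolynomial V K} (hc : ∑ i, c i • g i = α • θ)
    (hc' : ∀ i, c i = 0 ∨ (d₀ i < s + 1 ∧ (c i).IsHomogeneous (s + 1 - d₀ i))) :
    Res D (Fin.cons s d₀ : Fin (n₀ + 1) → ℕ) (Fin.cons (s + 1) d₁ : Fin (n₁ + 1) → ℕ)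
      (Fin.cons θ g : Fin (n₀ + 1) → V → MvPolynomial V K)
      (Fin.cons (Fin.cons α (fun i => - c i)) (fun r => Fin.cons 0 (A r)) :
        Fin (n₁ + 1) → Fin (n₀ + 1) → MvPolynomial V K) := by
  refine ⟨?_, ?_, ?_, ?_, ?_, ?_⟩
  · intro i v
    refine Fin.cases ?_ ?_ i
    · simpa using hθ v
    · intro j; simpa using h.hg j v
  · intro r i
    refine Fin.cases ?_ ?_ r
    · refine Fin.cases ?_ ?_ i
      · right
        simp only [Fin.cons_zero]
        exact ⟨by omega, by simpa using hα⟩
      · intro j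
        simp only [Fin.cons_zero, Fin.cons_succ]
        rcases hc' j with h1 | h1
        · left; rw [h1, neg_zero]
        · right; exact ⟨h1.1, h1.2.neg⟩
    · intro r'
      refine Fin.cases ?_ ?_ i
      · left; simp
      · intro j
        simpa using h.hA r' j
  · apply le_antisymm
    · rw [Submodule.span_le]
      rintro _ ⟨i, rfl⟩
      refine Fin.cases ?_ ?_ i
      · simpa using hθD
      · intro j
        simp only [Fin.cons_succ]
        apply hD
        rw [← h.gen]
        exact Submodule.subset_span ⟨j, rfl⟩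
    · intro f hf
      obtain ⟨q, hq⟩ := hdec f hf
      have h1 : f = q • θ + (f - q • θ) := by abel
      rw [h1]
      apply Submodule.add_mem
      · apply Submodule.smul_mem
        apply Submodule.subset_span
        exact ⟨0, by simp⟩
      · rw [← h.gen] at hq
        refine Submodule.span_mono ?_ hq
        rintro _ ⟨j, rfl⟩
        exact ⟨j.succ, by simp⟩
  · intro r
    refine Fin.cases ?_ ?_ r
    · rw [Fin.sum_univ_succ]
      simp only [Fin.cons_zero, Fin.cons_succ, neg_smul, Finset.sum_neg_distrib, hc]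
      abel
    · intro r'
      rw [Fin.sum_univ_succ]
      simp only [Fin.cons_zero, Fin.cons_succ, zero_smul, zero_add]
      exact h.rel r'
  · intro b hb
    rw [Fin.sum_univ_succ] at hb
    simp only [Fin.cons_zero, Fin.cons_succ] at hb
    have h1 : b 0 • θ ∈ D' := by
      have : b 0 • θ = - ∑ i : Fin n₀, b i.succ • g i := by
        rw [eq_neg_iff_add_eq_zero]; exact hb
      rw [this, ← h.gen]
      apply Submodule.neg_mem
      apply Submodule.sum_mem
      intro i _
      exact Submodule.smul_mem _ _ (Submodule.subset_span ⟨i, rfl⟩)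
    obtain ⟨q, hq⟩ := hdvd _ h1
    have h2 : ∑ i : Fin n₀, (b i.succ + q * c i) • g i = 0 := by
      simp only [add_smul, mul_smul, Finset.sum_add_distrib]
      rw [← Finset.smul_sum, hc, smul_smul, mul_comm q α, ← hq, add_comm]
      exact hb
    obtain ⟨e, he⟩ := h.exact _ h2
    refine ⟨Fin.cons q e, ?_⟩
    intro i
    rw [Fin.sum_univ_succ]
    refine Fin.cases ?_ ?_ i
    · simp only [Fin.cons_zero, Fin.cons_succ, mul_zero, Finset.sum_const_zero, add_zero]
      rw [hq, mul_comm]
    · intro j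
      simp only [Fin.cons_zero, Fin.cons_succ]
      rw [← he j]; ring
  · intro e he
    have h0 := he 0
    rw [Fin.sum_univ_succ] at h0
    simp only [Fin.cons_zero, Fin.cons_succ, mul_zero, Finset.sum_const_zero, add_zero] at h0
    have he0 : e 0 = 0 := by
      rcases mul_eq_zero.mp h0 with h1 | h1
      · exact h1
      · exact (hα0 h1).elim
    have h1 : ∀ i : Fin n₀, ∑ r : Fin n₁, e r.succ * A r i = 0 := by
      intro i
      have := he i.succ
      rw [Fin.sum_univ_succ] at this
      simpa [he0] using this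
    have h2 := h.inj _ h1
    intro r
    refine Fin.cases he0 ?_ r
    exact h2

/-- second case of the induction step: `θ` replaces an old generator -/
lemma Res.step2 {n₀ n₁ : ℕ} {d₀ : Fin n₀ → ℕ} {d₁ : Fin n₁ → ℕ}
    {g : Fin n₀ → V → MvPolynomial V K} {A : Fin n₁ → Fin n₀ → MvPolynomial V K}
    (h : Res D' d₀ d₁ g A) {θ : V → MvPolynomial V K} {s : ℕ} {α : MvPolynomial V K}
    (hθ : ∀ v, (θ v).IsHomogeneous s) (hα : α.IsHomogeneous 1) (hα0 : α ≠ 0)
    (hD : D' ≤ D) (hθD : θ ∈ D) (hdec : ∀ f ∈ D, ∃ q : MvPolynomial V K, f - q • θ ∈ D')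
    (hdvd : ∀ q : MvPolynomial V K, q • θ ∈ D' → α ∣ q)
    {c : Fin n₀ → MvPolynomial V K} (hc : ∑ i, c i • g i = α • θ)
    (hc' : ∀ i, c i = 0 ∨ (d₀ i ≤ s + 1 ∧ (c i).IsHomogeneous (s + 1 - d₀ i)))
    {i₀ : Fin n₀} (hi₀ : d₀ i₀ = s + 1) {u : K} (hu : u ≠ 0) (hcu : c i₀ = C u) :
    Res D (Function.update d₀ i₀ s) d₁ (Function.update g i₀ θ)
      (fun r => Function.update (fun k => A r k - A r i₀ * C u⁻¹ * c k) i₀
        (A r i₀ * C u⁻¹ * α)) := by
  classical
  have huC : (C u⁻¹ : MvPolynomial V K) * C u = 1 := by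
    rw [← C_mul, inv_mul_cancel₀ hu, C_1]
  have sumupd : ∀ (a : Fin n₀ → MvPolynomial V K),
      ∑ i, a i • (Function.update g i₀ θ) i = a i₀ • θ + ∑ i ∈ Finset.univ.erase i₀, a i • g i := by
    intro a
    rw [← Finset.add_sum_erase _ _ (Finset.mem_univ i₀)]
    congr 1
    · simp
    · apply Finset.sum_congr rfl
      intro i hi
      rw [Function.update_of_ne (Finset.ne_of_mem_erase hi)]
  have gi0 : g i₀ = (C u⁻¹ : MvPolynomial V K) • (α • θ - ∑ i ∈ Finset.univ.erase i₀, c i • g i) := by
    rw [← hc, ← Finset.add_sum_erase _ _ (Finset.mem_univ i₀), add_sub_cancel_right, smul_smul,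
      hcu, huC, one_smul]
  refine ⟨?_, ?_, ?_, ?_, ?_, ?_⟩
  · intro i v
    by_cases hi : i = i₀
    · subst hi; simpa using hθ v
    · rw [Function.update_of_ne hi, Function.update_of_ne hi]; exact h.hg i v
  · intro r i
    have hAi : A r i₀ = 0 ∨ (s + 1 < d₁ r ∧ (A r i₀).IsHomogeneous (d₁ r - (s + 1))) := by
      have := h.hA r i₀; rwa [hi₀] at this
    by_cases hi : i = i₀
    · subst hi
      simp only [Function.update_self]
      rcases hAi with h1 | h1
      · left; rw [h1]; simp
      · right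
        refine ⟨by omega, ?_⟩
        have h2 := (h1.2.mul (isHomogeneous_C V u⁻¹)).mul hα
        rwa [show d₁ r - (s + 1) + 0 + 1 = d₁ r - s by omega] at h2
    · simp only [Function.update_of_ne hi]
      rcases hAi with h1 | h1
      · rw [h1]
        simpa using h.hA r i
      · rcases hc' i with h3 | h3
        · rw [h3]; simpa using h.hA r i
        · right
          have hlt : d₀ i < d₁ r := by omega
          refine ⟨hlt, ?_⟩
          have h4 : (A r i).IsHomogeneous (d₁ r - d₀ i) := by
            rcases h.hA r i with h5 | h5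
            · rw [h5]; exact isHomogeneous_zero _ _ _
            · exact h5.2
          have h2 := (h1.2.mul (isHomogeneous_C V u⁻¹)).mul h3.2
          rw [show d₁ r - (s + 1) + 0 + (s + 1 - d₀ i) = d₁ r - d₀ i by omega] at h2
          exact h4.sub h2
  · apply le_antisymm
    · rw [Submodule.span_le]
      rintro _ ⟨i, rfl⟩
      by_cases hi : i = i₀
      · subst hi; simpa using hθD
      · rw [Function.update_of_ne hi]
        apply hD
        rw [← h.gen]
        exact Submodule.subset_span ⟨i, rfl⟩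
    · have hθ' : θ ∈ Submodule.span (MvPolynomial V K) (Set.range (Function.update g i₀ θ)) :=
        Submodule.subset_span ⟨i₀, by simp⟩
      have hne : ∀ i, i ≠ i₀ →
          g i ∈ Submodule.span (MvPolynomial V K) (Set.range (Function.update g i₀ θ)) := by
        intro i hi
        exact Submodule.subset_span ⟨i, by rw [Function.update_of_ne hi]⟩
      have hgall : ∀ i, g i ∈ Submodule.span (MvPolynomial V K)
          (Set.range (Function.update g i₀ θ)) := by
        intro i
        by_cases hi : i = i₀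
        · subst hi
          rw [gi0]
          apply Submodule.smul_mem
          apply Submodule.sub_mem
          · exact Submodule.smul_mem _ _ hθ'
          · apply Submodule.sum_mem
            intro k hk
            exact Submodule.smul_mem _ _ (hne k (Finset.ne_of_mem_erase hk))
        · exact hne i hi
      intro f hf
      obtain ⟨q, hq⟩ := hdec f hf
      have h1 : f = q • θ + (f - q • θ) := by abel
      rw [h1]
      apply Submodule.add_mem _ (Submodule.smul_mem _ _ hθ')
      rw [← h.gen] at hq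
      have : Submodule.span (MvPolynomial V K) (Set.range g) ≤
          Submodule.span (MvPolynomial V K) (Set.range (Function.update g i₀ θ)) := by
        rw [Submodule.span_le]
        rintro _ ⟨i, rfl⟩
        exact hgall i
      exact this hq
  · intro r
    rw [sumupd]
    simp only [Function.update_self]
    have e1 : ∑ i ∈ Finset.univ.erase i₀,
        (Function.update (fun k => A r k - A r i₀ * C u⁻¹ * c k) i₀ (A r i₀ * C u⁻¹ * α)) i • g i =
        ∑ i ∈ Finset.univ.erase i₀, (A r i • g i - (A r i₀ * C u⁻¹) • (c i • g i)) := by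
      apply Finset.sum_congr rfl
      intro i hi
      rw [Function.update_of_ne (Finset.ne_of_mem_erase hi), sub_smul, mul_smul _ (c i)]
    rw [e1, Finset.sum_sub_distrib, ← Finset.smul_sum]
    have e2 : ∑ i ∈ Finset.univ.erase i₀, A r i • g i = - (A r i₀ • g i₀) := by
      have := h.rel r
      rw [← Finset.add_sum_erase _ _ (Finset.mem_univ i₀)] at this
      exact (neg_eq_of_add_eq_zero_right this).symm
    have e3 : ∑ i ∈ Finset.univ.erase i₀, c i • g i = α • θ - c i₀ • g i₀ := by
      rw [← hc, ← Finset.add_sum_erase _ _ (Finset.mem_univ i₀)]; abel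
    rw [e2, e3, smul_sub, smul_smul, smul_smul, hcu, mul_assoc (A r i₀) (C u⁻¹) (C u), huC,
      mul_one]
    abel
  · intro b hb
    rw [sumupd] at hb
    have h1 : b i₀ • θ ∈ D' := by
      have : b i₀ • θ = - ∑ i ∈ Finset.univ.erase i₀, b i • g i := by
        rw [eq_neg_iff_add_eq_zero]; exact hb
      rw [this, ← h.gen]
      apply Submodule.neg_mem
      apply Submodule.sum_mem
      intro i _
      exact Submodule.smul_mem _ _ (Submodule.subset_span ⟨i, rfl⟩)
    obtain ⟨q, hq⟩ := hdvd _ h1
    have h2 : ∑ i, (Function.update (fun k => b k + q * c k) i₀ (q * C u)) i • g i = 0 := by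
      rw [← Finset.add_sum_erase _ _ (Finset.mem_univ i₀), Function.update_self]
      have e1 : ∑ i ∈ Finset.univ.erase i₀,
          (Function.update (fun k => b k + q * c k) i₀ (q * C u)) i • g i =
          ∑ i ∈ Finset.univ.erase i₀, (b i • g i + q • (c i • g i)) := by
        apply Finset.sum_congr rfl
        intro i hi
        rw [Function.update_of_ne (Finset.ne_of_mem_erase hi), add_smul, mul_smul]
      rw [e1, Finset.sum_add_distrib, ← Finset.smul_sum]
      have e3 : ∑ i ∈ Finset.univ.erase i₀, c i • g i = α • θ - c i₀ • g i₀ := by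
        rw [← hc, ← Finset.add_sum_erase _ _ (Finset.mem_univ i₀)]; abel
      have e4 : ∑ i ∈ Finset.univ.erase i₀, b i • g i = - (b i₀ • θ) :=
        (neg_eq_of_add_eq_zero_right hb).symm
      rw [e3, e4, hq, hcu, smul_sub, smul_smul, smul_smul, mul_comm α q]
      abel
    obtain ⟨e, he⟩ := h.exact _ h2
    have hq' : q * C u = ∑ r, e r * A r i₀ := by
      have := he i₀; rwa [Function.update_self] at this
    have hq'' : q = C u⁻¹ * ∑ r, e r * A r i₀ := by
      rw [← hq', ← mul_assoc, mul_comm _ q, mul_assoc, huC, mul_one]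
    refine ⟨e, ?_⟩
    intro i
    by_cases hi : i = i₀
    · subst hi
      simp only [Function.update_self]
      rw [hq, hq'', Finset.mul_sum, Finset.mul_sum]
      apply Finset.sum_congr rfl
      intro r _
      ring
    · simp only [Function.update_of_ne hi]
      have := he i
      rw [Function.update_of_ne hi] at this
      have h5 : b i = ∑ r, e r * A r i - q * c i := by rw [← this]; ring
      rw [h5, hq'', Finset.mul_sum, Finset.sum_mul, ← Finset.sum_sub_distrib]
      apply Finset.sum_congr rfl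
      intro r _
      ring
  · intro e he
    have h0 := he i₀
    simp only [Function.update_self] at h0
    have h1 : ∑ r, e r * A r i₀ = 0 := by
      have : ∑ r, e r * (A r i₀ * C u⁻¹ * α) = (∑ r, e r * A r i₀) * (C u⁻¹ * α) := by
        rw [Finset.sum_mul]
        apply Finset.sum_congr rfl
        intro r _
        ring
      rw [this] at h0
      rcases mul_eq_zero.mp h0 with h2 | h2
      · exact h2
      · rcases mul_eq_zero.mp h2 with h3 | h3
        · rw [C_eq_zero] at h3
          exact (inv_ne_zero hu h3).elim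
        · exact (hα0 h3).elim
    apply h.inj
    intro i
    by_cases hi : i = i₀
    · rw [hi]; exact h1
    · have := he i
      simp only [Function.update_of_ne hi] at this
      have h3 : ∑ r, e r * (A r i - A r i₀ * C u⁻¹ * c i) =
          ∑ r, e r * A r i - (∑ r, e r * A r i₀) * (C u⁻¹ * c i) := by
        rw [Finset.sum_mul, ← Finset.sum_sub_distrib]
        apply Finset.sum_congr rfl
        intro r _
        ring
      rw [h3, h1, zero_mul, sub_zero] at this
      exact this

lemma HasRes.step {P : Polynomial ℤ} (h : HasRes D' P) {θ : V → MvPolynomial V K} {s : ℕ}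
    {α : MvPolynomial V K} (hθ : ∀ v, (θ v).IsHomogeneous s) (hα : α.IsHomogeneous 1)
    (hα0 : α ≠ 0) (hD : D' ≤ D) (hθD : θ ∈ D)
    (hdec : ∀ f ∈ D, ∃ q : MvPolynomial V K, f - q • θ ∈ D') (hαθ : α • θ ∈ D')
    (hdvd : ∀ q : MvPolynomial V K, q • θ ∈ D' → α ∣ q) :
    HasRes D (P + (Polynomial.X ^ s - Polynomial.X ^ (s + 1))) := by
  classical
  obtain ⟨n₀, n₁, d₀, d₁, g, A, hR, hP⟩ := h
  obtain ⟨c, hc, hc'⟩ := homog_coeff hR.hg (f := α • θ) (by rw [hR.gen]; exact hαθ) (n := s + 1)
    (by
      intro v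
      have := hα.mul (hθ v)
      rwa [add_comm] at this)
  by_cases hcase : ∃ i, d₀ i = s + 1 ∧ c i ≠ 0
  · obtain ⟨i₀, hi₀, hci⟩ := hcase
    have hdeg : (c i₀).IsHomogeneous 0 := by
      rcases hc' i₀ with h1 | h1
      · exact (hci h1).elim
      · have := h1.2; rwa [hi₀, Nat.sub_self] at this
    have hC : c i₀ = C (coeff 0 (c i₀)) := by
      exact totalDegree_eq_zero_iff_eq_C.mp (Nat.le_zero.mp hdeg.totalDegree_le)
    have hu : coeff 0 (c i₀) ≠ 0 := by
      intro h0; rw [h0, C_0] at hC; exact hci hC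
    refine ⟨n₀, n₁, _, _, _, _, hR.step2 hθ hα hα0 hD hθD hdec hdvd hc hc' hi₀ hu hC, ?_⟩
    rw [← hP]
    have : gp (Function.update d₀ i₀ s) =
        gp d₀ + (Polynomial.X ^ s - Polynomial.X ^ (s + 1)) := by
      unfold gp
      rw [← Finset.add_sum_erase _ _ (Finset.mem_univ i₀),
        ← Finset.add_sum_erase _ (fun i => (Polynomial.X : Polynomial ℤ) ^ d₀ i)
          (Finset.mem_univ i₀), Function.update_self, hi₀]
      have : ∑ i ∈ Finset.univ.erase i₀, (Polynomial.X : Polynomial ℤ) ^ Function.update d₀ i₀ s i =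
          ∑ i ∈ Finset.univ.erase i₀, (Polynomial.X : Polynomial ℤ) ^ d₀ i := by
        apply Finset.sum_congr rfl
        intro i hi
        rw [Function.update_of_ne (Finset.ne_of_mem_erase hi)]
      rw [this]; ring
    rw [this]; ring
  · have hc'' : ∀ i, c i = 0 ∨ (d₀ i < s + 1 ∧ (c i).IsHomogeneous (s + 1 - d₀ i)) := by
      intro i
      rcases hc' i with h1 | h1
      · exact Or.inl h1
      · by_cases h2 : c i = 0
        · exact Or.inl h2
        · right
          refine ⟨?_, h1.2⟩
          rcases Nat.eq_or_lt_of_le h1.1 with h3 | h3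
          · exact (hcase ⟨i, h3, h2⟩).elim
          · exact h3
    refine ⟨n₀ + 1, n₁ + 1, _, _, _, _, hR.step1 hθ hα hα0 hD hθD hdec hdvd hc hc'', ?_⟩
    rw [← hP]
    unfold gp
    rw [Fin.sum_univ_succ, Fin.sum_univ_succ]
    simp only [Fin.cons_zero, Fin.cons_succ]
    ring

end Pool.Agent.Lib.MP_a2ed14_ag
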